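import Mathlib
import Pool.Agent.H.MP_59b15d_al.sym.Defs

set_option autoImplicit false

namespace Pool.MP_59b15d_al.SymH

open Pool.MP_59b15d_al.Sym (Gg cW)

/-- The fundamental group of the surface of genus `h` with `n = N + 1` punctures: the free group on
`a_i, b_i` (`i < h`) and `x_j` (`j < N`). -/
abbrev FG (h N : ℕ) : Type := Gg h N

variable {h N : ℕ}

/-- The loop `x_j` around a puncture, `j < N`. -/
abbrev xg (j : Fin N) : FG h N := FreeGroup.of (Sum.inr j)

/-- The loop `x_n = (∏ [a_i, b_i] ∏ x_j)⁻¹` around the last puncture. -/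
def xn (h N : ℕ) : FG h N := (cW h N)⁻¹

/-- The loops around the punctures. -/
def per (j : Fin (N + 1)) : FG h N := if hj : (j : ℕ) < N then xg ⟨j, hj⟩ else xn h N

theorem per_castSucc (j : Fin N) : (per j.castSucc : FG h N) = xg j := by
  simp [per]

theorem per_last : (per (Fin.last N) : FG h N) = xn h N := by
  simp [per]

/-- The pure mapping class group of the punctured surface, acting on the free group: all
automorphisms mapping every `x_j`, `j ≤ n`, to a conjugate. -/
def CP (h N : ℕ) : Subgroup (MulAut (FG h N)) where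
  carrier := {f | ∀ j : Fin (N + 1), ∃ w : FG h N, f (per j) = w * per j * w⁻¹}
  mul_mem' := by
    intro f g hf hg j
    obtain ⟨w, hw⟩ := hg j
    obtain ⟨v, hv⟩ := hf j
    refine ⟨f w * v, ?_⟩
    change f (g (per j)) = _
    rw [hw, map_mul, map_mul, map_inv, hv]
    group
  one_mem' := fun j => ⟨1, by simp⟩
  inv_mem' := by
    intro f hf j
    obtain ⟨v, hv⟩ := hf j
    refine ⟨f⁻¹ v⁻¹, ?_⟩
    have h1 : f⁻¹ (f (per j)) = per j := by
      change (f⁻¹ * f) (per j) = per j
      rw [inv_mul_cancel]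
      rfl
    have h2 : per j = f⁻¹ v * f⁻¹ (per j) * (f⁻¹ v)⁻¹ := by
      rw [← map_inv, ← map_mul, ← map_mul, ← hv, h1]
    rw [map_inv]
    conv_rhs => rw [h2]
    group

theorem mem_CP {f : MulAut (FG h N)} :
    f ∈ CP h N ↔ ∀ j : Fin (N + 1), ∃ w : FG h N, f (per j) = w * per j * w⁻¹ := Iff.rfl

/-- `R_e`: the normal subgroup generated by the `x_j ^ e_j`, `j ≤ n`. -/
def Rel (h : ℕ) (e : Fin (N + 1) → ℕ) : Subgroup (FG h N) :=
  Subgroup.normalClosure (Set.range fun j => (per j : FG h N) ^ e j)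

/-- `R'`: the normal subgroup generated by the `x_j ^ e_j`, `j ≤ N`. -/
def Rel' (h : ℕ) (e : Fin N → ℕ) : Subgroup (FG h N) :=
  Subgroup.normalClosure (Set.range fun j => (xg j : FG h N) ^ e j)

/-- `f` is the conjugation by `v` modulo `U`, on `D`. -/
def InnOn (U D : Subgroup (FG h N)) (f : MulAut (FG h N)) (v : FG h N) : Prop :=
  ∀ y ∈ D, f y * (v * y * v⁻¹)⁻¹ ∈ U

/-- Levels: `U` is normal in `D`, of finite index, and contains the conjugates of the `x_j ^ e_j`,
`j ≤ N`, and of `x_n ^ m` by the elements of `T` (the killed faces). -/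
structure Lev (e : Fin N → ℕ) (m : ℕ) (D : Subgroup (FG h N)) (T : Set (FG h N))
    (U : Subgroup (FG h N)) : Prop where
  le : U ≤ D
  nor : ∀ d ∈ D, ∀ u ∈ U, d * u * d⁻¹ ∈ U
  fin : U.FiniteIndex
  rel : ∀ (j : Fin N) (g : FG h N), g * xg j ^ e j * g⁻¹ ∈ U
  kil : ∀ g ∈ T, g * xn h N ^ m * g⁻¹ ∈ U

end Pool.MP_59b15d_al.SymH
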