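import Mathlib
import Pool.Agent.H.MP_59b15d_al.sym.Coch
import Pool.Agent.H.MP_59b15d_al.symh.Defs

set_option autoImplicit false

namespace Pool.MP_59b15d_al.SymH

open Pool.MP_59b15d_al.Sym (Gg cW coB coB_full)

section general

variable {G X M : Type*} [Group G] [MulAction G X] [AddCommGroup M]

/-- The elements `g` such that all `ψ - ψ ∘ g` are in `A`. -/
def Sg (A : AddSubgroup (X → M)) : Subgroup G where
  carrier := {g | ∀ ψ : X → M, (fun x => ψ x - ψ (g • x)) ∈ A}
  mul_mem' := by
    intro u v hu hv ψ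
    have : (fun x => ψ x - ψ ((u * v) • x)) =
        (fun x => ψ x - ψ (u • x)) + fun x => ψ (u • x) - ψ (u • (v • x)) := by
      funext x
      simp [mul_smul]
    rw [this]
    exact AddSubgroup.add_mem _ (hu ψ) (hv fun x => ψ (u • x))
  one_mem' := by
    intro ψ
    have : (fun x => ψ x - ψ ((1 : G) • x)) = 0 := by
      funext x
      simp
    rw [this]
    exact AddSubgroup.zero_mem _
  inv_mem' := by
    intro u hu ψ
    have h2 := AddSubgroup.neg_mem _ (hu fun x => ψ (u⁻¹ • x))
    have : (fun x => ψ x - ψ (u⁻¹ • x)) = -(fun x => ψ (u⁻¹ • x) - ψ (u⁻¹ • (u • x))) := by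
      funext x
      simp
    rw [this]
    exact h2

theorem mem_Sg {A : AddSubgroup (X → M)} {g : G} :
    g ∈ Sg (G := G) A ↔ ∀ ψ : X → M, (fun x => ψ x - ψ (g • x)) ∈ A := Iff.rfl

theorem Sg_full [Finite X] {ι : Type*} [Fintype ι] (g : ι → G)
    (hg : Subgroup.closure (Set.range g) = ⊤) (A : AddSubgroup (X → M)) (hA : ∀ i, g i ∈ Sg A)
    (κ : X → M) (hκ : ∀ x : X, ∑ᶠ y ∈ MulAction.orbit G x, κ y = 0) : κ ∈ A := by
  obtain ⟨ψ, hψ⟩ := coB_full (M := M) g hg κ hκ
  have h1 : κ = ∑ i, fun x => ψ i x - ψ i (g i • x) := by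
    funext x
    rw [hψ, Finset.sum_apply]
  rw [h1]
  exact AddSubgroup.sum_mem _ fun i _ => hA i (ψ i)

end general

section cocycle

variable {ι : Type*} {X : Type*} [MulAction (FreeGroup ι) X] {M : Type*} [AddCommGroup M]

/-- The permutation of `X × M` defined by a generator and a function on `X`. -/
def coAct (k : ι → X → M) (j : ι) : Equiv.Perm (X × M) where
  toFun p := ((FreeGroup.of j : FreeGroup ι) • p.1, p.2 + k j p.1)
  invFun p := ((FreeGroup.of j : FreeGroup ι)⁻¹ • p.1,
    p.2 - k j ((FreeGroup.of j : FreeGroup ι)⁻¹ • p.1))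
  left_inv := by rintro ⟨x, t⟩; simp
  right_inv := by rintro ⟨x, t⟩; simp

/-- The cocycle with given values on the generators. -/
def coK (k : ι → X → M) (w : FreeGroup ι) (x : X) : M :=
  (FreeGroup.lift (coAct k) w (x, 0)).2

theorem coK_spec (k : ι → X → M) (w : FreeGroup ι) :
    ∀ (x : X) (t : M), FreeGroup.lift (coAct k) w (x, t) = (w • x, t + coK k w x) := by
  have key : ∀ w : FreeGroup ι, (∀ (x : X) (t : M), FreeGroup.lift (coAct k) w (x, t) =
      (w • x, t + (FreeGroup.lift (coAct k) w (x, 0)).2)) := by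
    intro w
    induction w using FreeGroup.induction_on with
    | C1 => intro x t; simp
    | of j => intro x t; simp [coAct]
    | inv_of j _ =>
      intro x t
      rw [map_inv, FreeGroup.lift_apply_of]
      change (coAct k j).symm (x, t) = (_, t + ((coAct k j).symm (x, 0)).2)
      simp [coAct, sub_eq_add_neg]
    | mul u v hu hv =>
      intro x t
      rw [map_mul, Equiv.Perm.mul_apply, Equiv.Perm.mul_apply, hv x t, hv x 0, hu, hu _ (0 + _)]
      rw [mul_smul]
      simp [add_assoc]
  exact key w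

theorem coK_mul (k : ι → X → M) (u v : FreeGroup ι) (x : X) :
    coK k (u * v) x = coK k v x + coK k u (v • x) := by
  rw [coK, map_mul, Equiv.Perm.mul_apply, coK_spec, coK_spec, zero_add]

theorem coK_one (k : ι → X → M) (x : X) : coK k 1 x = 0 := by
  simp [coK]

theorem coK_of (k : ι → X → M) (j : ι) (x : X) : coK k (FreeGroup.of j) x = k j x := by
  simp [coK, coAct]

theorem coK_inv (k : ι → X → M) (u : FreeGroup ι) (x : X) : coK k u⁻¹ x = - coK k u (u⁻¹ • x) := by
  have h1 := coK_mul k u u⁻¹ x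
  rw [mul_inv_cancel, coK_one] at h1
  exact eq_neg_of_add_eq_zero_left h1.symm

theorem coK_add (k k' : ι → X → M) (w : FreeGroup ι) (x : X) :
    coK (k + k') w x = coK k w x + coK k' w x := by
  induction w using FreeGroup.induction_on generalizing x with
  | C1 => simp [coK_one]
  | of j => simp [coK_of]
  | inv_of j h => rw [coK_inv, coK_inv, coK_inv, coK_of, coK_of, coK_of]; simp; abel
  | mul u v hu hv => rw [coK_mul, coK_mul, coK_mul, hu, hv]; abel

theorem coK_neg (k : ι → X → M) (w : FreeGroup ι) (x : X) :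
    coK (-k) w x = - coK k w x := by
  induction w using FreeGroup.induction_on generalizing x with
  | C1 => simp [coK_one]
  | of j => simp [coK_of]
  | inv_of j h => rw [coK_inv, coK_inv, coK_of, coK_of]; simp
  | mul u v hu hv => rw [coK_mul, coK_mul, hu, hv]; abel

theorem coK_zero (w : FreeGroup ι) (x : X) : coK (0 : ι → X → M) w x = 0 := by
  induction w using FreeGroup.induction_on generalizing x with
  | C1 => simp [coK_one]
  | of j => simp [coK_of]
  | inv_of j h => rw [coK_inv, coK_of]; simp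
  | mul u v hu hv => rw [coK_mul, hu, hv]; simp

theorem coK_pow (k : ι → X → M) (j : ι) (φ : X → M)
    (hk : ∀ x, k j x = φ x - φ ((FreeGroup.of j : FreeGroup ι) • x)) (n : ℕ) (x : X) :
    coK k (FreeGroup.of j ^ n) x = φ x - φ ((FreeGroup.of j ^ n : FreeGroup ι) • x) := by
  induction n with
  | zero => simp [coK_one]
  | succ n ih =>
    rw [pow_succ', coK_mul, ih, coK_of, hk, mul_smul]
    simp

end cocycle

variable {h N : ℕ}

/-- The pieces of the boundary word. -/
def pw : Fin h ⊕ Fin N → FG h N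
  | Sum.inl i =>
    FreeGroup.of (Sum.inl (Sum.inl i)) * FreeGroup.of (Sum.inl (Sum.inr i)) *
      (FreeGroup.of (Sum.inl (Sum.inl i)))⁻¹ * (FreeGroup.of (Sum.inl (Sum.inr i)))⁻¹
  | Sum.inr j => FreeGroup.of (Sum.inr j)

/-- The piece of a generator. -/
def pc : (Fin h ⊕ Fin h) ⊕ Fin N → Fin h ⊕ Fin N
  | Sum.inl (Sum.inl i) => Sum.inl i
  | Sum.inl (Sum.inr i) => Sum.inl i
  | Sum.inr j => Sum.inr j

/-- The list of all pieces. -/
def pL (h N : ℕ) : List (Fin h ⊕ Fin N) :=
  (List.finRange h).map Sum.inl ++ (List.finRange N).map Sum.inr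

theorem pL_nodup : (pL h N).Nodup := by
  rw [pL, List.nodup_append]
  refine ⟨(List.nodup_finRange h).map Sum.inl_injective,
    (List.nodup_finRange N).map Sum.inr_injective, ?_⟩
  rintro a ha b hb rfl
  simp only [List.mem_map] at ha hb
  obtain ⟨i, -, hi⟩ := ha
  obtain ⟨j, -, hj⟩ := hb
  rw [← hi] at hj
  exact absurd hj (by simp)

theorem pL_mem (p : Fin h ⊕ Fin N) : p ∈ pL h N := by
  rw [pL, List.mem_append]
  rcases p with i | j
  · exact Or.inl (List.mem_map.2 ⟨i, List.mem_finRange i, rfl⟩)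
  · exact Or.inr (List.mem_map.2 ⟨j, List.mem_finRange j, rfl⟩)

theorem cW_eq : cW h N = ((pL h N).map pw).prod := by
  rw [cW, pL, List.map_append, List.prod_append, List.map_map, List.map_map, List.ofFn_eq_map,
    List.ofFn_eq_map]
  rfl

section att

variable {X : Type*} [MulAction (FG h N) X] {M : Type*} [AddCommGroup M]

/-- Admissible values, supported on the pieces of `L`. -/
def Adm (L : List (Fin h ⊕ Fin N)) (k : (Fin h ⊕ Fin h) ⊕ Fin N → X → M) : Prop :=
  (∀ g, pc g ∉ L → k g = 0) ∧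
    ∀ j : Fin N, ∃ φ : X → M, ∀ x, k (Sum.inr j) x = φ x - φ ((xg j : FG h N) • x)

/-- The attained values. -/
def att (M : Type*) [AddCommGroup M] (X : Type*) [MulAction (FG h N) X]
    (L : List (Fin h ⊕ Fin N)) : AddSubgroup (X → M) where
  carrier := {κ | ∃ k : (Fin h ⊕ Fin h) ⊕ Fin N → X → M, Adm L k ∧
    ∀ x, coK k ((L.map pw).prod : FG h N) x = κ x}
  add_mem' := by
    rintro κ κ' ⟨k, hk, hk'⟩ ⟨l, hl, hl'⟩
    refine ⟨k + l, ⟨fun g hg => ?_, fun j => ?_⟩, fun x => ?_⟩
    · rw [Pi.add_apply, hk.1 g hg, hl.1 g hg, add_zero]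
    · obtain ⟨φ, hφ⟩ := hk.2 j
      obtain ⟨φ', hφ'⟩ := hl.2 j
      refine ⟨φ + φ', fun x => ?_⟩
      rw [Pi.add_apply, Pi.add_apply, hφ, hφ', Pi.add_apply, Pi.add_apply, add_sub_add_comm]
    · rw [coK_add, hk', hl', Pi.add_apply]
  zero_mem' := by
    refine ⟨0, ⟨fun g _ => rfl, fun j => ⟨0, fun x => by simp⟩⟩, fun x => by
      rw [coK_zero]; rfl⟩
  neg_mem' := by
    rintro κ ⟨k, hk, hk'⟩
    refine ⟨-k, ⟨fun g hg => ?_, fun j => ?_⟩, fun x => ?_⟩
    · rw [Pi.neg_apply, hk.1 g hg, neg_zero]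
    · obtain ⟨φ, hφ⟩ := hk.2 j
      refine ⟨-φ, fun x => ?_⟩
      rw [Pi.neg_apply, Pi.neg_apply, hφ, Pi.neg_apply, Pi.neg_apply]
      abel
    · rw [coK_neg, hk', Pi.neg_apply]

theorem mem_att {L : List (Fin h ⊕ Fin N)} {κ : X → M} :
    κ ∈ att (h := h) (N := N) M X L ↔ ∃ k : (Fin h ⊕ Fin h) ⊕ Fin N → X → M, Adm L k ∧
      ∀ x, coK k ((L.map pw).prod : FG h N) x = κ x := Iff.rfl

/-- `k` vanishing on a piece. -/
theorem coK_pw_zero (k : (Fin h ⊕ Fin h) ⊕ Fin N → X → M) (p : Fin h ⊕ Fin N)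
    (hk : ∀ g, pc g = p → k g = 0) (x : X) : coK k (pw p : FG h N) x = 0 := by
  rcases p with i | j
  · have h1 := hk (Sum.inl (Sum.inl i)) rfl
    have h2 := hk (Sum.inl (Sum.inr i)) rfl
    simp only [pw, coK_mul, coK_inv, coK_of, h1, h2]
    simp
  · have h1 := hk (Sum.inr j) rfl
    simp only [pw, coK_of, h1]
    rfl

theorem att_mono {p : Fin h ⊕ Fin N} {L : List (Fin h ⊕ Fin N)} (hp : p ∉ L) :
    att M X L ≤ att M X (p :: L) := by
  rintro κ ⟨k, hk, hk'⟩
  refine ⟨k, ⟨fun g hg => hk.1 g fun h => hg (List.mem_cons_of_mem _ h), hk.2⟩, fun x => ?_⟩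
  rw [List.map_cons, List.prod_cons, coK_mul, hk', coK_pw_zero k p, add_zero]
  intro g hg
  apply hk.1
  rwa [hg]

/-- One piece: all values `ψ - ψ ∘ r`, `r` one of the generators of the piece. -/
theorem att_piece (g : (Fin h ⊕ Fin h) ⊕ Fin N) :
    (FreeGroup.of g : FG h N) ∈ Sg (G := FG h N) (att (h := h) (N := N) M X [pc g]) := by
  have handle : ∀ i : Fin h, (FreeGroup.of (Sum.inl (Sum.inl i)) : FG h N) ∈
        Sg (G := FG h N) (att (h := h) (N := N) M X [Sum.inl i]) ∧
      (FreeGroup.of (Sum.inl (Sum.inr i)) : FG h N) ∈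
        Sg (G := FG h N) (att (h := h) (N := N) M X [Sum.inl i]) := by
    intro i
    let a : FG h N := FreeGroup.of (Sum.inl (Sum.inl i))
    let b : FG h N := FreeGroup.of (Sum.inl (Sum.inr i))
    have hab : (([Sum.inl i] : List (Fin h ⊕ Fin N)).map pw).prod = a * b * a⁻¹ * b⁻¹ := by
      simp [pw, a, b]
    have ha : b * a⁻¹ * b⁻¹ ∈ Sg (G := FG h N) (att (h := h) (N := N) M X [Sum.inl i]) := by
      intro ψ
      let k : (Fin h ⊕ Fin h) ⊕ Fin N → X → M := fun g =>
        if g = Sum.inl (Sum.inr i) then fun x => - ψ (b • x) else 0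
      have k1 : k (Sum.inl (Sum.inl i)) = 0 := by simp [k]
      have k2 : k (Sum.inl (Sum.inr i)) = fun x => - ψ (b • x) := by simp [k]
      refine ⟨k, ⟨fun g hg => ?_, fun j => ⟨0, fun x => by simp [k]⟩⟩, fun x => ?_⟩
      · have : g ≠ Sum.inl (Sum.inr i) := by
          rintro rfl
          exact hg (by simp [pc])
        simp [k, this]
      · rw [hab]
        simp only [a, b, coK_mul, coK_inv, coK_of, k1, k2]
        simp only [Pi.zero_apply, neg_zero, neg_neg, zero_add, add_zero,
          ← mul_smul, mul_assoc, mul_inv_cancel, one_smul]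
        abel
    have hb : b * a * b * (b * a)⁻¹ ∈
        Sg (G := FG h N) (att (h := h) (N := N) M X [Sum.inl i]) := by
      intro ψ
      let k : (Fin h ⊕ Fin h) ⊕ Fin N → X → M := fun g =>
        if g = Sum.inl (Sum.inl i) then fun x => - ψ ((b * a) • x) else 0
      have k1 : k (Sum.inl (Sum.inr i)) = 0 := by simp [k]
      have k2 : k (Sum.inl (Sum.inl i)) = fun x => - ψ ((b * a) • x) := by simp [k]
      refine ⟨k, ⟨fun g hg => ?_, fun j => ⟨0, fun x => by simp [k]⟩⟩, fun x => ?_⟩
      · have : g ≠ Sum.inl (Sum.inl i) := by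
          rintro rfl
          exact hg (by simp [pc])
        simp [k, this]
      · rw [hab]
        simp only [a, b, coK_mul, coK_inv, coK_of, k1, k2]
        simp only [Pi.zero_apply, neg_zero, neg_neg, zero_add,
          ← mul_smul, mul_assoc, mul_inv_cancel, one_smul, mul_inv_rev,
          mul_inv_cancel_left]
        abel
    have hb' := Subgroup.mul_mem _ (Subgroup.mul_mem _ ha hb) (Subgroup.inv_mem _ ha)
    have e1 : b * a⁻¹ * b⁻¹ * (b * a * b * (b * a)⁻¹) * (b * a⁻¹ * b⁻¹)⁻¹ = b := by group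
    rw [e1] at hb'
    have ha' := Subgroup.mul_mem _ (Subgroup.mul_mem _ (Subgroup.inv_mem _ hb')
      (Subgroup.inv_mem _ ha)) hb'
    have e2 : b⁻¹ * (b * a⁻¹ * b⁻¹)⁻¹ * b = a := by group
    rw [e2] at ha'
    exact ⟨ha', hb'⟩
  rcases g with (i | i) | j
  · exact (handle i).1
  · exact (handle i).2
  · intro ψ
    let k : (Fin h ⊕ Fin h) ⊕ Fin N → X → M := fun g =>
      if g = Sum.inr j then fun x => ψ x - ψ ((xg j : FG h N) • x) else 0
    have k1 : k (Sum.inr j) = fun x => ψ x - ψ ((xg j : FG h N) • x) := by simp [k]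
    refine ⟨k, ⟨fun g hg => ?_, fun j' => ?_⟩, fun x => ?_⟩
    · have : g ≠ Sum.inr j := by
        rintro rfl
        exact hg (by simp [pc])
      simp [k, this]
    · by_cases hj : j' = j
      · subst hj
        exact ⟨ψ, fun x => by rw [k1]⟩
      · exact ⟨0, fun x => by simp [k, hj]⟩
    · simp only [pc, List.map_cons, List.map_nil, List.prod_cons, List.prod_nil, mul_one, pw,
        coK_of, k1]

theorem att_all (L : List (Fin h ⊕ Fin N)) (hL : L.Nodup) :
    ((L.map pw).prod : FG h N) ∈ Sg (G := FG h N) (att (h := h) (N := N) M X L) ∧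
    ∀ g, pc g ∈ L →
      (FreeGroup.of g : FG h N) ∈ Sg (G := FG h N) (att (h := h) (N := N) M X L) := by
  induction L with
  | nil =>
    refine ⟨?_, fun g hg => absurd hg (by simp)⟩
    rw [List.map_nil, List.prod_nil]
    exact Subgroup.one_mem _
  | cons p L ih =>
    rw [List.nodup_cons] at hL
    obtain ⟨ih1, ih2⟩ := ih hL.2
    have hmono : Sg (G := FG h N) (att (h := h) (N := N) M X L) ≤
        Sg (G := FG h N) (att (h := h) (N := N) M X (p :: L)) :=
      fun g hg ψ => att_mono hL.1 (hg ψ)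
    have key : ∀ g, pc g = p →
        (FreeGroup.of g : FG h N) ∈ Sg (G := FG h N) (att (h := h) (N := N) M X (p :: L)) := by
      intro g hg
      set s : FG h N := (L.map pw).prod with hs
      have h1 : s⁻¹ * FreeGroup.of g * s ∈
          Sg (G := FG h N) (att (h := h) (N := N) M X (p :: L)) := by
        intro ψ
        obtain ⟨k, hk, hk'⟩ := att_piece (M := M) (X := X) g fun x => ψ (s⁻¹ • x)
        rw [hg] at hk hk'
        refine ⟨k, ⟨fun g' hg' => hk.1 g' fun h => hg' ?_, hk.2⟩, fun x => ?_⟩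
        · rw [List.mem_singleton] at h
          rw [h]
          exact List.mem_cons_self
        · have h2 : coK k s x = 0 := by
            have h3 : ∀ L' : List (Fin h ⊕ Fin N), p ∉ L' →
                ∀ x, coK k ((L'.map pw).prod : FG h N) x = 0 := by
              intro L'
              induction L' with
              | nil => intro _ x; simp [coK_one]
              | cons q L' ih' =>
                intro hq x
                rw [List.mem_cons, not_or] at hq
                rw [List.map_cons, List.prod_cons, coK_mul, ih' hq.2, coK_pw_zero k q, add_zero]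
                intro g' hg'
                apply hk.1
                rw [List.mem_singleton, hg']
                exact fun h => hq.1 h.symm
            exact h3 L hL.1 x
          have h4 := hk' (s • x)
          rw [List.map_cons, List.prod_cons, coK_mul, ← hs, h2, zero_add]
          rw [List.map_cons, List.map_nil, List.prod_cons, List.prod_nil, mul_one] at h4
          rw [h4]
          simp only [inv_smul_smul, mul_smul]
      have h5 := hmono ih1
      have h6 := Subgroup.mul_mem _ (Subgroup.mul_mem _ h5 h1) (Subgroup.inv_mem _ h5)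
      have h7 : s * (s⁻¹ * FreeGroup.of g * s) * s⁻¹ = FreeGroup.of g := by group
      rwa [h7] at h6
    refine ⟨?_, fun g hg => ?_⟩
    · rw [List.map_cons, List.prod_cons]
      refine Subgroup.mul_mem _ ?_ (hmono ih1)
      rcases p with i | j
      · have h1 := key (Sum.inl (Sum.inl i)) rfl
        have h2 := key (Sum.inl (Sum.inr i)) rfl
        exact Subgroup.mul_mem _ (Subgroup.mul_mem _ (Subgroup.mul_mem _ h1 h2)
          (Subgroup.inv_mem _ h1)) (Subgroup.inv_mem _ h2)
      · exact key (Sum.inr j) rfl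
    · rcases List.mem_cons.1 hg with hg | hg
      · exact key g hg
      · exact hmono (ih2 g hg)

end att

/-- (COCH) -- helper2. -/
theorem coch {X : Type*} [Finite X] [MulAction (FG h N) X] {M : Type*} [AddCommGroup M]
    (e : Fin N → ℕ) (he : ∀ j (x : X), (xg j ^ e j : FG h N) • x = x) (κ : X → M)
    (hκ : ∀ x : X, ∑ᶠ y ∈ MulAction.orbit (FG h N) x, κ y = 0) :
    ∃ K : FG h N → X → M, (∀ u v x, K (u * v) x = K v x + K u (v • x)) ∧
      (∀ j x, K (xg j ^ e j) x = 0) ∧ ∀ x, K (xn h N) x = κ x := by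
  -- the function for `cW`
  let κ' : X → M := fun x => - κ ((cW h N) • x)
  have hκ' : ∀ x : X, ∑ᶠ y ∈ MulAction.orbit (FG h N) x, κ' y = 0 := by
    intro x
    have h1 : ∑ᶠ y ∈ MulAction.orbit (FG h N) x, κ' y =
        ∑ᶠ y, -(Set.indicator (MulAction.orbit (FG h N) x) κ ((cW h N) • y)) := by
      rw [finsum_mem_def]
      apply finsum_congr
      intro y
      by_cases hy : y ∈ MulAction.orbit (FG h N) x
      · rw [Set.indicator_of_mem hy, Set.indicator_of_mem]
        rw [← MulAction.orbit_eq_iff] at hy ⊢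
        rw [← hy, MulAction.orbit_smul]
      · rw [Set.indicator_of_notMem hy, Set.indicator_of_notMem, neg_zero]
        intro h
        apply hy
        rw [← MulAction.orbit_eq_iff] at h ⊢
        rw [← h, MulAction.orbit_smul]
    have h2 := finsum_comp_equiv (MulAction.toPerm (cW h N : FG h N) : Equiv.Perm X)
      (f := Set.indicator (MulAction.orbit (FG h N) x) κ)
    have h3 : ∑ᶠ y, (Set.indicator (MulAction.orbit (FG h N) x) κ ((cW h N) • y)) = 0 := by
      rw [← hκ x, finsum_mem_def, ← h2]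
      rfl
    rw [h1, finsum_neg_distrib, h3, neg_zero]
  obtain ⟨k, hk, hk'⟩ : κ' ∈ att (h := h) (N := N) M X (pL h N) :=
    Sg_full (G := FG h N) _ (FreeGroup.closure_range_of _) _
      (fun g => (att_all (pL h N) pL_nodup).2 g (pL_mem _)) κ' hκ'
  rw [← cW_eq] at hk'
  refine ⟨coK k, coK_mul k, fun j x => ?_, fun x => ?_⟩
  · obtain ⟨φ, hφ⟩ := hk.2 j
    rw [coK_pow k (Sum.inr j) φ hφ, he, sub_self]
  · have h3 := coK_mul k (cW h N) (cW h N)⁻¹ x
    rw [mul_inv_cancel, coK_one, hk'] at h3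
    have h4 : cW h N • ((cW h N)⁻¹ • x) = x := smul_inv_smul _ _
    simp only [κ', h4] at h3
    rw [← sub_eq_zero, sub_eq_add_neg]
    exact h3.symm

end Pool.MP_59b15d_al.SymH
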