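import Mathlib
import Pool.Agent.H.MP_59b15d_al.sym.Perm
import Pool.Agent.H.MP_59b15d_al.symh.Defs

set_option autoImplicit false

namespace Pool.MP_59b15d_al.SymH

open Pool.MP_59b15d_al.Sym (Gg cW)

variable {h N : ℕ}

/-- (BIG), genus zero: transfer. -/
theorem big_zero (hN : 4 ≤ N) (e : Fin N → ℕ) (he : ∀ j, 2 ≤ e j) (M : ℕ) (hM : 0 < M) :
    ∃ U : Subgroup (FG 0 N), U.Normal ∧ U.FiniteIndex ∧ (∀ j, xg j ^ e j ∈ U) ∧ xn 0 N ∈ U ∧
      (∀ (j : Fin N) (k : ℕ), (xg j : FG 0 N) ^ k ∈ U → e j ∣ k) ∧ M ∣ U.index := by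
  obtain ⟨V, h1, h2, h3, h4, h5, h6⟩ := Sym.big hN e he M hM
  let φ : FG 0 N →* Sym.FF N := FreeGroup.lift (Sum.elim (fun _ => 1) FreeGroup.of)
  have hx : ∀ j : Fin N, φ (xg j) = FreeGroup.of j := fun j => by simp [φ]
  have hs : Function.Surjective φ := by
    rw [← MonoidHom.range_eq_top, eq_top_iff, ← FreeGroup.closure_range_of, Subgroup.closure_le]
    rintro _ ⟨j, rfl⟩
    exact ⟨xg j, hx j⟩
  have hn : φ (xn 0 N) = Sym.xn N := by
    rw [xn, cW, Sym.xn, map_inv, map_mul, map_list_prod, map_list_prod, List.map_ofFn,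
      List.map_ofFn, List.ofFn_zero, List.prod_nil, one_mul]
    congr 3
  refine ⟨V.comap φ, inferInstance,
    ⟨by rw [Subgroup.index_comap_of_surjective _ hs]; exact h2.index_ne_zero⟩, fun j => ?_, ?_, fun j k hk => ?_, ?_⟩
  · rw [Subgroup.mem_comap, map_pow, hx]
    exact h3 j
  · rw [Subgroup.mem_comap, hn]
    exact h4
  · rw [Subgroup.mem_comap, map_pow, hx] at hk
    exact h5 j k hk
  · rw [Subgroup.index_comap_of_surjective _ hs]
    exact h6

/-- (BIG), positive genus. -/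
theorem big_pos (e : Fin N → ℕ) (he : ∀ j, 2 ≤ e j) (M : ℕ) (hM : 0 < M) :
    ∃ U : Subgroup (FG (h + 1) N), U.Normal ∧ U.FiniteIndex ∧ (∀ j, xg j ^ e j ∈ U) ∧
      xn (h + 1) N ∈ U ∧
      (∀ (j : Fin N) (k : ℕ), (xg j : FG (h + 1) N) ^ k ∈ U → e j ∣ k) ∧ M ∣ U.index := by
  have hz : ∀ j, NeZero (e j) := fun j => ⟨by have := he j; omega⟩
  let L : ℕ := M * ∏ j, e j
  have hP : 0 < ∏ j, e j := Finset.prod_pos fun j _ => by have := he j; omega
  have hL : NeZero L := ⟨by positivity⟩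
  let G : Type := Multiplicative ((∀ j : Fin N, ZMod (e j)) × ZMod L)
  let s : Fin N → G := fun j => Multiplicative.ofAdd (Pi.single j 1, 0)
  let v : G := Multiplicative.ofAdd (0, 1)
  let w : G := (List.ofFn s).prod
  have hs : ∀ j, orderOf (s j) = e j := by
    intro j
    apply Nat.dvd_antisymm
    · apply orderOf_dvd_of_pow_eq_one
      change Multiplicative.ofAdd (e j • ((Pi.single j 1, 0) : (∀ j : Fin N, ZMod (e j)) × ZMod L)) = 1
      rw [Prod.smul_mk, smul_zero, ← Pi.single_smul, nsmul_one, ZMod.natCast_self, Pi.single_zero]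
      rfl
    · have h1 : s j ^ orderOf (s j) = 1 := pow_orderOf_eq_one _
      have h2 : orderOf (s j) • ((Pi.single j 1, 0) : (∀ j : Fin N, ZMod (e j)) × ZMod L) = 0 := h1
      have h3 := congrFun (congrArg Prod.fst h2) j
      simp only [Prod.smul_mk, Pi.smul_apply, Pi.single_eq_same, nsmul_one, Prod.fst_zero,
        Pi.zero_apply] at h3
      exact (ZMod.natCast_eq_zero_iff _ _).1 h3
  have hw : w ^ L = 1 := by
    change ((List.ofFn s).prod) ^ L = 1
    have hd : ∀ j, e j ∣ L := fun j => (Finset.dvd_prod_of_mem e (Finset.mem_univ j)).trans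
      (Dvd.intro_left _ rfl)
    rw [List.prod_ofFn, ← Finset.prod_pow]
    refine Finset.prod_eq_one fun j _ => ?_
    rw [← orderOf_dvd_iff_pow_eq_one, hs]
    exact hd j
  have hv2 : ∀ n : ℕ, v ^ n = 1 ↔ L ∣ n := by
    intro n
    rw [← ZMod.natCast_eq_zero_iff]
    constructor
    · intro h1
      have h2 : n • ((0, 1) : (∀ j : Fin N, ZMod (e j)) × ZMod L) = 0 := h1
      have h3 := congrArg Prod.snd h2
      simpa using h3
    · intro h1
      change n • ((0, 1) : (∀ j : Fin N, ZMod (e j)) × ZMod L) = 0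
      rw [Prod.smul_mk, smul_zero, nsmul_one, h1]
      rfl
  have hw2 : ∀ n : ℕ, (w ^ n).toAdd.2 = 0 := by
    intro n
    change (n • w.toAdd).2 = 0
    have h1 : w.toAdd.2 = 0 := by
      change (List.ofFn s).prod.toAdd.2 = 0
      rw [List.prod_ofFn]
      change (∑ j, ((Pi.single j 1, 0) : (∀ j : Fin N, ZMod (e j)) × ZMod L)).2 = 0
      rw [Prod.snd_sum]
      simp
    rw [Prod.smul_snd, h1, smul_zero]
  have hvL : orderOf v = L := by
    apply Nat.dvd_antisymm
    · exact orderOf_dvd_of_pow_eq_one ((hv2 L).2 dvd_rfl)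
    · exact (hv2 _).1 (pow_orderOf_eq_one v)
  have hord : orderOf (v * w⁻¹) = orderOf v := by
    rw [orderOf_eq_orderOf_iff]
    intro n
    rw [mul_pow, inv_pow]
    constructor
    · intro h1
      rw [hv2, ← ZMod.natCast_eq_zero_iff]
      have h2 := congrArg (fun g : G => g.toAdd.2) h1
      have h3 : (v ^ n * (w ^ n)⁻¹).toAdd.2 = (n : ZMod L) - (w ^ n).toAdd.2 := by
        change (n • ((0, 1) : (∀ j : Fin N, ZMod (e j)) × ZMod L) + -(w ^ n).toAdd).2 = _
        simp [sub_eq_add_neg]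
      rw [h3, hw2, sub_zero] at h2
      exact h2
    · intro h1
      obtain ⟨c, rfl⟩ := (hv2 n).1 h1
      rw [h1, pow_mul, hw, one_pow, inv_one, mul_one]
  obtain ⟨τ, hτ⟩ := Sym.exists_conj (v * w⁻¹) v hord
  let lam : G →* Equiv.Perm G := MulAction.toPermHom G G
  have hlam : Function.Injective lam := MulAction.toPerm_injective
  have hτ' : τ * lam v * τ⁻¹ = lam (v * w⁻¹) := by
    ext1 x
    change τ (v * (τ.symm x)) = v * w⁻¹ * x
    rw [hτ, Equiv.apply_symm_apply]
  let σ : FG (h + 1) N →* Equiv.Perm G := FreeGroup.lift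
    (Sum.elim (Sum.elim (Fin.cons (lam v)⁻¹ fun _ => 1) (Fin.cons τ fun _ => 1)) fun j => lam (s j))
  have hσj : ∀ j : Fin N, σ (xg j) = lam (s j) := fun j => by simp [σ]
  have hσa : σ (FreeGroup.of (Sum.inl (Sum.inl 0))) = (lam v)⁻¹ := by simp [σ]
  have hσb : σ (FreeGroup.of (Sum.inl (Sum.inr 0))) = τ := by simp [σ]
  have hσi : ∀ i : Fin h, σ (FreeGroup.of (Sum.inl (Sum.inl i.succ))) = 1 := fun i => by simp [σ]
  have hord' : ∀ j : Fin N, orderOf (σ (xg j)) = e j := by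
    intro j
    rw [hσj, orderOf_injective lam hlam, hs]
  have hx : σ (xn (h + 1) N) = 1 := by
    rw [xn, map_inv, inv_eq_one, cW, map_mul, map_list_prod, map_list_prod, List.map_ofFn,
      List.map_ofFn, List.ofFn_succ, List.prod_cons]
    have h1 : (List.ofFn (σ ∘ fun i : Fin N => (FreeGroup.of (Sum.inr i) : FG (h + 1) N))).prod =
        lam w := by
      change _ = lam (List.ofFn s).prod
      rw [map_list_prod, List.map_ofFn]
      congr 2
    rw [h1]
    have h2 : ∀ (n : ℕ) (f : Fin n → Equiv.Perm G), (∀ i, f i = 1) → (List.ofFn f).prod = 1 := by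
      intro n f hf
      apply List.prod_eq_one
      intro x hx
      obtain ⟨i, rfl⟩ := (List.mem_ofFn' f x).1 hx
      exact hf i
    rw [h2 h _ fun i => by
      simp only [Function.comp_apply, map_mul, map_inv, hσi]
      simp, mul_one]
    simp only [Function.comp_apply, map_mul, map_inv, hσa, hσb]
    have h3 : (lam v)⁻¹ * τ * (lam v)⁻¹⁻¹ * τ⁻¹ = (lam v)⁻¹ * (τ * lam v * τ⁻¹) := by group
    rw [h3, hτ', ← map_inv, ← map_mul, ← map_mul]
    have h4 : v⁻¹ * (v * w⁻¹) * w = 1 := by rw [inv_mul_cancel_left, inv_mul_cancel]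
    rw [h4, map_one]
  have hLr : L ∣ σ.ker.index := by
    rw [Subgroup.index_ker]
    have h5 : orderOf (⟨σ (FreeGroup.of (Sum.inl (Sum.inl 0))), ⟨_, rfl⟩⟩ : σ.range) = L := by
      rw [← orderOf_injective σ.range.subtype σ.range.subtype_injective]
      change orderOf (σ (FreeGroup.of (Sum.inl (Sum.inl 0)))) = L
      rw [hσa, orderOf_inv, orderOf_injective lam hlam, hvL]
    rw [← h5]
    exact orderOf_dvd_natCard _
  refine ⟨σ.ker, inferInstance, inferInstance, fun j => ?_, hx, fun j k hk => ?_, ?_⟩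
  · rw [MonoidHom.mem_ker, map_pow, ← hord' j, pow_orderOf_eq_one]
  · rw [MonoidHom.mem_ker, map_pow] at hk
    rw [← hord' j]
    exact orderOf_dvd_of_pow_eq_one hk
  · exact (Dvd.intro _ rfl).trans hLr

/-- (BIG) -- helper2. -/
theorem big (hN : 1 ≤ h ∨ 4 ≤ N) (e : Fin N → ℕ) (he : ∀ j, 2 ≤ e j) (M : ℕ) (hM : 0 < M) :
    ∃ U : Subgroup (FG h N), U.Normal ∧ U.FiniteIndex ∧ (∀ j, xg j ^ e j ∈ U) ∧ xn h N ∈ U ∧
      (∀ (j : Fin N) (k : ℕ), (xg j : FG h N) ^ k ∈ U → e j ∣ k) ∧ M ∣ U.index := by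
  rcases h with _ | h
  · exact big_zero (hN.resolve_left (by omega)) e he M hM
  · exact big_pos e he M hM

end Pool.MP_59b15d_al.SymH
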