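import Mathlib
import Pool.Agent.H.MP_59b15d_al.sym.Ctr
import Pool.Agent.H.MP_59b15d_al.symh.Coch
import Pool.Agent.H.MP_59b15d_al.symh.Big

set_option autoImplicit false

namespace Pool.MP_59b15d_al.SymH

open Pool.MP_59b15d_al.Sym (co_one co_inv coHom coHom_apply smul_quot mem_of_smul_quot)

variable {h N : ℕ}

/-- (CTR) -- helper2.  `A' = F / K`, where `x_j` has order `e_j`, and `x_n` is central of order `m`. -/
theorem ctr (hN : 1 ≤ h ∨ 4 ≤ N) (e : Fin N → ℕ) (he : ∀ j, 2 ≤ e j) (m : ℕ) (hm : 2 ≤ m) (B : ℕ) :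
    ∃ K : Subgroup (FG h N), K.Normal ∧ K.FiniteIndex ∧ (∀ j, xg j ^ e j ∈ K) ∧
      xn h N ^ m ∈ K ∧ (∀ (j : Fin N) (k : ℕ), (xg j : FG h N) ^ k ∈ K → e j ∣ k) ∧
      (∀ k : ℕ, xn h N ^ k ∈ K → m ∣ k) ∧ (∀ z, z * xn h N * z⁻¹ * (xn h N)⁻¹ ∈ K) ∧ B ≤ K.index := by
  obtain ⟨U, hU, hUf, hUe, hUx, hUo, hUi⟩ := big hN e he (m * (B + 1)) (by positivity)
  have hfin : Finite (FG h N ⧸ U) := Subgroup.finite_quotient_of_finiteIndex
  have hmz : NeZero m := ⟨by omega⟩
  obtain ⟨K, hK, hKe, hKx⟩ := coch (X := FG h N ⧸ U) (M := ZMod m) e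
    (fun j x => smul_quot U hU (hUe j) x) (fun _ => 1) (by
      intro x
      rw [MulAction.orbit_eq_univ, finsum_mem_univ]
      have := Fintype.ofFinite (FG h N ⧸ U)
      rw [finsum_eq_sum_of_fintype, Finset.sum_const, Finset.card_univ, ← Nat.card_eq_fintype_card]
      change U.index • (1 : ZMod m) = 0
      obtain ⟨c, hc⟩ := hUi
      rw [hc]
      simp)
  have hp : ∀ (u : FG h N) (k : ℕ), coHom K hK (u ^ k) = (coHom K hK u) ^ k := fun u k => map_pow _ _ _
  have hxn : ∀ (k : ℕ) (x : FG h N ⧸ U) (t : ZMod m),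
      coHom K hK (xn h N ^ k) (x, t) = (x, t + k) := by
    intro k x t
    induction k with
    | zero => simp
    | succ k ih =>
      rw [pow_succ', map_mul, Equiv.Perm.mul_apply, ih, coHom_apply, smul_quot U hU hUx, hKx]
      push_cast
      rw [add_assoc]
  have hle : (coHom K hK).ker ≤ U := by
    intro u hu
    apply mem_of_smul_quot
    have h1 : coHom K hK u (((1 : FG h N) : FG h N ⧸ U), 0) = (((1 : FG h N) : FG h N ⧸ U), 0) := by
      rw [MonoidHom.mem_ker] at hu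
      rw [hu]
      rfl
    rw [coHom_apply] at h1
    exact congrArg Prod.fst h1
  refine ⟨(coHom K hK).ker, inferInstance, inferInstance, ?_, ?_, ?_, ?_, ?_, ?_⟩
  · intro j
    rw [MonoidHom.mem_ker]
    ext1 ⟨x, t⟩
    rw [coHom_apply, hKe, smul_quot U hU (hUe j), add_zero]
    rfl
  · rw [MonoidHom.mem_ker]
    ext1 ⟨x, t⟩
    rw [hxn]
    simp
  · intro j k hk
    exact hUo j k (hle hk)
  · intro k hk
    rw [MonoidHom.mem_ker] at hk
    have h1 := hxn k ((1 : FG h N) : FG h N ⧸ U) 0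
    rw [hk] at h1
    have h2 : (0 : ZMod m) = 0 + k := congrArg Prod.snd h1
    rw [zero_add] at h2
    exact (ZMod.natCast_eq_zero_iff _ _).mp h2.symm
  · intro z
    have h1 : coHom K hK z * coHom K hK (xn h N) = coHom K hK (xn h N) * coHom K hK z := by
      ext1 ⟨x, t⟩
      rw [Equiv.Perm.mul_apply, Equiv.Perm.mul_apply, coHom_apply, coHom_apply, coHom_apply,
        coHom_apply, smul_quot U hU hUx, smul_quot U hU hUx, hKx, hKx, add_right_comm]
    rw [MonoidHom.mem_ker, map_mul, map_mul, map_mul, map_inv, map_inv, h1]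
    group
  · have h1 : U.index ≤ (coHom K hK).ker.index := Subgroup.index_antitone hle
    have h2 : m * (B + 1) ≤ U.index := Nat.le_of_dvd (Nat.pos_of_ne_zero hUf.index_ne_zero) hUi
    have h3 : B + 1 ≤ m * (B + 1) := Nat.le_mul_of_pos_left _ (by omega)
    omega

end Pool.MP_59b15d_al.SymH
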