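import Mathlib
import Pool.Agent.H.MP_59b15d_al.symh.Ctr

set_option autoImplicit false

namespace Pool.MP_59b15d_al.SymH

open Pool.MP_59b15d_al.Sym (co_one co_inv coHom coHom_apply)

variable {γ N : ℕ}

section levels

variable {e : Fin N → ℕ} {m : ℕ} {D : Subgroup (FG γ N)} {T : Set (FG γ N)} {U : Subgroup (FG γ N)}

/-- The subgroup `⟨C⟩ U`. -/
def WW (D U : Subgroup (FG γ N)) (C : FG γ N) (hC : C ∈ D) (hn : ∀ d ∈ D, ∀ u ∈ U, d * u * d⁻¹ ∈ U) :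
    Subgroup (FG γ N) where
  carrier := {w | ∃ a : ℤ, (C ^ a)⁻¹ * w ∈ U}
  mul_mem' := by
    rintro w w' ⟨a, ha⟩ ⟨b, hb⟩
    refine ⟨a + b, ?_⟩
    have h1 := hn (C ^ (-b)) (D.zpow_mem hC _) _ ha
    have h2 := U.mul_mem h1 hb
    have h3 : (C ^ (a + b))⁻¹ * (w * w') =
        C ^ (-b) * ((C ^ a)⁻¹ * w) * (C ^ (-b))⁻¹ * ((C ^ b)⁻¹ * w') := by
      rw [zpow_add, zpow_neg]
      group
    rw [h3]
    exact h2
  one_mem' := ⟨0, by simp⟩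
  inv_mem' := by
    rintro w ⟨a, ha⟩
    refine ⟨-a, ?_⟩
    have h1 := hn (C ^ a) (D.zpow_mem hC _) _ (U.inv_mem ha)
    have h3 : (C ^ (-a))⁻¹ * w⁻¹ = C ^ a * ((C ^ a)⁻¹ * w)⁻¹ * (C ^ a)⁻¹ := by
      rw [zpow_neg]
      group
    rw [h3]
    exact h1

/-- The centraliser of `C` modulo `U`. -/
def ZZ (D U : Subgroup (FG γ N)) (C : FG γ N) (_hC : C ∈ D) (_hUD : U ≤ D)
    (hn : ∀ d ∈ D, ∀ u ∈ U, d * u * d⁻¹ ∈ U) : Subgroup (FG γ N) where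
  carrier := {v | v ∈ D ∧ v * C * v⁻¹ * C⁻¹ ∈ U}
  mul_mem' := by
    rintro v w ⟨hv, hv'⟩ ⟨hw, hw'⟩
    refine ⟨D.mul_mem hv hw, ?_⟩
    have h1 := U.mul_mem (hn v hv _ hw') hv'
    have h3 : v * w * C * (v * w)⁻¹ * C⁻¹ = v * (w * C * w⁻¹ * C⁻¹) * v⁻¹ * (v * C * v⁻¹ * C⁻¹) := by
      group
    rw [h3]
    exact h1
  one_mem' := ⟨D.one_mem, by simp⟩
  inv_mem' := by
    rintro v ⟨hv, hv'⟩
    refine ⟨D.inv_mem hv, ?_⟩
    have h1 := hn v⁻¹ (D.inv_mem hv) _ (U.inv_mem hv')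
    have h3 : v⁻¹ * C * v⁻¹⁻¹ * C⁻¹ = v⁻¹ * (v * C * v⁻¹ * C⁻¹)⁻¹ * v⁻¹⁻¹ := by
      group
    rw [h3]
    exact h1

theorem smul_W {W : Subgroup (FG γ N)} {u y : FG γ N} (h : y⁻¹ * u * y ∈ W) :
    u • ((y : FG γ N) : FG γ N ⧸ W) = (y : FG γ N ⧸ W) := by
  rw [MulAction.Quotient.smul_coe, QuotientGroup.eq, smul_eq_mul]
  have h1 := W.inv_mem h
  have h2 : (u * y)⁻¹ * y = (y⁻¹ * u * y)⁻¹ := by group
  rw [h2]
  exact h1

open Classical in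
/-- The basic construction: the values of `κ` on the centraliser. -/
theorem cent_core (hU : Lev e m D T U) (g : FG γ N) {C : FG γ N}
    (hCg : C = g * xn γ N * g⁻¹) (hC : C ∈ D) (l : ℕ) [NeZero l] (a₁ a₂ : FG γ N)
    (h₁ : a₁ ∈ ZZ D U C hC hU.le hU.nor) (h₂ : a₂ ∈ ZZ D U C hC hU.le hU.nor)
    (hT : l = m ∨ ∀ h ∈ T, g * h⁻¹ ∉ D) :
    ∃ U' : Subgroup (FG γ N), Lev e m D T U' ∧ U' ≤ U ∧ ∀ v ∈ D, v * C * v⁻¹ * C⁻¹ ∈ U' →
      ∃ κ : FG γ N ⧸ WW D U C hC hU.nor → ZMod l,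
        (∀ x, κ x = (if x = ((g⁻¹ * a₁ : FG γ N) : FG γ N ⧸ WW D U C hC hU.nor) then 1 else 0) -
          (if x = ((g⁻¹ * a₂ : FG γ N) : FG γ N ⧸ WW D U C hC hU.nor) then 1 else 0)) ∧
        κ ((g⁻¹ : FG γ N) : FG γ N ⧸ WW D U C hC hU.nor) =
          κ ((g⁻¹ * v : FG γ N) : FG γ N ⧸ WW D U C hC hU.nor) := by
  set W := WW D U C hC hU.nor with hW
  have hUW : U ≤ W := fun u hu => ⟨0, by simpa using hu⟩
  have hfU := hU.fin
  have hfW : W.FiniteIndex := Subgroup.finiteIndex_of_le hUW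
  have hfin : Finite (FG γ N ⧸ W) := Subgroup.finite_quotient_of_finiteIndex
  have := Fintype.ofFinite (FG γ N ⧸ W)
  have hCW : C ∈ W := ⟨1, by simp⟩
  have hWD : W ≤ D := by
    rintro w ⟨a, ha⟩
    have h1 := D.mul_mem (D.zpow_mem hC a) (hU.le ha)
    rwa [mul_inv_cancel_left] at h1
  -- the points are fixed by `x_n`
  have hfix : ∀ a, a ∈ ZZ D U C hC hU.le hU.nor →
      xn γ N • ((g⁻¹ * a : FG γ N) : FG γ N ⧸ W) = ((g⁻¹ * a : FG γ N) : FG γ N ⧸ W) := by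
    rintro a ⟨ha, ha'⟩
    apply smul_W
    have h1 : (g⁻¹ * a)⁻¹ * xn γ N * (g⁻¹ * a) = a⁻¹ * C * a := by
      rw [hCg]
      group
    rw [h1]
    have h2 := hU.nor a⁻¹ (D.inv_mem ha) _ (U.inv_mem ha')
    have h3 : a⁻¹ * C * a = a⁻¹ * (a * C * a⁻¹ * C⁻¹)⁻¹ * a⁻¹⁻¹ * C := by group
    rw [h3]
    exact W.mul_mem (hUW h2) hCW
  let p₁ : FG γ N ⧸ W := ((g⁻¹ * a₁ : FG γ N) : FG γ N ⧸ W)
  let p₂ : FG γ N ⧸ W := ((g⁻¹ * a₂ : FG γ N) : FG γ N ⧸ W)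
  let κ : FG γ N ⧸ W → ZMod l := fun x => (if x = p₁ then 1 else 0) - (if x = p₂ then 1 else 0)
  have htriv : ∀ (u : FG γ N), (∀ h : FG γ N, h * u * h⁻¹ ∈ W) → ∀ x : FG γ N ⧸ W, u • x = x := by
    intro u hu x
    induction x using QuotientGroup.induction_on with
    | H y =>
      apply smul_W
      have := hu y⁻¹
      rwa [inv_inv] at this
  obtain ⟨K, hK, hKe, hKx⟩ := coch (X := FG γ N ⧸ W) (M := ZMod l) e
    (fun j x => htriv _ (fun h => hUW (hU.rel j h)) x) κ (by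
      intro x
      rw [MulAction.orbit_eq_univ, finsum_mem_univ, finsum_eq_sum_of_fintype]
      simp only [κ, Finset.sum_sub_distrib, Finset.sum_ite_eq', Finset.mem_univ, if_true, sub_self])
  have hκx : ∀ x, κ (xn γ N • x) = κ x := by
    intro x
    have key : ∀ p : FG γ N ⧸ W, xn γ N • p = p → (xn γ N • x = p ↔ x = p) := by
      intro p hp
      constructor
      · intro h
        rw [← hp] at h
        exact MulAction.injective (xn γ N) h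
      · rintro rfl
        exact hp
    simp only [κ, key p₁ (hfix a₁ h₁), key p₂ (hfix a₂ h₂)]
  have hKp : ∀ (k : ℕ) (x : FG γ N ⧸ W), K (xn γ N ^ k) x = k • κ x := by
    intro k
    induction k with
    | zero => intro x; rw [pow_zero, co_one hK, zero_smul]
    | succ k ih =>
      intro x
      rw [pow_succ, hK, ih, hKx, hκx, succ_nsmul, add_comm]
  have hsm : ∀ u ∈ U, ∀ y ∈ D, u • ((y : FG γ N) : FG γ N ⧸ W) = (y : FG γ N ⧸ W) := by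
    intro u hu y hy
    apply smul_W
    have := hU.nor y⁻¹ (D.inv_mem hy) u hu
    rw [inv_inv] at this
    exact hUW this
  have hconj : ∀ (d u : FG γ N) (x : FG γ N ⧸ W), u • (d⁻¹ • x) = d⁻¹ • x →
      K (d * u * d⁻¹) x = K u (d⁻¹ • x) := by
    intro d u x h
    rw [hK, hK, h]
    have h1 := hK d d⁻¹ x
    rw [mul_inv_cancel, co_one hK] at h1
    rw [add_left_comm, ← h1, add_zero]
  let U' : Subgroup (FG γ N) :=
    { carrier := {u | u ∈ U ∧ ∀ y ∈ D, K u ((y : FG γ N) : FG γ N ⧸ W) = 0}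
      mul_mem' := by
        rintro u v ⟨hu, hu'⟩ ⟨hv, hv'⟩
        refine ⟨U.mul_mem hu hv, fun y hy => ?_⟩
        rw [hK, hsm v hv y hy, hu' y hy, hv' y hy, add_zero]
      one_mem' := ⟨U.one_mem, fun y _ => co_one hK _⟩
      inv_mem' := by
        rintro u ⟨hu, hu'⟩
        refine ⟨U.inv_mem hu, fun y hy => ?_⟩
        rw [co_inv hK, hsm _ (U.inv_mem hu) y hy, hu' y hy, neg_zero] }
  have hmem : ∀ u, u ∈ U' ↔ u ∈ U ∧ ∀ y ∈ D, K u ((y : FG γ N) : FG γ N ⧸ W) = 0 := fun _ => Iff.rfl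
  refine ⟨U', ⟨?_, ?_, ?_, ?_, ?_⟩, fun u hu => hu.1, ?_⟩
  · exact fun u hu => hU.le hu.1
  · rintro d hd u ⟨hu, hu'⟩
    refine ⟨hU.nor d hd u hu, fun y hy => ?_⟩
    have h1 : d⁻¹ • ((y : FG γ N) : FG γ N ⧸ W) = ((d⁻¹ * y : FG γ N) : FG γ N ⧸ W) := rfl
    have h2 : d⁻¹ * y ∈ D := D.mul_mem (D.inv_mem hd) hy
    rw [hconj d u _ (by rw [h1]; exact hsm u hu _ h2), h1]
    exact hu' _ h2
  · have h1 : U ⊓ (coHom K hK).ker ≤ U' := by
      rintro u ⟨hu, hu'⟩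
      refine ⟨hu, fun y _ => ?_⟩
      have h2 := coHom_apply hK u ((y : FG γ N) : FG γ N ⧸ W) 0
      rw [MonoidHom.mem_ker.mp hu', zero_add] at h2
      exact (congrArg Prod.snd h2).symm
    exact Subgroup.finiteIndex_of_le h1
  · intro j h
    refine ⟨hU.rel j h, fun y _ => ?_⟩
    rw [hconj _ _ _ (htriv _ (fun h => hUW (hU.rel j h)) _), hKe]
  · intro h hh
    refine ⟨hU.kil h hh, fun y hy => ?_⟩
    have h1 : h⁻¹ • ((y : FG γ N) : FG γ N ⧸ W) = ((h⁻¹ * y : FG γ N) : FG γ N ⧸ W) := rfl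
    have h3 : xn γ N ^ m • (h⁻¹ • ((y : FG γ N) : FG γ N ⧸ W)) = h⁻¹ • ((y : FG γ N) : FG γ N ⧸ W) := by
      rw [h1]
      apply smul_W
      have h4 := hU.nor y⁻¹ (D.inv_mem hy) _ (hU.kil h hh)
      have h5 : (h⁻¹ * y)⁻¹ * xn γ N ^ m * (h⁻¹ * y) = y⁻¹ * (h * xn γ N ^ m * h⁻¹) * y⁻¹⁻¹ := by group
      rw [h5]
      exact hUW h4
    rw [hconj _ _ _ h3, hKp]
    rcases hT with rfl | hT
    · simp
    · have h6 : κ (h⁻¹ • ((y : FG γ N) : FG γ N ⧸ W)) = 0 := by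
        have key : ∀ a, a ∈ ZZ D U C hC hU.le hU.nor →
            h⁻¹ • ((y : FG γ N) : FG γ N ⧸ W) ≠ ((g⁻¹ * a : FG γ N) : FG γ N ⧸ W) := by
          rintro a ⟨ha, -⟩ h7
          rw [h1, QuotientGroup.eq] at h7
          apply hT h hh
          have h8 := hWD h7
          -- `y⁻¹ h g⁻¹ a ∈ D`
          have h9 : h * g⁻¹ ∈ D := by
            have h10 := D.mul_mem (D.mul_mem hy h8) (D.inv_mem ha)
            have h11 : y * ((h⁻¹ * y)⁻¹ * (g⁻¹ * a)) * a⁻¹ = h * g⁻¹ := by group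
            rwa [h11] at h10
          have h12 := D.inv_mem h9
          rwa [mul_inv_rev, inv_inv] at h12
        simp only [κ]
        rw [if_neg (key a₁ h₁), if_neg (key a₂ h₂), sub_zero]
      rw [h6, smul_zero]
  · rintro v hv ⟨hv1, hv2⟩
    refine ⟨κ, fun x => rfl, ?_⟩
    have hvZ : v ∈ ZZ D U C hC hU.le hU.nor := ⟨hv, hv1⟩
    have h1Z : (1 : FG γ N) ∈ ZZ D U C hC hU.le hU.nor := Subgroup.one_mem _
    have hKC : ∀ a, a ∈ ZZ D U C hC hU.le hU.nor →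
        K C ((a : FG γ N) : FG γ N ⧸ W) = κ ((g⁻¹ * a : FG γ N) : FG γ N ⧸ W) := by
      intro a ha
      have h1 : g⁻¹ • ((a : FG γ N) : FG γ N ⧸ W) = ((g⁻¹ * a : FG γ N) : FG γ N ⧸ W) := rfl
      rw [hCg, hconj _ _ _ (by rw [h1]; exact hfix a ha), h1, hKx]
    have h2 : K (v * C) ((1 : FG γ N) : FG γ N ⧸ W) = K (C * v) ((1 : FG γ N) : FG γ N ⧸ W) := by
      have h3 : v * C = v * C * v⁻¹ * C⁻¹ * (C * v) := by group
      rw [h3, hK]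
      have h4 : (C * v) • ((1 : FG γ N) : FG γ N ⧸ W) = ((C * v * 1 : FG γ N) : FG γ N ⧸ W) := rfl
      rw [h4, hv2 _ (by rw [mul_one]; exact D.mul_mem hC hv), add_zero]
    rw [hK, hK] at h2
    have h5 : C • ((1 : FG γ N) : FG γ N ⧸ W) = ((1 : FG γ N) : FG γ N ⧸ W) := by
      apply smul_W
      simpa using hCW
    have h6 : v • ((1 : FG γ N) : FG γ N ⧸ W) = ((v : FG γ N) : FG γ N ⧸ W) := by
      rw [MulAction.Quotient.smul_coe, smul_eq_mul, mul_one]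
    rw [h5, h6, hKC v hvZ, hKC 1 h1Z, mul_one, add_comm] at h2
    exact add_left_cancel h2

end levels

end Pool.MP_59b15d_al.SymH
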