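import Mathlib
import Pool.Agent.H.MP_59b15d_al.h94h.Fa4
import Pool.Agent.H.MP_59b15d_al.symh.Ctr

set_option autoImplicit false

namespace Pool.MP_59b15d_al.SymH

variable {h N : ℕ}

/-- (FAITH, all points killed). -/
theorem faithA (hN : 1 ≤ h ∨ 4 ≤ N) (e : Fin N → ℕ) (he : ∀ j, 2 ≤ e j) (m : ℕ) (hm : 2 ≤ m)
    (V : Subgroup (FG h N)) (hV : V.Normal) (hVf : V.FiniteIndex)
    (h1 : ∀ j, xg j ^ e j ∈ V) (h2 : xn h N ^ m ∈ V)
    (o1 : ∀ (j : Fin N) (k : ℕ), (xg j : FG h N) ^ k ∈ V → e j ∣ k)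
    (o2 : ∀ k : ℕ, xn h N ^ k ∈ V → m ∣ k) :
    ∃ U : Subgroup (FG h N), U.Normal ∧ U.FiniteIndex ∧ U ≤ V ∧ (∀ j, xg j ^ e j ∈ U) ∧
      xn h N ^ m ∈ U ∧ ∀ d : FG h N, (∀ v ∈ V, d * v * d⁻¹ * v⁻¹ ∈ U) → d ∈ V := by
  let E : Fin (N + 1) → ℕ := Fin.snoc e m
  have hEc : ∀ j : Fin N, E j.castSucc = e j := fun j => by simp [E]
  have hEl : E (Fin.last N) = m := by simp [E]
  obtain ⟨U, hUn, hUf, hUV, hUE, hU⟩ := faith0 hN E (fun j => by
      refine Fin.lastCases ?_ (fun i => ?_) j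
      · rw [hEl]; exact hm
      · rw [hEc]; exact he i) V hV hVf (fun j => by
      refine Fin.lastCases ?_ (fun i => ?_) j
      · rw [hEl, per_last]; exact h2
      · rw [hEc, per_castSucc]; exact h1 i) (fun j => by
      refine Fin.lastCases ?_ (fun i => ?_) j
      · rw [hEl, per_last]; exact o2
      · rw [hEc, per_castSucc]; exact o1 i)
  refine ⟨U, hUn, hUf, hUV, fun j => ?_, ?_, hU⟩
  · have h3 := hUE j.castSucc
    rwa [hEc, per_castSucc] at h3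
  · have h3 := hUE (Fin.last N)
    rwa [hEl, per_last] at h3

/-- (FAITH, all points killed), for negative Euler characteristic. -/
theorem faithA_weak (e : Fin N → ℕ) (he : ∀ j, 1 ≤ e j) (m : ℕ) (hm : 1 ≤ m)
    (hχ : ∑ j, (1 / (e j : ℚ)) + 1 / (m : ℚ) < 2 * h + N - 1)
    (V : Subgroup (FG h N)) (hV : V.Normal) (hVf : V.FiniteIndex)
    (h1 : ∀ j, xg j ^ e j ∈ V) (h2 : xn h N ^ m ∈ V)
    (o1 : ∀ (j : Fin N) (k : ℕ), (xg j : FG h N) ^ k ∈ V → e j ∣ k)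
    (o2 : ∀ k : ℕ, xn h N ^ k ∈ V → m ∣ k) :
    ∃ U : Subgroup (FG h N), U.Normal ∧ U.FiniteIndex ∧ U ≤ V ∧ (∀ j, xg j ^ e j ∈ U) ∧
      xn h N ^ m ∈ U ∧ ∀ d : FG h N, (∀ v ∈ V, d * v * d⁻¹ * v⁻¹ ∈ U) → d ∈ V := by
  let E : Fin (N + 1) → ℕ := Fin.snoc e m
  have hEc : ∀ j : Fin N, E j.castSucc = e j := fun j => by simp [E]
  have hEl : E (Fin.last N) = m := by simp [E]
  obtain ⟨U, hUn, hUf, hUV, hUE, hU⟩ := faithW E (fun j => by
      refine Fin.lastCases ?_ (fun i => ?_) j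
      · rw [hEl]; exact hm
      · rw [hEc]; exact he i) (by
      rw [Fin.sum_univ_castSucc, hEl]
      simp only [hEc]
      exact hχ) V hV hVf (fun j => by
      refine Fin.lastCases ?_ (fun i => ?_) j
      · rw [hEl, per_last]; exact h2
      · rw [hEc, per_castSucc]; exact h1 i) (fun j => by
      refine Fin.lastCases ?_ (fun i => ?_) j
      · rw [hEl, per_last]; exact o2
      · rw [hEc, per_castSucc]; exact o1 i)
  refine ⟨U, hUn, hUf, hUV, fun j => ?_, ?_, hU⟩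
  · have h3 := hUE j.castSucc
    rwa [hEc, per_castSucc] at h3
  · have h3 := hUE (Fin.last N)
    rwa [hEl, per_last] at h3

/-- (FAITH, all points but the last killed). -/
theorem faithB (hN : 1 ≤ h ∨ 4 ≤ N) (e : Fin N → ℕ) (he : ∀ j, 2 ≤ e j)
    (V : Subgroup (FG h N)) (hV : V.Normal) (hVf : V.FiniteIndex) (h1 : ∀ j, xg j ^ e j ∈ V)
    (o1 : ∀ (j : Fin N) (k : ℕ), (xg j : FG h N) ^ k ∈ V → e j ∣ k) :
    ∃ U : Subgroup (FG h N), U.Normal ∧ U.FiniteIndex ∧ U ≤ V ∧ (∀ j, xg j ^ e j ∈ U) ∧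
      ∀ d : FG h N, (∀ v ∈ V, d * v * d⁻¹ * v⁻¹ ∈ U) → d ∈ V := by
  obtain ⟨K, hK, hKf, hKe, -, -, hKo, -, -⟩ := ctr hN e he 2 le_rfl 0
  let V' : Subgroup (FG h N) := V ⊓ K
  have hV'n : V'.Normal := inferInstance
  have hV'f : V'.FiniteIndex := inferInstance
  have hfin : Finite (FG h N ⧸ V') := Subgroup.finite_quotient_of_finiteIndex
  let m := orderOf ((xn h N : FG h N) : FG h N ⧸ V')
  have hmem : ∀ k : ℕ, xn h N ^ k ∈ V' ↔ m ∣ k := by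
    intro k
    rw [← QuotientGroup.eq_one_iff, orderOf_dvd_iff_pow_eq_one]
    rfl
  have hm0 : m ≠ 0 := (orderOf_pos _).ne'
  have hm1 : m ≠ 1 := by
    intro hm
    have h3 := (hmem 1).mpr (by rw [hm])
    have h4 := hKo 1 h3.2
    omega
  obtain ⟨U, hUn, hUf, hUV, hUE, -, hU⟩ := faithA hN e he m (by omega) V' hV'n hV'f
    (fun j => ⟨h1 j, hKe j⟩)
    ((hmem m).mpr dvd_rfl) (fun j k hk => o1 j k hk.1) (fun k hk => (hmem k).mp hk)
  refine ⟨U, hUn, hUf, fun x hx => (hUV hx).1, hUE, fun d hd => ?_⟩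
  exact (hU d fun v hv => hd v hv.1).1

end Pool.MP_59b15d_al.SymH
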