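import Mathlib
import Pool.Agent.H.MP_59b15d_al.symh.Cone
import Pool.Agent.H.MP_59b15d_al.h77h.Rot
import Pool.Agent.H.MP_59b15d_al.h76r.Sd

set_option autoImplicit false

namespace Pool.MP_59b15d_al.SymH

variable {ν N : ℕ}

/-- The last point is unfilled; all other points are finite. -/
theorem step_last_aux (hN : 1 ≤ ν ∨ 4 ≤ N) (e : Fin N → ℕ) (he : ∀ j, 2 ≤ e j) (m : ℕ) (hm : 2 ≤ m)
    (V : Subgroup (FG ν N)) (hV : V.Normal) (hVf : V.FiniteIndex)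
    (h1 : ∀ j, xg j ^ e j ∈ V) (G₀ : Subgroup (FG ν N)) (hG : G₀.Normal)
    (hGf : G₀.FiniteIndex) (g1 : ∀ j, xg j ^ e j ∈ G₀) (g2 : xn ν N ^ m ∈ G₀) :
    ∃ Γ : Subgroup (FG ν N), Γ.Normal ∧ Γ.FiniteIndex ∧ (∀ j, xg j ^ e j ∈ Γ) ∧
      xn ν N ^ m ∈ Γ ∧
      ∀ f ∈ CP ν N, (∀ z, f z * z⁻¹ ∈ Γ) → ∃ v ∈ G₀, InnOn V ⊤ f v := by
  obtain ⟨K, k1, k2, k3, k4, k5, k6, -, -⟩ := ctr hN e he m hm 0
  obtain ⟨G₁, hG₁n, hG₁f, hG₁G, p1, p2, hG₁⟩ := faithA hN e he m hm (G₀ ⊓ K) inferInstance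
    inferInstance (fun j => ⟨g1 j, k3 j⟩) ⟨g2, k4⟩ (fun j k h => k5 j k h.2) (fun k h => k6 k h.2)
  obtain ⟨Γc, hΓcn, hΓcf, c1, c2, hΓc⟩ := cone hN e he m hm (V ⊓ G₁) inferInstance inferInstance
    (fun j => ⟨h1 j, p1 j⟩)
  have hL : Lev e m ⊤ Set.univ (G₁ ⊓ Γc) := by
    refine ⟨le_top, fun d _ u hu => Subgroup.Normal.conj_mem inferInstance u hu d, inferInstance,
      fun j h => ⟨hG₁n.conj_mem _ (p1 j) h, hΓcn.conj_mem _ (c1 j) h⟩,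
      fun h _ => ⟨hG₁n.conj_mem _ p2 h, hΓcn.conj_mem _ c2 h⟩⟩
  obtain ⟨Γ, hΓ, hΓle, hΓc'⟩ := cent hN e he m hm ⊤ inferInstance inferInstance
    (Subgroup.mem_top _) Set.univ (G₁ ⊓ Γc) hL 1
  have hΓn : Γ.Normal := ⟨fun u hu d => hΓ.nor d (Subgroup.mem_top _) u hu⟩
  refine ⟨Γ, hΓn, hΓ.fin, fun j => by simpa using hΓ.rel j 1,
    by simpa using hΓ.kil 1 (Set.mem_univ _), fun f hf hfz => ?_⟩
  obtain ⟨w, hw⟩ := hf (Fin.last N)
  rw [per_last] at hw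
  obtain ⟨a₀, ha₀⟩ := hΓc' w (Subgroup.mem_top _) (by
    have h := hfz (xn ν N)
    rw [hw] at h
    simpa using h)
  have e1 : (1 * xn ν N * 1⁻¹ : FG ν N) = xn ν N := by group
  rw [e1] at ha₀
  set w' := w * xn ν N ^ (-a₀) with hw'
  have hGn : (G₁ ⊓ Γc).Normal := inferInstance
  have hw'G : w' ∈ G₁ ⊓ Γc := by
    have h := hGn.conj_mem _ ha₀ (xn ν N ^ a₀)
    have h2 : xn ν N ^ a₀ * ((xn ν N ^ a₀)⁻¹ * w) * (xn ν N ^ a₀)⁻¹ = w' := by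
      rw [hw']
      group
    rwa [h2] at h
  have hfx : f (xn ν N) = w' * xn ν N * w'⁻¹ := by
    rw [hw, hw']
    group
  set f2 : MulAut (FG ν N) := MulAut.conj w'⁻¹ * f with hf2
  have hf2z : ∀ z, f2 z = w'⁻¹ * f z * w'⁻¹⁻¹ := fun z => rfl
  have hf2x : f2 (xn ν N) = xn ν N := by
    rw [hf2z, hfx]
    group
  have hf2G : ∀ z, f2 z * z⁻¹ ∈ G₁ ⊓ Γc := by
    intro z
    have h := (G₁ ⊓ Γc).mul_mem (hGn.conj_mem _ (hΓle (hfz z)) w'⁻¹)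
      ((G₁ ⊓ Γc).mul_mem ((G₁ ⊓ Γc).inv_mem hw'G) (hGn.conj_mem _ hw'G z))
    have h2 : w'⁻¹ * (f z * z⁻¹) * w'⁻¹⁻¹ * (w'⁻¹ * (z * w' * z⁻¹)) = f2 z * z⁻¹ := by
      rw [hf2z]
      group
    rwa [h2] at h
  obtain ⟨a, ha⟩ := hΓc f2 ((CP ν N).mul_mem (conj_mem_CP _) hf) hf2x fun z => (hf2G z).2
  have hxa : xn ν N ^ a ∈ G₀ ⊓ K := by
    refine hG₁ _ fun v _ => ?_
    have h := G₁.mul_mem (G₁.inv_mem (ha v (Subgroup.mem_top _)).2) (hf2G v).1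
    have h3 := hG₁n.conj_mem _ h (xn ν N ^ a * v * (xn ν N ^ a)⁻¹ * (f2 v)⁻¹)
    have h2 : (f2 v * (xn ν N ^ a * v * (xn ν N ^ a)⁻¹)⁻¹)⁻¹ * (f2 v * v⁻¹) =
      xn ν N ^ a * v * (xn ν N ^ a)⁻¹ * v⁻¹ := by group
    rwa [h2] at h
  refine ⟨w' * xn ν N ^ a, G₀.mul_mem (hG₁G hw'G.1).1 hxa.1, fun z _ => ?_⟩
  have h := hV.conj_mem _ (ha z (Subgroup.mem_top _)).1 w'
  have h2 : w' * (f2 z * (xn ν N ^ a * z * (xn ν N ^ a)⁻¹)⁻¹) * w'⁻¹ =
      f z * (w' * xn ν N ^ a * z * (w' * xn ν N ^ a)⁻¹)⁻¹ := by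
    rw [hf2z]
    group
  rwa [h2] at h

theorem rel_le_iff (e : Fin (N + 1) → ℕ) (Γ : Subgroup (FG ν N)) (hΓ : Γ.Normal) :
    Rel ν e ≤ Γ ↔ ∀ j, per j ^ e j ∈ Γ := by
  constructor
  · intro h j
    exact h (Subgroup.subset_normalClosure (s := Set.range fun j => per j ^ e j) ⟨j, rfl⟩)
  · intro h
    refine Subgroup.normalClosure_le_normal ?_
    rintro _ ⟨j, rfl⟩
    exact h j

/-- The last point is unfilled. -/
theorem step_last (hN : 1 ≤ ν ∨ 4 ≤ N) (e : Fin (N + 1) → ℕ) (he : ∀ j, e j ≠ 1)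
    (hi : e (Fin.last N) ≠ 0) (V : Subgroup (FG ν N)) (hV : V.Normal) (hVf : V.FiniteIndex)
    (h1 : ∀ j, j ≠ Fin.last N → per j ^ e j ∈ V) (G₀ : Subgroup (FG ν N)) (hG : G₀.Normal)
    (hGf : G₀.FiniteIndex) (hR : Rel ν e ≤ G₀) :
    ∃ Γ : Subgroup (FG ν N), Γ.Normal ∧ Γ.FiniteIndex ∧ Rel ν e ≤ Γ ∧
      ∀ f ∈ CP ν N, (∀ z, f z * z⁻¹ ∈ Γ) → ∃ v ∈ G₀, InnOn V ⊤ f v := by
  classical
  set W := V ⊓ G₀ with hW
  have hWn : W.Normal := inferInstance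
  have hWf : W.FiniteIndex := inferInstance
  have hR' := (rel_le_iff e G₀ hG).1 hR
  set e' : Fin N → ℕ := fun j => if e j.castSucc = 0 then 2 * W.index else e j.castSucc with he'
  have hWi : W.index ≠ 0 := hWf.index_ne_zero
  have he2 : ∀ j, 2 ≤ e' j := by
    intro j
    simp only [he']
    split_ifs with h
    · omega
    · have := he j.castSucc
      omega
  have hW' : ∀ j : Fin N, xg j ^ e' j ∈ W := by
    intro j
    simp only [he']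
    split_ifs with h
    · rw [mul_comm, pow_mul]
      exact W.pow_mem (W.pow_index_mem _) 2
    · rw [← per_castSucc]
      exact ⟨h1 _ (Fin.castSucc_lt_last j).ne, hR' _⟩
  obtain ⟨Γ, hΓn, hΓf, p1, p2, hΓ⟩ := step_last_aux hN e' he2 (e (Fin.last N)) (by
      have := he (Fin.last N)
      omega) V hV hVf (fun j => (hW' j).1) G₀ hG hGf (fun j => (hW' j).2) (by
      have := hR' (Fin.last N)
      rwa [per_last] at this)
  refine ⟨Γ, hΓn, hΓf, (rel_le_iff e Γ hΓn).2 fun j => ?_, hΓ⟩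
  refine Fin.lastCases ?_ (fun j => ?_) j
  · rwa [per_last]
  · by_cases h : e j.castSucc = 0
    · rw [h, pow_zero]
      exact Γ.one_mem
    · have h3 := p1 j
      simp only [he', if_neg h] at h3
      rwa [per_castSucc]

/-- (STEP) -- helper77.  One point is unfilled. -/
theorem step (hN : 1 ≤ ν ∨ 4 ≤ N) (e : Fin (N + 1) → ℕ) (he : ∀ j, e j ≠ 1) (i : Fin (N + 1))
    (hi : e i ≠ 0) (V : Subgroup (FG ν N)) (hV : V.Normal) (hVf : V.FiniteIndex)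
    (h1 : ∀ j, j ≠ i → per j ^ e j ∈ V) (G₀ : Subgroup (FG ν N)) (hG : G₀.Normal)
    (hGf : G₀.FiniteIndex) (hR : Rel ν e ≤ G₀) :
    ∃ Γ : Subgroup (FG ν N), Γ.Normal ∧ Γ.FiniteIndex ∧ Rel ν e ≤ Γ ∧
      ∀ f ∈ CP ν N, (∀ z, f z * z⁻¹ ∈ Γ) → ∃ v ∈ G₀, InnOn V ⊤ f v := by
  obtain ⟨σ, hσ'⟩ := exists_rotc (ν := ν) (i + 1)
  choose u hσ using hσ'
  have hlast : Fin.last N + (i + 1) = i := by
    rw [add_comm i 1, ← add_assoc, Fin.last_add_one, zero_add]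
  have hinj : ∀ j j' : Fin (N + 1), j + (i + 1) = j' + (i + 1) → j = j' := fun j j' h =>
    add_right_cancel h
  have hσi : ∀ z, σ⁻¹ (σ z) = z := fun z => by
    change (σ⁻¹ * σ) z = z
    rw [inv_mul_cancel]
    rfl
  have hσi' : ∀ z, σ (σ⁻¹ z) = z := fun z => by
    change (σ * σ⁻¹) z = z
    rw [mul_inv_cancel]
    rfl
  have hcon : ∀ W : Subgroup (FG ν N), W.Normal → W.FiniteIndex →
      (W.comap σ.toMonoidHom).Normal ∧ (W.comap σ.toMonoidHom).FiniteIndex := by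
    intro W hWn hWf
    refine ⟨hWn.comap _, ?_⟩
    rw [Subgroup.finiteIndex_iff, Subgroup.index_comap_of_surjective _ σ.surjective]
    exact hWf.index_ne_zero
  have hcon' : ∀ W : Subgroup (FG ν N), W.Normal → W.FiniteIndex →
      (W.comap (σ⁻¹ : MulAut (FG ν N)).toMonoidHom).Normal ∧
      (W.comap (σ⁻¹ : MulAut (FG ν N)).toMonoidHom).FiniteIndex := by
    intro W hWn hWf
    refine ⟨hWn.comap _, ?_⟩
    rw [Subgroup.finiteIndex_iff, Subgroup.index_comap_of_surjective _ (σ⁻¹).surjective]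
    exact hWf.index_ne_zero
  set e' : Fin (N + 1) → ℕ := fun j => e (j + (i + 1)) with he'
  have hR' := (rel_le_iff e G₀ hG).1 hR
  obtain ⟨Γ', n1, n2, n3, hΓ'⟩ := step_last hN e' (fun j => he _) (by
      simp only [he', hlast]
      exact hi) (V.comap σ.toMonoidHom) (hcon V hV hVf).1 (hcon V hV hVf).2 (fun j hj => by
      change σ (per j ^ e' j) ∈ V
      rw [map_pow, hσ, conj_pow]
      exact hV.conj_mem _ (h1 _ fun h => hj (hinj _ _ (h.trans hlast.symm))) _) (G₀.comap σ.toMonoidHom) (hcon G₀ hG hGf).1 (hcon G₀ hG hGf).2 (by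
      rw [rel_le_iff _ _ (hcon G₀ hG hGf).1]
      intro j
      change σ (per j ^ e' j) ∈ G₀
      rw [map_pow, hσ, conj_pow]
      exact hG.conj_mem _ (hR' _) _)
  refine ⟨Γ'.comap (σ⁻¹ : MulAut (FG ν N)).toMonoidHom, (hcon' Γ' n1 n2).1, (hcon' Γ' n1 n2).2, ?_, ?_⟩
  · rw [rel_le_iff _ _ (hcon' Γ' n1 n2).1]
    intro j
    change σ⁻¹ (per j ^ e j) ∈ Γ'
    have h3 := hσ (j - (i + 1))
    rw [sub_add_cancel] at h3
    have h4 := (rel_le_iff e' Γ' n1).1 n3 (j - (i + 1))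
    simp only [he', sub_add_cancel] at h4
    have h5 : (per j : FG ν N) = (u (j - (i + 1)))⁻¹ * σ (per (j - (i + 1))) *
        (u (j - (i + 1)))⁻¹⁻¹ := by
      rw [h3]
      group
    rw [h5, conj_pow, map_mul, map_mul, map_inv σ⁻¹ (u (j - (i + 1)))⁻¹, ← map_pow, hσi]
    exact n1.conj_mem _ h4 _
  · intro f hf hfz
    obtain ⟨v, hv, hfv⟩ := hΓ' (σ⁻¹ * f * σ) (fun j => by
      obtain ⟨w, hw⟩ := hf (j + (i + 1))
      refine ⟨σ⁻¹ (f (u j) * w * (u j)⁻¹), ?_⟩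
      change σ⁻¹ (f (σ (per j))) = _
      have h5 : (per j : FG ν N) = σ⁻¹ (u j * per (j + (i + 1)) * (u j)⁻¹) := by
        rw [← hσ, hσi]
      have h6 : f (u j * per (j + (i + 1)) * (u j)⁻¹) = (f (u j) * w * (u j)⁻¹) *
          (u j * per (j + (i + 1)) * (u j)⁻¹) * (f (u j) * w * (u j)⁻¹)⁻¹ := by
        rw [map_mul f, map_mul f, map_inv f, hw]
        group
      rw [hσ, h6, map_mul σ⁻¹, map_mul σ⁻¹, map_inv σ⁻¹ (f (u j) * w * (u j)⁻¹), ← h5]) (fun z => by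
      have h2 := hfz (σ z)
      change σ⁻¹ (f (σ z) * (σ z)⁻¹) ∈ Γ' at h2
      rw [map_mul, map_inv, hσi] at h2
      exact h2)
    refine ⟨σ v, hv, fun y _ => ?_⟩
    have h2 := hfv (σ⁻¹ y) (Subgroup.mem_top _)
    change σ (σ⁻¹ (f (σ (σ⁻¹ y))) * (v * σ⁻¹ y * v⁻¹)⁻¹) ∈ V at h2
    simp only [map_mul, map_inv, hσi'] at h2
    exact h2

/-- (STEPS) -- helper77.  All points are unfilled. -/
theorem steps (hN : 1 ≤ ν ∨ 4 ≤ N) (e : Fin (N + 1) → ℕ) (he : ∀ j, 2 ≤ e j) (V : Subgroup (FG ν N))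
    (hV : V.Normal) (hVf : V.FiniteIndex) (G₀ : Subgroup (FG ν N)) (hG : G₀.Normal)
    (hGf : G₀.FiniteIndex) (hR : Rel ν e ≤ G₀) :
    ∃ Γ : Subgroup (FG ν N), Γ.Normal ∧ Γ.FiniteIndex ∧ Rel ν e ≤ Γ ∧
      ∀ f ∈ CP ν N, (∀ z, f z * z⁻¹ ∈ Γ) → ∃ v ∈ G₀, InnOn V ⊤ f v := by
  classical
  have key : ∀ S : Finset (Fin (N + 1)), ∃ Γ : Subgroup (FG ν N), Γ.Normal ∧ Γ.FiniteIndex ∧
      Rel ν (fun j => if j ∈ S then e j else 0) ≤ Γ ∧
      ∀ f ∈ CP ν N, (∀ z, f z * z⁻¹ ∈ Γ) → ∃ v ∈ G₀, InnOn V ⊤ f v := by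
    intro S
    induction S using Finset.induction_on with
    | empty =>
      refine ⟨V, hV, hVf, (rel_le_iff _ V hV).2 fun j => ?_, fun f _ hfz => ⟨1, G₀.one_mem,
        fun y _ => ?_⟩⟩
      · simp
      · simpa using hfz y
    | insert i S hiS ih =>
      obtain ⟨Γ, n1, n2, n3, hΓ⟩ := ih
      have n3' := (rel_le_iff _ Γ n1).1 n3
      have hR' := (rel_le_iff e G₀ hG).1 hR
      obtain ⟨Γ', m1, m2, m3, hΓ'⟩ := step hN (fun j => if j ∈ insert i S then e j else 0)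
        (fun j => by
          have := he j
          split_ifs <;> omega) i (by
          have := he i
          simp only [Finset.mem_insert_self, if_true]
          omega) Γ n1 n2 (fun j hj => by
          have h2 := n3' j
          simp only [Finset.mem_insert, hj, false_or]
          exact h2) G₀ hG hGf ((rel_le_iff _ G₀ hG).2 fun j => by
          split_ifs
          · exact hR' j
          · rw [pow_zero]
            exact G₀.one_mem)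
      refine ⟨Γ', m1, m2, m3, fun f hf hfz => ?_⟩
      obtain ⟨v, hv, hfv⟩ := hΓ' f hf hfz
      obtain ⟨v1, hv1, hfv1⟩ := hΓ (MulAut.conj v⁻¹ * f) ((CP ν N).mul_mem (conj_mem_CP _) hf)
        (fun z => by
          have h2 := n1.conj_mem _ (hfv z (Subgroup.mem_top _)) v⁻¹
          have h3 : v⁻¹ * (f z * (v * z * v⁻¹)⁻¹) * v⁻¹⁻¹ = v⁻¹ * f z * v⁻¹⁻¹ * z⁻¹ := by group
          rw [h3] at h2
          exact h2)
      refine ⟨v * v1, G₀.mul_mem hv hv1, fun y hy => ?_⟩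
      have h2 := hV.conj_mem _ (hfv1 y hy) v
      have h3 : v * ((MulAut.conj v⁻¹ * f) y * (v1 * y * v1⁻¹)⁻¹) * v⁻¹ =
          f y * (v * v1 * y * (v * v1)⁻¹)⁻¹ := by
        change v * (v⁻¹ * f y * v⁻¹⁻¹ * (v1 * y * v1⁻¹)⁻¹) * v⁻¹ = _
        group
      rwa [h3] at h2
  obtain ⟨Γ, n1, n2, n3, hΓ⟩ := key Finset.univ
  refine ⟨Γ, n1, n2, ?_, hΓ⟩
  simpa using n3

end Pool.MP_59b15d_al.SymH
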