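import Mathlib
import Pool.Agent.H.MP_59b15d_al.symh.Step
import Pool.Agent.H.MP_59b15d_al.h76r.Sd

set_option autoImplicit false

/-!
The steps, in a general form.
-/

namespace Pool.MP_59b15d_al.SymH

variable {ν N : ℕ}

/-- The point `i` is unfilled. -/
def SL (ν N : ℕ) (e : Fin (N + 1) → ℕ) (i : Fin (N + 1)) : Prop :=
  ∀ V : Subgroup (FG ν N), V.Normal → V.FiniteIndex → (∀ j, j ≠ i → per j ^ e j ∈ V) →
    ∀ G₀ : Subgroup (FG ν N), G₀.Normal → G₀.FiniteIndex → Rel ν e ≤ G₀ →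
    ∃ Γ : Subgroup (FG ν N), Γ.Normal ∧ Γ.FiniteIndex ∧ Rel ν e ≤ Γ ∧
      ∀ f ∈ CP ν N, (∀ z, f z * z⁻¹ ∈ Γ) → ∃ v ∈ G₀, InnOn V ⊤ f v

theorem step_rot (e : Fin (N + 1) → ℕ) (i : Fin (N + 1))
    (hS : SL ν N (fun j => e (j + (i + 1))) (Fin.last N)) : SL ν N e i := by
  intro V hV hVf h1 G₀ hG hGf hR
  obtain ⟨σ, hσ'⟩ := exists_rotc (ν := ν) (i + 1)
  choose u hσ using hσ'
  have hlast : Fin.last N + (i + 1) = i := by
    rw [add_comm i 1, ← add_assoc, Fin.last_add_one, zero_add]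
  have hinj : ∀ j j' : Fin (N + 1), j + (i + 1) = j' + (i + 1) → j = j' := fun j j' h =>
    add_right_cancel h
  have hσi : ∀ z, σ⁻¹ (σ z) = z := fun z => by
    change (σ⁻¹ * σ) z = z
    rw [inv_mul_cancel]
    rfl
  have hσi' : ∀ z, σ (σ⁻¹ z) = z := fun z => by
    change (σ * σ⁻¹) z = z
    rw [mul_inv_cancel]
    rfl
  have hcon : ∀ W : Subgroup (FG ν N), W.Normal → W.FiniteIndex →
      (W.comap σ.toMonoidHom).Normal ∧ (W.comap σ.toMonoidHom).FiniteIndex := by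
    intro W hWn hWf
    refine ⟨hWn.comap _, ?_⟩
    rw [Subgroup.finiteIndex_iff, Subgroup.index_comap_of_surjective _ σ.surjective]
    exact hWf.index_ne_zero
  have hcon' : ∀ W : Subgroup (FG ν N), W.Normal → W.FiniteIndex →
      (W.comap (σ⁻¹ : MulAut (FG ν N)).toMonoidHom).Normal ∧
      (W.comap (σ⁻¹ : MulAut (FG ν N)).toMonoidHom).FiniteIndex := by
    intro W hWn hWf
    refine ⟨hWn.comap _, ?_⟩
    rw [Subgroup.finiteIndex_iff, Subgroup.index_comap_of_surjective _ (σ⁻¹).surjective]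
    exact hWf.index_ne_zero
  set e' : Fin (N + 1) → ℕ := fun j => e (j + (i + 1)) with he'
  have hR' := (rel_le_iff e G₀ hG).1 hR
  obtain ⟨Γ', n1, n2, n3, hΓ'⟩ := hS (V.comap σ.toMonoidHom) (hcon V hV hVf).1 (hcon V hV hVf).2 (fun j hj => by
      change σ (per j ^ e' j) ∈ V
      rw [map_pow, hσ, conj_pow]
      exact hV.conj_mem _ (h1 _ fun h => hj (hinj _ _ (h.trans hlast.symm))) _) (G₀.comap σ.toMonoidHom) (hcon G₀ hG hGf).1 (hcon G₀ hG hGf).2 (by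
      rw [rel_le_iff _ _ (hcon G₀ hG hGf).1]
      intro j
      change σ (per j ^ e' j) ∈ G₀
      rw [map_pow, hσ, conj_pow]
      exact hG.conj_mem _ (hR' _) _)
  refine ⟨Γ'.comap (σ⁻¹ : MulAut (FG ν N)).toMonoidHom, (hcon' Γ' n1 n2).1, (hcon' Γ' n1 n2).2, ?_, ?_⟩
  · rw [rel_le_iff _ _ (hcon' Γ' n1 n2).1]
    intro j
    change σ⁻¹ (per j ^ e j) ∈ Γ'
    have h3 := hσ (j - (i + 1))
    rw [sub_add_cancel] at h3
    have h4 := (rel_le_iff e' Γ' n1).1 n3 (j - (i + 1))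
    simp only [he', sub_add_cancel] at h4
    have h5 : (per j : FG ν N) = (u (j - (i + 1)))⁻¹ * σ (per (j - (i + 1))) *
        (u (j - (i + 1)))⁻¹⁻¹ := by
      rw [h3]
      group
    rw [h5, conj_pow, map_mul, map_mul, map_inv σ⁻¹ (u (j - (i + 1)))⁻¹, ← map_pow, hσi]
    exact n1.conj_mem _ h4 _
  · intro f hf hfz
    obtain ⟨v, hv, hfv⟩ := hΓ' (σ⁻¹ * f * σ) (fun j => by
      obtain ⟨w, hw⟩ := hf (j + (i + 1))
      refine ⟨σ⁻¹ (f (u j) * w * (u j)⁻¹), ?_⟩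
      change σ⁻¹ (f (σ (per j))) = _
      have h5 : (per j : FG ν N) = σ⁻¹ (u j * per (j + (i + 1)) * (u j)⁻¹) := by
        rw [← hσ, hσi]
      have h6 : f (u j * per (j + (i + 1)) * (u j)⁻¹) = (f (u j) * w * (u j)⁻¹) *
          (u j * per (j + (i + 1)) * (u j)⁻¹) * (f (u j) * w * (u j)⁻¹)⁻¹ := by
        rw [map_mul f, map_mul f, map_inv f, hw]
        group
      rw [hσ, h6, map_mul σ⁻¹, map_mul σ⁻¹, map_inv σ⁻¹ (f (u j) * w * (u j)⁻¹), ← h5]) (fun z => by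
      have h2 := hfz (σ z)
      change σ⁻¹ (f (σ z) * (σ z)⁻¹) ∈ Γ' at h2
      rw [map_mul, map_inv, hσi] at h2
      exact h2)
    refine ⟨σ v, hv, fun y _ => ?_⟩
    have h2 := hfv (σ⁻¹ y) (Subgroup.mem_top _)
    change σ (σ⁻¹ (f (σ (σ⁻¹ y))) * (v * σ⁻¹ y * v⁻¹)⁻¹) ∈ V at h2
    simp only [map_mul, map_inv, hσi'] at h2
    exact h2


/-- (STEPS), general form. -/
theorem steps_gen (e : Fin (N + 1) → ℕ)
    (hS : ∀ (S : Finset (Fin (N + 1))) (i : Fin (N + 1)), i ∉ S →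
      SL ν N (fun j => if j ∈ insert i S then e j else 0) i) (V : Subgroup (FG ν N))
    (hV : V.Normal) (hVf : V.FiniteIndex) (G₀ : Subgroup (FG ν N)) (hG : G₀.Normal)
    (hGf : G₀.FiniteIndex) (hR : Rel ν e ≤ G₀) :
    ∃ Γ : Subgroup (FG ν N), Γ.Normal ∧ Γ.FiniteIndex ∧ Rel ν e ≤ Γ ∧
      ∀ f ∈ CP ν N, (∀ z, f z * z⁻¹ ∈ Γ) → ∃ v ∈ G₀, InnOn V ⊤ f v := by
  classical
  have key : ∀ S : Finset (Fin (N + 1)), ∃ Γ : Subgroup (FG ν N), Γ.Normal ∧ Γ.FiniteIndex ∧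
      Rel ν (fun j => if j ∈ S then e j else 0) ≤ Γ ∧
      ∀ f ∈ CP ν N, (∀ z, f z * z⁻¹ ∈ Γ) → ∃ v ∈ G₀, InnOn V ⊤ f v := by
    intro S
    induction S using Finset.induction_on with
    | empty =>
      refine ⟨V, hV, hVf, (rel_le_iff _ V hV).2 fun j => ?_, fun f _ hfz => ⟨1, G₀.one_mem,
        fun y _ => ?_⟩⟩
      · simp
      · simpa using hfz y
    | insert i S hiS ih =>
      obtain ⟨Γ, n1, n2, n3, hΓ⟩ := ih
      have n3' := (rel_le_iff _ Γ n1).1 n3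
      have hR' := (rel_le_iff e G₀ hG).1 hR
      obtain ⟨Γ', m1, m2, m3, hΓ'⟩ := hS S i hiS Γ n1 n2 (fun j hj => by
          have h2 := n3' j
          simp only [Finset.mem_insert, hj, false_or]
          exact h2) G₀ hG hGf ((rel_le_iff _ G₀ hG).2 fun j => by
          split_ifs
          · exact hR' j
          · rw [pow_zero]
            exact G₀.one_mem)
      refine ⟨Γ', m1, m2, m3, fun f hf hfz => ?_⟩
      obtain ⟨v, hv, hfv⟩ := hΓ' f hf hfz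
      obtain ⟨v1, hv1, hfv1⟩ := hΓ (MulAut.conj v⁻¹ * f) ((CP ν N).mul_mem (conj_mem_CP _) hf)
        (fun z => by
          have h2 := n1.conj_mem _ (hfv z (Subgroup.mem_top _)) v⁻¹
          have h3 : v⁻¹ * (f z * (v * z * v⁻¹)⁻¹) * v⁻¹⁻¹ = v⁻¹ * f z * v⁻¹⁻¹ * z⁻¹ := by group
          rw [h3] at h2
          exact h2)
      refine ⟨v * v1, G₀.mul_mem hv hv1, fun y hy => ?_⟩
      have h2 := hV.conj_mem _ (hfv1 y hy) v
      have h3 : v * ((MulAut.conj v⁻¹ * f) y * (v1 * y * v1⁻¹)⁻¹) * v⁻¹ =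
          f y * (v * v1 * y * (v * v1)⁻¹)⁻¹ := by
        change v * (v⁻¹ * f y * v⁻¹⁻¹ * (v1 * y * v1⁻¹)⁻¹) * v⁻¹ = _
        group
      rwa [h3] at h2
  obtain ⟨Γ, n1, n2, n3, hΓ⟩ := key Finset.univ
  refine ⟨Γ, n1, n2, ?_, hΓ⟩
  simpa using n3


end Pool.MP_59b15d_al.SymH
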