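import Mathlib
import Pool.Agent.H.MP_59b15d_al.sym.Pm1
import Pool.Agent.H.MP_59b15d_al.symh.Defs

set_option autoImplicit false

namespace Pool.MP_59b15d_al.SymH

open Pool.MP_59b15d_al.Sym (Gg cW cmp2 cmp2_vec cmp2_comm tri2 tri2_pow)
open Matrix

section mats

variable {K : Type*} [Field K]

theorem cmp2_pow_scalar {α β : K} (hab : α ≠ β) (k : ℕ) (hk : β ^ k = α ^ k) :
    (cmp2 α β) ^ k = α ^ k • (1 : Matrix (Fin 2) (Fin 2) K) := by
  have h1 := cmp2_vec α β k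
  have h2 := cmp2_vec β α k
  rw [cmp2_comm β α, hk] at h2
  set A := (cmp2 α β) ^ k with hA
  have e1 := congrFun h1 0
  have e2 := congrFun h1 1
  have e3 := congrFun h2 0
  have e4 := congrFun h2 1
  simp only [vecMul, dotProduct, Fin.sum_univ_two, cons_val_zero, cons_val_one, one_mul,
    Pi.smul_apply, smul_eq_mul, mul_one] at e1 e2 e3 e4
  have hne : α - β ≠ 0 := sub_ne_zero.mpr hab
  have f1 : A 1 0 = 0 := by
    have : (α - β) * A 1 0 = 0 := by linear_combination e1 - e3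
    exact (mul_eq_zero.mp this).resolve_left hne
  have f2 : A 1 1 = α ^ k := by
    have : (α - β) * (A 1 1 - α ^ k) = 0 := by linear_combination e2 - e4
    exact sub_eq_zero.mp ((mul_eq_zero.mp this).resolve_left hne)
  have f3 : A 0 0 = α ^ k := by
    rw [f1] at e1
    linear_combination e1
  have f4 : A 0 1 = 0 := by
    rw [f2] at e2
    linear_combination e2
  ext i j
  fin_cases i <;> fin_cases j <;> simp [f1, f2, f3, f4]

/-- A power of a companion matrix which is scalar. -/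
theorem cmp2_scalar {α β : K} (k : ℕ) (h10 : ((cmp2 α β) ^ k) 1 0 = 0) :
    α ^ k = β ^ k := by
  have e1 := congrFun (cmp2_vec α β k) 0
  have e3 := congrFun (cmp2_vec β α k) 0
  rw [cmp2_comm β α] at e3
  simp only [vecMul, dotProduct, Fin.sum_univ_two, cons_val_zero, cons_val_one, one_mul,
    Pi.smul_apply, smul_eq_mul, mul_one, h10, mul_zero, add_zero] at e1 e3
  rw [← e1, ← e3]

/-- Matrices commuting with two transvections are scalar. -/
theorem scalar_of_comm {A : Matrix (Fin 2) (Fin 2) K} (h1 : A * !![1, 1; 0, 1] = !![1, 1; 0, 1] * A) :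
    A 1 0 = 0 ∧ A 0 0 = A 1 1 := by
  have e1 := congrFun (congrFun h1 0) 0
  have e2 := congrFun (congrFun h1 0) 1
  simp [Matrix.mul_apply, Fin.sum_univ_two] at e1 e2
  refine ⟨by simpa using e1, ?_⟩
  linear_combination e2

end mats

/-- Elements of given orders with product `1` in a finite group. -/
theorem exists_three (e : Fin 3 → ℕ) (he : ∀ j, 2 ≤ e j) :
    ∃ (G : Type) (_ : Group G) (_ : Finite G) (t : Fin 3 → G), (∀ j, orderOf (t j) = e j) ∧
      t 0 * t 1 * t 2 = 1 := by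
  let L : ℕ := 2 * ∏ j, e j
  have hP : 0 < ∏ j, e j := Finset.prod_pos fun j _ => by have := he j; omega
  have hL0 : L ≠ 0 := by positivity
  obtain ⟨q, hq, -, hq1⟩ := Nat.exists_prime_gt_modEq_one 1 hL0
  have hqf : Fact q.Prime := ⟨hq⟩
  have hqL : L ∣ q - 1 := (Nat.modEq_iff_dvd' hq.one_lt.le).mp hq1.symm
  obtain ⟨ζ, hζ⟩ := IsCyclic.exists_ofOrder_eq_natCard (α := (ZMod q)ˣ)
  have hc : Nat.card (ZMod q)ˣ = q - 1 := by
    rw [Nat.card_eq_fintype_card, ZMod.card_units_eq_totient, Nat.totient_prime Fact.out]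
  rw [hc] at hζ
  have hroot : ∀ d : ℕ, d ∣ q - 1 → ∃ u : (ZMod q)ˣ, orderOf u = d := by
    rintro d ⟨c, hc⟩
    have hc0 : c ≠ 0 := by
      rintro rfl
      have := hq.one_lt
      omega
    refine ⟨ζ ^ c, ?_⟩
    rw [orderOf_pow_of_dvd hc0 (by rw [hζ, hc]; exact Dvd.intro_left _ rfl), hζ, hc,
      Nat.mul_div_cancel _ (Nat.pos_of_ne_zero hc0)]
  have h1 : ∀ j, ∃ u : (ZMod q)ˣ, orderOf u = 2 * e j := fun j => hroot _
    ((Nat.mul_dvd_mul_left 2 (Finset.dvd_prod_of_mem e (Finset.mem_univ j))).trans hqL)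
  choose ν hν using h1
  have hμ : ∀ (j : Fin 3) (k : ℕ), (ν j ^ 2) ^ k = 1 ↔ e j ∣ k := by
    intro j k
    rw [← pow_mul, ← orderOf_dvd_iff_pow_eq_one, hν]
    exact Nat.mul_dvd_mul_iff_left two_pos
  have hμ1 : ∀ j : Fin 3, ν j ^ 2 ≠ 1 := by
    intro j h
    have h2 := (hμ j 1).1 (by rw [pow_one]; exact h)
    have h3 := Nat.le_of_dvd one_pos h2
    have := he j
    omega
  let α : (ZMod q)ˣ := ν 0 * ν 1 * (ν 2)⁻¹
  let β : (ZMod q)ˣ := ν 0 * ν 1 * ν 2
  have hβα : ∀ k : ℕ, β ^ k = α ^ k ↔ e 2 ∣ k := by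
    intro k
    rw [← hμ 2 k]
    have h2 : β ^ k = (ν 2 ^ 2) ^ k * α ^ k := by
      rw [← mul_pow]
      congr 1
      simp only [α, β]
      have h3 : ν 2 ^ 2 * (ν 0 * ν 1 * (ν 2)⁻¹) = ν 0 * ν 1 * (ν 2 * (ν 2 * (ν 2)⁻¹)) := by
        rw [pow_two]
        ac_rfl
      rw [h3, mul_inv_cancel, mul_one]
    rw [h2]
    exact mul_eq_right
  have hne : α ≠ β := by
    intro h
    have h2 := (hβα 1).1 (by rw [h])
    have h3 := Nat.le_of_dvd one_pos h2
    have := he 2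
    omega
  have hab : (α : ZMod q) * (β : ZMod q) = ((ν 0 ^ 2 : (ZMod q)ˣ) : ZMod q) *
      ((ν 1 ^ 2 : (ZMod q)ˣ) : ZMod q) := by
    rw [← Units.val_mul, ← Units.val_mul]
    congr 1
    simp only [α, β]
    have h3 : ν 0 * ν 1 * (ν 2)⁻¹ * (ν 0 * ν 1 * ν 2) =
        ν 0 ^ 2 * ν 1 ^ 2 * ((ν 2)⁻¹ * ν 2) := by
      rw [pow_two, pow_two]
      ac_rfl
    rw [h3, inv_mul_cancel, mul_one]
  set μ₀ : ZMod q := ((ν 0 ^ 2 : (ZMod q)ˣ) : ZMod q) with hμ₀
  set μ₁ : ZMod q := ((ν 1 ^ 2 : (ZMod q)ˣ) : ZMod q) with hμ₁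
  have hm0 : ∀ k : ℕ, μ₀ ^ k = 1 ↔ e 0 ∣ k := by
    intro k
    rw [← hμ 0 k, hμ₀, ← Units.val_pow_eq_pow_val, Units.val_eq_one]
  have hm1 : ∀ k : ℕ, μ₁ ^ k = 1 ↔ e 1 ∣ k := by
    intro k
    rw [← hμ 1 k, hμ₁, ← Units.val_pow_eq_pow_val, Units.val_eq_one]
  have hn0 : (1 : ZMod q) ≠ μ₀ := fun h => hμ1 0 (Units.ext h.symm)
  have hn1 : μ₁ ≠ 1 := fun h => hμ1 1 (Units.ext h)
  have hab' : ∀ k : ℕ, (β : ZMod q) ^ k = (α : ZMod q) ^ k ↔ e 2 ∣ k := by
    intro k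
    rw [← hβα k, ← Units.val_pow_eq_pow_val, ← Units.val_pow_eq_pow_val, Units.val_inj]
  have hne' : (α : ZMod q) ≠ (β : ZMod q) := fun h => hne (Units.ext h)
  let z : ZMod q := α + β - (1 + μ₀) * μ₁
  have hA : ∀ k : ℕ, (cmp2 1 μ₀) ^ k = 1 ↔ e 0 ∣ k := by
    intro k
    rw [Sym.cmp2_pow_eq_one hn0, hm0]
    simp
  have hB : ∀ k : ℕ, (tri2 z μ₁) ^ k = 1 ↔ e 1 ∣ k := by
    intro k
    rw [Sym.tri2_pow_eq_one hn1, hm1]
  have hC : cmp2 1 μ₀ * tri2 z μ₁ = cmp2 (α : ZMod q) (β : ZMod q) := by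
    ext i j
    fin_cases i <;> fin_cases j <;> simp [tri2, cmp2, Matrix.mul_apply, Fin.sum_univ_two, z, hab]
  let uA : (Matrix (Fin 2) (Fin 2) (ZMod q))ˣ :=
    Units.ofPowEqOne (cmp2 1 μ₀) (e 0) ((hA _).2 dvd_rfl) (by have := he 0; omega)
  let uB : (Matrix (Fin 2) (Fin 2) (ZMod q))ˣ :=
    Units.ofPowEqOne (tri2 z μ₁) (e 1) ((hB _).2 dvd_rfl) (by have := he 1; omega)
  have huA : (uA : Matrix (Fin 2) (Fin 2) (ZMod q)) = cmp2 1 μ₀ := rfl
  have huB : (uB : Matrix (Fin 2) (Fin 2) (ZMod q)) = tri2 z μ₁ := rfl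
  have huC : ((uA * uB : (Matrix (Fin 2) (Fin 2) (ZMod q))ˣ) : Matrix (Fin 2) (Fin 2) (ZMod q)) =
      cmp2 (α : ZMod q) (β : ZMod q) := by
    rw [Units.val_mul, huA, huB, hC]
  let G : Type := (Matrix (Fin 2) (Fin 2) (ZMod q))ˣ
  let c : G →* Equiv.Perm G := (MulAut.toPerm G).comp MulAut.conj
  have hc1 : ∀ (u : G) (k : ℕ), (c u) ^ k = 1 ↔ ∀ g : G, u ^ k * g = g * u ^ k := by
    intro u k
    rw [← map_pow]
    constructor
    · intro h g
      have h2 := congrArg (fun σ : Equiv.Perm G => σ g) h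
      have h3 : u ^ k * g * (u ^ k)⁻¹ = g := h2
      rw [mul_inv_eq_iff_eq_mul] at h3
      exact h3
    · intro h
      ext1 g
      change u ^ k * g * (u ^ k)⁻¹ = g
      rw [mul_inv_eq_iff_eq_mul]
      exact h g
  let E : G := ⟨!![1, 1; 0, 1], !![1, -1; 0, 1], by
    ext i j; fin_cases i <;> fin_cases j <;> simp [Matrix.mul_apply, Fin.sum_univ_two], by
    ext i j; fin_cases i <;> fin_cases j <;> simp [Matrix.mul_apply, Fin.sum_univ_two]⟩
  have hE : ∀ (u : G) (k : ℕ), (∀ g : G, u ^ k * g = g * u ^ k) →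
      ((u : Matrix (Fin 2) (Fin 2) (ZMod q)) ^ k) 1 0 = 0 ∧
      ((u : Matrix (Fin 2) (Fin 2) (ZMod q)) ^ k) 0 0 =
        ((u : Matrix (Fin 2) (Fin 2) (ZMod q)) ^ k) 1 1 := by
    intro u k h
    apply scalar_of_comm
    have h2 : ((u ^ k * E : G) : Matrix (Fin 2) (Fin 2) (ZMod q)) = ((E * u ^ k : G) :
        Matrix (Fin 2) (Fin 2) (ZMod q)) := by rw [h E]
    exact h2
  have hord : ∀ (x : Equiv.Perm G) (n : ℕ), (∀ k, x ^ k = 1 ↔ n ∣ k) → orderOf x = n := by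
    intro x n h
    exact Nat.dvd_antisymm (orderOf_dvd_of_pow_eq_one ((h n).2 dvd_rfl))
      ((h _).1 (pow_orderOf_eq_one x))
  have o0 : orderOf (c uA) = e 0 := by
    apply hord
    intro k
    rw [hc1]
    constructor
    · intro h
      have h2 := (hE uA k h).1
      rw [huA] at h2
      have h3 := cmp2_scalar k h2
      rw [one_pow] at h3
      exact (hm0 k).1 h3.symm
    · intro h g
      have h2 : uA ^ k = 1 := by
        apply Units.ext
        rw [Units.val_pow_eq_pow_val, huA, (hA k).2 h]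
        rfl
      rw [h2, one_mul, mul_one]
  have o1 : orderOf (c uB) = e 1 := by
    apply hord
    intro k
    rw [hc1]
    constructor
    · intro h
      have h2 := (hE uB k h).2
      rw [huB, tri2_pow] at h2
      refine (hm1 k).1 ?_
      simpa [tri2] using h2.symm
    · intro h g
      have h2 : uB ^ k = 1 := by
        apply Units.ext
        rw [Units.val_pow_eq_pow_val, huB, (hB k).2 h]
        rfl
      rw [h2, one_mul, mul_one]
  have o2 : orderOf (c (uA * uB)) = e 2 := by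
    apply hord
    intro k
    rw [hc1]
    constructor
    · intro h
      have h2 := (hE (uA * uB) k h).1
      rw [huC] at h2
      have h3 := cmp2_scalar k h2
      exact (hab' k).1 h3.symm
    · intro h g
      apply Units.ext
      rw [Units.val_mul, Units.val_mul, Units.val_pow_eq_pow_val, huC,
        cmp2_pow_scalar hne' k ((hab' k).2 h)]
      simp
  refine ⟨Equiv.Perm G, inferInstance, inferInstance, ![c uA, c uB, (c (uA * uB))⁻¹], ?_, ?_⟩
  · intro j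
    fin_cases j
    · exact o0
    · exact o1
    · change orderOf (c (uA * uB))⁻¹ = e 2
      rw [orderOf_inv, o2]
  · change c uA * c uB * (c (uA * uB))⁻¹ = 1
    rw [map_mul, mul_inv_cancel]

/-- (BIG), three points. -/
theorem big3 (e : Fin 3 → ℕ) (he : ∀ j, 2 ≤ e j) :
    ∃ U : Subgroup (FG 0 3), U.Normal ∧ U.FiniteIndex ∧ (∀ j, xg j ^ e j ∈ U) ∧ xn 0 3 ∈ U ∧
      ∀ (j : Fin 3) (k : ℕ), (xg j : FG 0 3) ^ k ∈ U → e j ∣ k := by
  obtain ⟨G, _, _, t, ht, htp⟩ := exists_three e he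
  let σ : FG 0 3 →* G := FreeGroup.lift (Sum.elim (fun _ => 1) t)
  have hσ : ∀ j : Fin 3, σ (xg j) = t j := fun j => by simp [σ]
  refine ⟨σ.ker, inferInstance, inferInstance, fun j => ?_, ?_, fun j k hk => ?_⟩
  · rw [MonoidHom.mem_ker, map_pow, hσ, ← ht j, pow_orderOf_eq_one]
  · rw [MonoidHom.mem_ker, xn, map_inv, inv_eq_one, cW, map_mul, map_list_prod, map_list_prod,
      List.map_ofFn, List.map_ofFn, List.ofFn_zero, List.prod_nil, one_mul]
    rw [List.ofFn_succ, List.ofFn_succ, List.ofFn_succ, List.ofFn_zero, List.prod_cons,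
      List.prod_cons, List.prod_cons, List.prod_nil, mul_one, ← mul_assoc]
    rw [← htp, ← hσ 0, ← hσ 1, ← hσ 2]
    rfl
  · rw [MonoidHom.mem_ker, map_pow, hσ] at hk
    rw [← ht j]
    exact orderOf_dvd_of_pow_eq_one hk

end Pool.MP_59b15d_al.SymH
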