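import Mathlib
import Pool.Agent.H.MP_59b15d_al.symh.Step
import Pool.Agent.H.MP_59b15d_al.symh.Big3
import Pool.Agent.H.MP_59b15d_al.h76r.Sd

set_option autoImplicit false

namespace Pool.MP_59b15d_al.SymH

open Pool.MP_59b15d_al

variable {ν N : ℕ}

theorem faith_use {G : Type*} [Group G] {V U : Subgroup G} (hV : V.Normal) (hU : U.Normal)
    (h : ∀ d : G, (∀ v ∈ V, d * v * d⁻¹ * v⁻¹ ∈ U) → d ∈ V) (f : MulAut G)
    (hf : ∀ v ∈ V, f v * v⁻¹ ∈ U) (y : G) : f y * y⁻¹ ∈ V := by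
  have hd := h (y⁻¹ * f y) fun v hv => by
    have h2 := hf v hv
    have h3 := hf _ (hV.conj_mem _ hv y)
    rw [map_mul, map_mul, map_inv] at h3
    have h4 := hU.conj_mem _ (U.mul_mem (hU.conj_mem _ (U.inv_mem h2) (f y)) h3) y⁻¹
    have h5 : y⁻¹ * (f y * (f v * v⁻¹)⁻¹ * (f y)⁻¹ * (f y * f v * (f y)⁻¹ *
        (y * v * y⁻¹)⁻¹)) * y⁻¹⁻¹ = y⁻¹ * f y * v * (y⁻¹ * f y)⁻¹ * v⁻¹ := by group
    rwa [h5] at h4
  have h6 := hV.conj_mem _ hd y
  have h7 : y * (y⁻¹ * f y) * y⁻¹ = f y * y⁻¹ := by group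
  rwa [h7] at h6


/-- Finite quotients where the last point dies. -/
theorem big_any (hN : 1 ≤ ν ∨ 3 ≤ N) (e : Fin N → ℕ) (he : ∀ j, 2 ≤ e j) :
    ∃ U : Subgroup (FG ν N), U.Normal ∧ U.FiniteIndex ∧ (∀ j, xg j ^ e j ∈ U) ∧ xn ν N ∈ U ∧
      ∀ (j : Fin N) (k : ℕ), (xg j : FG ν N) ^ k ∈ U → e j ∣ k := by
  by_cases h : 1 ≤ ν ∨ 4 ≤ N
  · obtain ⟨U, h1, h2, h3, h4, h5, -⟩ := big (h := ν) h e he 1 one_pos
    exact ⟨U, h1, h2, h3, h4, h5⟩
  · push Not at h
    obtain ⟨h1, h2⟩ := h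
    obtain rfl : ν = 0 := by omega
    obtain rfl : N = 3 := by omega
    exact big3 e he

/-- Finite quotients where one of the points dies and the others do not. -/
theorem big_pt (hN : 1 ≤ ν ∨ 3 ≤ N) (e : Fin (N + 1) → ℕ) (he : ∀ j, 2 ≤ e j)
    (i : Fin (N + 1)) :
    ∃ U : Subgroup (FG ν N), U.Normal ∧ U.FiniteIndex ∧ (∀ j, per j ^ e j ∈ U) ∧ per i ∈ U ∧
      ∀ j, j ≠ i → per j ∉ U := by
  obtain ⟨σ, hσ'⟩ := exists_rotc (ν := ν) (Fin.last N - i)
  choose u hσ using hσ'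
  have hper : ∀ (W : Subgroup (FG ν N)), W.Normal → ∀ (j : Fin (N + 1)) (k : ℕ),
      σ (per j ^ k) ∈ W ↔ per (j + (Fin.last N - i)) ^ k ∈ W := by
    intro W hW j k
    rw [map_pow, hσ, conj_pow]
    constructor
    · intro h
      have h2 := hW.conj_mem _ h (u j)⁻¹
      have h3 : (u j)⁻¹ * (u j * per (j + (Fin.last N - i)) ^ k * (u j)⁻¹) * (u j)⁻¹⁻¹ =
          per (j + (Fin.last N - i)) ^ k := by group
      rwa [h3] at h2
    · intro h
      exact hW.conj_mem _ h (u j)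
  obtain ⟨U, h1, h2, h3, h4, h5⟩ := big_any (ν := ν) hN
    (fun j : Fin N => e (j.castSucc - (Fin.last N - i))) (fun _ => he _)
  have hmem : ∀ z, z ∈ U.comap σ.toMonoidHom ↔ σ z ∈ U := fun z => Iff.rfl
  have h6 : ∀ j : Fin (N + 1), j + (Fin.last N - i) = Fin.last N ∨
      ∃ k : Fin N, j + (Fin.last N - i) = k.castSucc := by
    intro j
    exact Fin.lastCases (motive := fun x => x = Fin.last N ∨ ∃ k : Fin N, x = k.castSucc)
      (Or.inl rfl) (fun k => Or.inr ⟨k, rfl⟩) (j + (Fin.last N - i))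
  refine ⟨U.comap σ.toMonoidHom, h1.comap _, ?_, fun j => ?_, ?_, fun j hj => ?_⟩
  · exact ⟨by rw [Subgroup.index_comap_of_surjective U σ.surjective]; exact h2.index_ne_zero⟩
  · rw [hmem, hper U h1]
    rcases h6 j with h7 | ⟨k, h7⟩
    · rw [h7, per_last]
      exact U.pow_mem h4 _
    · have h8 := h3 k
      have h9 : j = k.castSucc - (Fin.last N - i) := eq_sub_of_add_eq h7
      rw [← h9] at h8
      rw [h7, per_castSucc]
      exact h8
  · have h7 := (hper U h1 i 1).2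
    rw [pow_one, pow_one] at h7
    rw [hmem]
    refine h7 ?_
    have h8 : i + (Fin.last N - i) = Fin.last N := add_sub_cancel _ _
    rw [h8, per_last]
    exact h4
  · have h7 := (hper U h1 j 1).1
    rw [pow_one, pow_one] at h7
    rw [hmem]
    intro h8
    have h9 := h7 h8
    rcases h6 j with h10 | ⟨k, h10⟩
    · refine hj ?_
      rw [eq_sub_of_add_eq h10, sub_sub_cancel]
    · rw [h10, per_castSucc] at h9
      have h12 := h5 k 1 (by rwa [pow_one])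
      have h13 := he (k.castSucc - (Fin.last N - i))
      have h14 := Nat.le_of_dvd one_pos h12
      omega


end Pool.MP_59b15d_al.SymH
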