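import Mathlib
import Pool.Agent.H.MP_59b15d_al.symh.Pt
import Pool.Agent.H.MP_59b15d_al.h77t.Fh
import Pool.Agent.H.MP_59b15d_al.h95h.Mhq
import Pool.Agent.H.MP_59b15d_al.h76r.Sd

set_option autoImplicit false

/-!
Four branch points on the sphere.
-/

namespace Pool.MP_59b15d_al.SymH

open Pool.MP_59b15d_al
open Pool.MP_59b15d_al.Sym (Gg cW)

theorem sum3_le (e : Fin 3 → ℕ) (he : ∀ j, 2 ≤ e j) : ∑ j, (1 / e j : ℚ) ≤ 3 / 2 := by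
  calc ∑ j, (1 / e j : ℚ) ≤ ∑ j : Fin 3, (1 / 2 : ℚ) := by
        refine Finset.sum_le_sum fun j _ => ?_
        have h4 : (2 : ℚ) ≤ e j := by exact_mod_cast he j
        exact one_div_le_one_div_of_le (by norm_num) h4
    _ = 3 / 2 := by
        rw [Finset.sum_const, Finset.card_univ, Fintype.card_fin, nsmul_eq_mul]
        norm_num

/-- (FAITH, all points but the last killed), three points. -/
theorem faithB3 (e : Fin 3 → ℕ) (he : ∀ j, 2 ≤ e j)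
    (V : Subgroup (FG 0 3)) (hV : V.Normal) (hVf : V.FiniteIndex) (h1 : ∀ j, xg j ^ e j ∈ V)
    (o1 : ∀ (j : Fin 3) (k : ℕ), (xg j : FG 0 3) ^ k ∈ V → e j ∣ k) :
    ∃ U : Subgroup (FG 0 3), U.Normal ∧ U.FiniteIndex ∧ U ≤ V ∧ (∀ j, xg j ^ e j ∈ U) ∧
      ∀ d : FG 0 3, (∀ v ∈ V, d * v * d⁻¹ * v⁻¹ ∈ U) → d ∈ V := by
  refine faithBg e he ?_ (fun M hM => ?_) V hV hVf h1 o1
  · have := sum3_le e he
    push_cast
    linarith
  · obtain ⟨U, u1, u2, u3, u4, u5⟩ := big3 e he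
    obtain ⟨K, a1, a2, -, a4, -, a6⟩ := ord_of_big e U u1 u2 u3 u4 (by
      rintro rfl
      have h2 := u5 0 1 (Subgroup.mem_top _)
      have h3 := he 0
      have h4 := Nat.le_of_dvd one_pos h2
      omega) M hM
    exact ⟨K, a1, a2, a4, a6⟩

/-- The statements needed for the surface of genus `p` with `s + 1` punctures. -/
def StepsP (p s m : ℕ) : Prop :=
  (∀ V : Subgroup (FG p s), V.Normal → V.FiniteIndex → ∀ G₀ : Subgroup (FG p s), G₀.Normal →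
    G₀.FiniteIndex → Rel p (fun _ : Fin (s + 1) => m) ≤ G₀ →
    ∃ Γ : Subgroup (FG p s), Γ.Normal ∧ Γ.FiniteIndex ∧ Rel p (fun _ : Fin (s + 1) => m) ≤ Γ ∧
      ∀ f ∈ CP p s, (∀ z, f z * z⁻¹ ∈ Γ) → ∃ v ∈ G₀, InnOn V ⊤ f v) ∧
  ∀ i : Fin (s + 1), ∃ U : Subgroup (FG p s), U.Normal ∧ U.FiniteIndex ∧ (∀ j, per j ^ m ∈ U) ∧
    per i ∈ U ∧ ∀ j, j ≠ i → per j ∉ U

theorem step_via (e : Fin 3 → ℕ) (he : ∀ j, 2 ≤ e j) (m : ℕ)
    (hst : ∀ A p s : ℕ, A ≤ s + 1 → (2 * p - 2 : ℚ) = A * (1 - ∑ j, (1 / e j : ℚ)) → StepsP p s m)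
    (V : Subgroup (FG 0 3)) (hV : V.Normal) (hVf : V.FiniteIndex)
    (h1 : ∀ j, xg j ^ e j ∈ V) (G₀ : Subgroup (FG 0 3)) (hG : G₀.Normal)
    (hGf : G₀.FiniteIndex) (g1 : ∀ j, xg j ^ e j ∈ G₀) (g2 : xn 0 3 ^ m ∈ G₀) :
    ∃ Γ : Subgroup (FG 0 3), Γ.Normal ∧ Γ.FiniteIndex ∧ (∀ j, xg j ^ e j ∈ Γ) ∧
      xn 0 3 ^ m ∈ Γ ∧
      ∀ f ∈ CP 0 3, (∀ z, f z * z⁻¹ ∈ Γ) → ∃ v ∈ G₀, InnOn V ⊤ f v := by
  classical
  obtain ⟨F₁, k1, k2, k3, k4, k5⟩ := big3 e he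
  obtain ⟨g₀, s, g, hg, hg₀, hgg⟩ := H95H.exists_reps F₁ k1 k2
  obtain ⟨p, J, hJs, hJk, hJ0, hJi, hJp⟩ := H95H.mfFull (by norm_num) e
    (fun j => le_trans (by norm_num) (he j)) F₁ k1 k2 k3 k5 1 le_rfl (by rwa [pow_one])
    (fun k _ => one_dvd k) g₀ s g hg hg₀ hgg
  -- representatives of the faces
  set x := xn 0 3 with hx
  have hxz : ∀ (z : FG 0 3) (a : ℤ) (y : FG 0 3), z * x ^ a * y⁻¹ ∈ F₁ → z * y⁻¹ ∈ F₁ := by
    intro z a y h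
    have h2 := k1.conj_mem _ (F₁.zpow_mem k4 (-a)) z
    have h3 := F₁.mul_mem h2 h
    have h4 : z * x ^ (-a) * z⁻¹ * (z * x ^ a * y⁻¹) = z * y⁻¹ := by group
    rwa [h4] at h3
  let r : Fin (s + 1) → FG 0 3 := Fin.lastCases g₀ g
  have hrl : r (Fin.last s) = g₀ := by simp [r]
  have hrc : ∀ i : Fin s, r i.castSucc = g i := fun i => by simp [r]
  have hr : ∀ z : FG 0 3, ∃ i, z * (r i)⁻¹ ∈ F₁ := by
    intro z
    rcases hg z with ⟨a, ha⟩ | ⟨i, a, ha⟩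
    · exact ⟨Fin.last s, by rw [hrl]; exact hxz _ _ _ ha⟩
    · exact ⟨i.castSucc, by rw [hrc]; exact hxz _ _ _ ha⟩
  have hcard : F₁.index ≤ s + 1 := by
    have h2 : Function.Surjective fun i : Fin (s + 1) => ((r i : FG 0 3) : FG 0 3 ⧸ F₁) := by
      intro y
      obtain ⟨z, rfl⟩ := QuotientGroup.mk_surjective y
      obtain ⟨i, hi⟩ := hr z
      refine ⟨i, ?_⟩
      rw [QuotientGroup.eq]
      have h3 := k1.conj_mem _ hi (r i)⁻¹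
      have h4 : (r i)⁻¹ * (z * (r i)⁻¹) * (r i)⁻¹⁻¹ = (r i)⁻¹ * z := by group
      rwa [h4] at h3
    have h3 := Nat.card_le_card_of_surjective _ h2
    rw [Nat.card_fin] at h3
    exact h3
  obtain ⟨hst1, hst2⟩ := hst F₁.index p s hcard (by
    rw [hJp]
    push_cast
    ring)
  have hcF : ∀ h : FG 0 3, h * x * h⁻¹ ∈ F₁ := fun h => k1.conj_mem _ k4 h
  have hω' : ∀ i, ∃ w : Gg p s, J ⟨r i * x * (r i)⁻¹, hcF (r i)⟩ = w * per i * w⁻¹ := by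
    intro i
    refine Fin.lastCases ?_ (fun i => ?_) i
    · refine ⟨1, ?_⟩
      have h2 : ((⟨r (Fin.last s) * x * (r (Fin.last s))⁻¹, hcF (r (Fin.last s))⟩ : ↥F₁) :
          FG 0 3) = g₀ * x ^ 1 * g₀⁻¹ := by
        rw [pow_one]
        change r (Fin.last s) * x * (r (Fin.last s))⁻¹ = _
        rw [hrl]
      rw [hJ0 _ h2, per_last, xn]
      group
    · have h2 : ((⟨r i.castSucc * x * (r i.castSucc)⁻¹, hcF (r i.castSucc)⟩ : ↥F₁) :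
          FG 0 3) = g i * x ^ 1 * (g i)⁻¹ := by
        rw [pow_one]
        change r i.castSucc * x * (r i.castSucc)⁻¹ = _
        rw [hrc]
      rw [per_castSucc]
      exact hJi i _ h2
  choose ω hω using hω'
  -- every conjugate of `x` is conjugate to a representative
  have hface : ∀ (W : Subgroup (Gg p s)), W.Normal → ∀ (h : FG 0 3) (i : Fin (s + 1)) (k : ℕ),
      h * (r i)⁻¹ ∈ F₁ → (J ⟨h * x * h⁻¹, hcF h⟩ ^ k ∈ W ↔ per i ^ k ∈ W) := by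
    intro W hW h i k hi
    have h2 : (⟨h * x * h⁻¹, hcF h⟩ : ↥F₁) = ⟨h * (r i)⁻¹, hi⟩ * ⟨r i * x * (r i)⁻¹, hcF (r i)⟩ *
        (⟨h * (r i)⁻¹, hi⟩)⁻¹ := by
      ext
      change h * x * h⁻¹ = h * (r i)⁻¹ * (r i * x * (r i)⁻¹) * (h * (r i)⁻¹)⁻¹
      group
    rw [h2, map_mul, map_mul, map_inv, hω]
    set a := J ⟨h * (r i)⁻¹, hi⟩
    have h3 : a * (ω i * per i * (ω i)⁻¹) * a⁻¹ = (a * ω i) * per i * (a * ω i)⁻¹ := by group
    rw [h3, conj_pow]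
    constructor
    · intro h4
      have h5 := hW.conj_mem _ h4 (a * ω i)⁻¹
      have h6 : (a * ω i)⁻¹ * (a * ω i * per i ^ k * (a * ω i)⁻¹) * (a * ω i)⁻¹⁻¹ =
          per i ^ k := by group
      rwa [h6] at h5
    · intro h4
      exact hW.conj_mem _ h4 (a * ω i)
  -- faithfulness
  obtain ⟨U, hUn, hUf, hUV, hU1, hU⟩ := faithB3 e he (V ⊓ F₁) inferInstance inferInstance
    (fun j => ⟨h1 j, k3 j⟩) (fun j k h => k5 j k h.2)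
  have hRelle : ∀ W : Subgroup (FG 0 3), W.Normal → (∀ j, xg j ^ e j ∈ W) → Rel' 0 e ≤ W :=
    fun W hW h => Rel'_le fun j g => hW.conj_mem _ (h j) g
  -- images
  have himg : ∀ W : Subgroup (FG 0 3), W.Normal → W.FiniteIndex → (∀ j, xg j ^ e j ∈ W) →
      ((W.subgroupOf F₁).map J).Normal ∧ ((W.subgroupOf F₁).map J).FiniteIndex ∧
      ∀ z : ↥F₁, J z ∈ (W.subgroupOf F₁).map J ↔ (z : FG 0 3) ∈ W := by
    intro W hWn hWf hWe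
    refine ⟨(hWn.subgroupOf F₁).map J hJs, ?_, fun z => ?_⟩
    · rw [Subgroup.finiteIndex_iff]
      refine ne_zero_of_dvd_ne_zero ?_ (Subgroup.index_map_dvd (W.subgroupOf F₁) hJs)
      exact Subgroup.FiniteIndex.index_ne_zero
    · constructor
      · rintro ⟨u, hu, hz⟩
        have h2 : J (z * u⁻¹) = 1 := by rw [map_mul, map_inv, hz, mul_inv_cancel]
        have h3 := hRelle W hWn hWe ((hJk _).1 h2)
        have h4 := W.mul_mem h3 hu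
        simpa using h4
      · intro hz
        exact ⟨z, hz, rfl⟩
  obtain ⟨hUG1, hUG2, hUG3⟩ := himg U hUn hUf hU1
  obtain ⟨hGG1, hGG2, hGG3⟩ := himg G₀ hG hGf g1
  set UG := (U.subgroupOf F₁).map J with hUG
  set GG := (G₀.subgroupOf F₁).map J with hGG
  have hpw : ∀ (h : FG 0 3) (k : ℕ), (h * x * h⁻¹) ^ k = h * x ^ k * h⁻¹ := fun h k => conj_pow
  obtain ⟨Γ₁, hΓ₁n, hΓ₁f, hΓ₁r, hΓ₁⟩ := hst1 UG hUG1 hUG2 GG hGG1 hGG2 (by
    rw [rel_le_iff _ GG hGG1]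
    intro i
    rw [← hface GG hGG1 (r i) i m (by rw [mul_inv_cancel]; exact F₁.one_mem), ← map_pow, hGG3]
    change (r i * x * (r i)⁻¹) ^ m ∈ G₀
    rw [hpw]
    exact hG.conj_mem _ g2 _)
  obtain ⟨i₀, hi₀⟩ := hr 1
  obtain ⟨U₂, hU₂n, hU₂f, hU₂m, hU₂i, hU₂j⟩ := hst2 i₀
  -- the level
  set ΓG := Γ₁ ⊓ U₂ with hΓG
  have hΓGn : ΓG.Normal := inferInstance
  have hΓGf : ΓG.FiniteIndex := inferInstance
  set Γs : Subgroup (FG 0 3) := (ΓG.comap J).map F₁.subtype with hΓs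
  have hΓsm : ∀ z, z ∈ Γs ↔ ∃ hz : z ∈ F₁, J ⟨z, hz⟩ ∈ ΓG := by
    intro z
    constructor
    · rintro ⟨y, hy, rfl⟩
      exact ⟨y.2, hy⟩
    · rintro ⟨hz, hy⟩
      exact ⟨⟨z, hz⟩, hy, rfl⟩
  have hΓsf : Γs.FiniteIndex := by
    rw [Subgroup.finiteIndex_iff, hΓs, Subgroup.index_map_subtype,
      Subgroup.index_comap_of_surjective _ hJs]
    exact mul_ne_zero hΓGf.index_ne_zero k2.index_ne_zero
  have hΓF : Γs.normalCore ≤ F₁ := fun z hz => ((hΓsm z).1 (Γs.normalCore_le hz)).1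
  have hperm : ∀ i, per i ^ m ∈ ΓG := fun i => ⟨(rel_le_iff _ Γ₁ hΓ₁n).1 hΓ₁r i, hU₂m i⟩
  refine ⟨Γs.normalCore, inferInstance, inferInstance, fun j => ?_, ?_, fun f hf hfz => ?_⟩
  · intro d
    have h2 : d * xg j ^ e j * d⁻¹ ∈ Rel' 0 e := by
      have h0 : (Rel' 0 e).Normal := Subgroup.normalClosure_normal
      exact h0.conj_mem _ (Subgroup.subset_normalClosure
        (s := Set.range fun j => xg j ^ e j) ⟨j, rfl⟩) d
    have h3 : d * xg j ^ e j * d⁻¹ ∈ F₁ := k1.conj_mem _ (k3 j) d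
    refine (hΓsm _).2 ⟨h3, ?_⟩
    rw [(hJk ⟨_, h3⟩).2 h2]
    exact ΓG.one_mem
  · intro d
    obtain ⟨i, hi⟩ := hr d
    have h2 := (hface ΓG hΓGn d i m hi).2 (hperm i)
    have h3 : d * x ^ m * d⁻¹ ∈ F₁ := by
      rw [← hpw]
      exact F₁.pow_mem (hcF d) m
    refine (hΓsm _).2 ⟨h3, ?_⟩
    rw [← map_pow] at h2
    have h4 : (⟨d * x * d⁻¹, hcF d⟩ : ↥F₁) ^ m = ⟨d * x ^ m * d⁻¹, h3⟩ := by
      ext
      exact hpw d m
    rwa [h4] at h2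
  -- the automorphisms
  have hfF : ∀ z, f z * z⁻¹ ∈ F₁ := fun z => hΓF (hfz z)
  have hfG : ∀ (z : FG 0 3) (hz : z ∈ F₁) (hz' : f z ∈ F₁),
      J ⟨f z, hz'⟩ * (J ⟨z, hz⟩)⁻¹ ∈ ΓG := by
    intro z hz hz'
    obtain ⟨h2, h3⟩ := (hΓsm _).1 (Γs.normalCore_le (hfz z))
    have h4 : (⟨f z * z⁻¹, h2⟩ : ↥F₁) = ⟨f z, hz'⟩ * (⟨z, hz⟩ : ↥F₁)⁻¹ := by
      ext
      rfl
    rw [h4, map_mul, map_inv] at h3
    exact h3
  have hfF1 : ∀ z, f z ∈ F₁ ↔ z ∈ F₁ := by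
    intro z
    constructor
    · intro h
      have h2 := F₁.mul_mem (F₁.inv_mem (hfF z)) h
      simpa using h2
    · intro h
      have h2 := F₁.mul_mem (hfF z) h
      simpa using h2
  obtain ⟨w, hw⟩ := hf (Fin.last 3)
  rw [per_last, ← hx] at hw
  have hwF : w ∈ F₁ := by
    obtain ⟨i, hi⟩ := hr w
    have hri0 : r i₀ ∈ F₁ := by
      have h2 := F₁.inv_mem hi₀
      simpa using h2
    by_cases hii : i = i₀
    · rw [hii] at hi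
      have h2 := F₁.mul_mem hi hri0
      simpa using h2
    · exfalso
      refine hU₂j i hii ?_
      have h2 := (hfG x k4 ((hfF1 x).2 k4)).2
      have h3 : (⟨f x, (hfF1 x).2 k4⟩ : ↥F₁) = ⟨w * x * w⁻¹, hcF w⟩ := by
        ext
        exact hw
      rw [h3] at h2
      have h4 : J ⟨x, k4⟩ ∈ U₂ := by
        have h5 := (hface U₂ hU₂n 1 i₀ 1 hi₀).2 (by rwa [pow_one])
        rw [pow_one] at h5
        have h6 : (⟨1 * x * 1⁻¹, hcF 1⟩ : ↥F₁) = ⟨x, k4⟩ := by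
          ext
          change 1 * x * 1⁻¹ = x
          group
        rwa [h6] at h5
      have h5 := U₂.mul_mem h2 h4
      rw [inv_mul_cancel_right] at h5
      have h6 := (hface U₂ hU₂n w i 1 hi).1 (by rwa [pow_one])
      rwa [pow_one] at h6
  obtain ⟨α, hα⟩ := restr F₁ f hfF1
  obtain ⟨φ, hφ⟩ := descend J hJs α fun z => by
    rw [hJk, hJk, hα]
    exact Rel'_iff hf e z
  have hφz : ∀ z, φ z * z⁻¹ ∈ ΓG := by
    intro z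
    obtain ⟨y, rfl⟩ := hJs z
    have h2 := hfG y y.2 ((hfF1 _).2 y.2)
    have h3 : (⟨f y, (hfF1 _).2 y.2⟩ : ↥F₁) = α y := by
      ext
      rw [hα]
    rw [h3] at h2
    rw [hφ]
    exact h2
  have hφC : φ ∈ CP p s := by
    intro i
    have hu : f (r i) * w * (r i)⁻¹ ∈ F₁ := by
      have h2 := F₁.mul_mem (hfF (r i)) (k1.conj_mem _ hwF (r i))
      have h3 : f (r i) * (r i)⁻¹ * (r i * w * (r i)⁻¹) = f (r i) * w * (r i)⁻¹ := by group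
      rwa [h3] at h2
    have h1' : α ⟨r i * x * (r i)⁻¹, hcF (r i)⟩ = ⟨f (r i) * w * (r i)⁻¹, hu⟩ *
        ⟨r i * x * (r i)⁻¹, hcF (r i)⟩ * (⟨f (r i) * w * (r i)⁻¹, hu⟩)⁻¹ := by
      ext
      rw [hα]
      change f (r i * x * (r i)⁻¹) = f (r i) * w * (r i)⁻¹ * (r i * x * (r i)⁻¹) *
        (f (r i) * w * (r i)⁻¹)⁻¹
      rw [map_mul, map_mul, map_inv, hw]
      group
    set u := J ⟨f (r i) * w * (r i)⁻¹, hu⟩ with hud
    have h2 := hφ ⟨r i * x * (r i)⁻¹, hcF (r i)⟩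
    rw [h1', map_mul J, map_mul J, map_inv J, ← hud, hω, map_mul, map_mul, map_inv] at h2
    refine ⟨(φ (ω i))⁻¹ * u * ω i, ?_⟩
    have h3 : φ (per i) = (φ (ω i))⁻¹ * (φ (ω i) * φ (per i) * (φ (ω i))⁻¹) * φ (ω i) := by
      group
    rw [h3, h2]
    group
  obtain ⟨v₁, hv₁, hφv⟩ := hΓ₁ φ hφC fun z => (hφz z).1
  obtain ⟨v, hv, rfl⟩ := hv₁
  have hvG : (v : FG 0 3) ∈ G₀ := hv
  have hfv : ∀ y ∈ F₁, f y * (v * y * (v : FG 0 3)⁻¹)⁻¹ ∈ U := by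
    intro y hy
    have h2 := hφv (J ⟨y, hy⟩) (Subgroup.mem_top _)
    rw [hφ, ← map_inv, ← map_mul, ← map_mul, ← map_inv, ← map_mul, hUG3] at h2
    have h3 : ((α ⟨y, hy⟩ * (v * ⟨y, hy⟩ * v⁻¹)⁻¹ : ↥F₁) : FG 0 3) =
        f y * (v * y * (v : FG 0 3)⁻¹)⁻¹ := by
      simp only [Subgroup.coe_mul, Subgroup.coe_inv, hα]
    rwa [h3] at h2
  refine ⟨v, hvG, fun y _ => ?_⟩
  have h2 := faith_use (V := V ⊓ F₁) (U := U) inferInstance hUn hU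
    (MulAut.conj (v : FG 0 3)⁻¹ * f) (fun y hy => by
      change (v : FG 0 3)⁻¹ * f y * (v : FG 0 3)⁻¹⁻¹ * y⁻¹ ∈ U
      have h3 := hUn.conj_mem _ (hfv y hy.2) (v : FG 0 3)⁻¹
      have h4 : (v : FG 0 3)⁻¹ * (f y * (v * y * (v : FG 0 3)⁻¹)⁻¹) * (v : FG 0 3)⁻¹⁻¹ =
          (v : FG 0 3)⁻¹ * f y * (v : FG 0 3)⁻¹⁻¹ * y⁻¹ := by group
      rwa [h4] at h3) y
  have h3 := hV.conj_mem _ h2.1 (v : FG 0 3)
  have h4 : (v : FG 0 3) * ((MulAut.conj (v : FG 0 3)⁻¹ * f) y * y⁻¹) * (v : FG 0 3)⁻¹ =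
      f y * (v * y * (v : FG 0 3)⁻¹)⁻¹ := by
    change (v : FG 0 3) * ((v : FG 0 3)⁻¹ * f y * (v : FG 0 3)⁻¹⁻¹ * y⁻¹) * (v : FG 0 3)⁻¹ = _
    group
  rwa [h4] at h3

end Pool.MP_59b15d_al.SymH
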