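import Mathlib
import Pool.Agent.H.MP_59b15d_al.symh.Three
import Pool.Agent.H.MP_59b15d_al.symh.StepG
import Pool.Agent.H.MP_59b15d_al.h76r.Sd

set_option autoImplicit false

/-!
Four branch points on the sphere: the steps.
-/

namespace Pool.MP_59b15d_al.SymH

open Pool.MP_59b15d_al
open Pool.MP_59b15d_al.Sym (Gg cW)

theorem stepsP_of {p s m : ℕ} (hm : 2 ≤ m) (h : 1 ≤ p ∨ 4 ≤ s) : StepsP p s m := by
  refine ⟨fun V hV hVf G₀ hG hGf hR => ?_, fun i => ?_⟩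
  · exact steps h (fun _ => m) (fun _ => hm) V hV hVf G₀ hG hGf hR
  · exact big_pt (h.imp id (le_trans (by norm_num))) (fun _ => m) (fun _ => hm) i

/-- Not all of the first three points have order two. -/
theorem step3_a (e : Fin 3 → ℕ) (he : ∀ j, 2 ≤ e j) (hne : ∃ j, 3 ≤ e j) (m : ℕ) (hm : 2 ≤ m)
    (V : Subgroup (FG 0 3)) (hV : V.Normal) (hVf : V.FiniteIndex)
    (h1 : ∀ j, xg j ^ e j ∈ V) (G₀ : Subgroup (FG 0 3)) (hG : G₀.Normal)
    (hGf : G₀.FiniteIndex) (g1 : ∀ j, xg j ^ e j ∈ G₀) (g2 : xn 0 3 ^ m ∈ G₀) :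
    ∃ Γ : Subgroup (FG 0 3), Γ.Normal ∧ Γ.FiniteIndex ∧ (∀ j, xg j ^ e j ∈ Γ) ∧
      xn 0 3 ^ m ∈ Γ ∧
      ∀ f ∈ CP 0 3, (∀ z, f z * z⁻¹ ∈ Γ) → ∃ v ∈ G₀, InnOn V ⊤ f v := by
  refine step_via e he m (fun A p s hA hp => stepsP_of hm ?_) V hV hVf h1 G₀ hG hGf g1 g2
  by_contra hcon
  push Not at hcon
  obtain ⟨h2, h3⟩ := hcon
  obtain rfl : p = 0 := by omega
  have hS : ∑ j, (1 / e j : ℚ) ≤ 4 / 3 := by
    obtain ⟨i, hi⟩ := hne
    rw [← Finset.add_sum_erase _ _ (Finset.mem_univ i)]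
    have h4 : (1 / e i : ℚ) ≤ 1 / 3 := by
      have h5 : (3 : ℚ) ≤ e i := by exact_mod_cast hi
      exact one_div_le_one_div_of_le (by norm_num) h5
    have h6 : ∑ j ∈ Finset.univ.erase i, (1 / e j : ℚ) ≤
        ∑ j ∈ Finset.univ.erase i, (1 / 2 : ℚ) := by
      refine Finset.sum_le_sum fun j _ => ?_
      have h4 : (2 : ℚ) ≤ e j := by exact_mod_cast he j
      exact one_div_le_one_div_of_le (by norm_num) h4
    rw [Finset.sum_const, Finset.card_erase_of_mem (Finset.mem_univ i), Finset.card_univ,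
      Fintype.card_fin, nsmul_eq_mul] at h6
    push_cast at h6
    linarith
  have hA0 : (0 : ℚ) ≤ A := Nat.cast_nonneg A
  have hA4 : (A : ℚ) ≤ 4 := by
    have : A ≤ 4 := by omega
    exact_mod_cast this
  push_cast at hp
  nlinarith

theorem sl3_a (e : Fin 4 → ℕ) (he : ∀ j, e j ≠ 1) (hi : e (Fin.last 3) ≠ 0)
    (hne : ∃ j : Fin 3, e j.castSucc ≠ 2) : SL 0 3 e (Fin.last 3) := by
  classical
  intro V hV hVf h1 G₀ hG hGf hR
  set W := V ⊓ G₀ with hW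
  have hWn : W.Normal := inferInstance
  have hWf : W.FiniteIndex := inferInstance
  have hR' := (rel_le_iff e G₀ hG).1 hR
  set e' : Fin 3 → ℕ := fun j => if e j.castSucc = 0 then 3 * W.index else e j.castSucc with he'
  have hWi : W.index ≠ 0 := hWf.index_ne_zero
  have he2 : ∀ j, 2 ≤ e' j := by
    intro j
    simp only [he']
    split_ifs with h
    · omega
    · have := he j.castSucc
      omega
  have hne' : ∃ j, 3 ≤ e' j := by
    obtain ⟨j, hj⟩ := hne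
    refine ⟨j, ?_⟩
    simp only [he']
    split_ifs with h
    · omega
    · have := he j.castSucc
      omega
  have hW' : ∀ j : Fin 3, xg j ^ e' j ∈ W := by
    intro j
    simp only [he']
    split_ifs with h
    · rw [mul_comm, pow_mul]
      exact W.pow_mem (W.pow_index_mem _) 3
    · rw [← per_castSucc]
      exact ⟨h1 _ (Fin.castSucc_lt_last j).ne, hR' _⟩
  obtain ⟨Γ, hΓn, hΓf, p1, p2, hΓ⟩ := step3_a e' he2 hne' (e (Fin.last 3)) (by
      have := he (Fin.last 3)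
      omega) V hV hVf (fun j => (hW' j).1) G₀ hG hGf (fun j => (hW' j).2) (by
      have := hR' (Fin.last 3)
      rwa [per_last] at this)
  refine ⟨Γ, hΓn, hΓf, (rel_le_iff e Γ hΓn).2 fun j => ?_, hΓ⟩
  refine Fin.lastCases ?_ (fun j => ?_) j
  · rwa [per_last]
  · by_cases h : e j.castSucc = 0
    · rw [h, pow_zero]
      exact Γ.one_mem
    · have h3 := p1 j
      simp only [he', if_neg h] at h3
      rwa [per_castSucc]

/-- All four points have order at least three. -/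
theorem steps3_a (e : Fin 4 → ℕ) (he : ∀ j, 3 ≤ e j) (V : Subgroup (FG 0 3))
    (hV : V.Normal) (hVf : V.FiniteIndex) (G₀ : Subgroup (FG 0 3)) (hG : G₀.Normal)
    (hGf : G₀.FiniteIndex) (hR : Rel 0 e ≤ G₀) :
    ∃ Γ : Subgroup (FG 0 3), Γ.Normal ∧ Γ.FiniteIndex ∧ Rel 0 e ≤ Γ ∧
      ∀ f ∈ CP 0 3, (∀ z, f z * z⁻¹ ∈ Γ) → ∃ v ∈ G₀, InnOn V ⊤ f v := by
  refine steps_gen e (fun S i hi => step_rot _ i (sl3_a _ (fun j => ?_) ?_ ⟨0, ?_⟩)) V hV hVf G₀ hG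
    hGf hR
  · have := he (j + (i + 1))
    split_ifs <;> omega
  · have hlast : Fin.last 3 + (i + 1) = i := by
      rw [add_comm i 1, ← add_assoc, Fin.last_add_one, zero_add]
    simp only [hlast, Finset.mem_insert_self, if_true]
    have := he i
    omega
  · have := he ((Fin.castSucc 0 : Fin 4) + (i + 1))
    split_ifs <;> omega

theorem stepsP_three {m : ℕ} (hm : 3 ≤ m) : StepsP 0 3 m :=
  ⟨fun V hV hVf G₀ hG hGf hR => steps3_a (fun _ => m) (fun _ => hm) V hV hVf G₀ hG hGf hR,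
    fun i => big_pt (Or.inr le_rfl) (fun _ => m) (fun _ => by omega) i⟩

/-- The first three points have order two. -/
theorem step3_b (e : Fin 3 → ℕ) (he : ∀ j, e j = 2) (m : ℕ) (hm : 3 ≤ m)
    (V : Subgroup (FG 0 3)) (hV : V.Normal) (hVf : V.FiniteIndex)
    (h1 : ∀ j, xg j ^ e j ∈ V) (G₀ : Subgroup (FG 0 3)) (hG : G₀.Normal)
    (hGf : G₀.FiniteIndex) (g1 : ∀ j, xg j ^ e j ∈ G₀) (g2 : xn 0 3 ^ m ∈ G₀) :
    ∃ Γ : Subgroup (FG 0 3), Γ.Normal ∧ Γ.FiniteIndex ∧ (∀ j, xg j ^ e j ∈ Γ) ∧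
      xn 0 3 ^ m ∈ Γ ∧
      ∀ f ∈ CP 0 3, (∀ z, f z * z⁻¹ ∈ Γ) → ∃ v ∈ G₀, InnOn V ⊤ f v := by
  refine step_via e (fun j => (he j).ge) m (fun A p s hA hp => ?_) V hV hVf h1 G₀ hG hGf g1 g2
  by_cases hps : 1 ≤ p ∨ 4 ≤ s
  · exact stepsP_of (by omega) hps
  push Not at hps
  obtain ⟨h2, h3⟩ := hps
  obtain rfl : p = 0 := by omega
  have hA4 : A = 4 := by
    simp only [he, Finset.sum_const, Finset.card_univ, Fintype.card_fin, nsmul_eq_mul] at hp
    push_cast at hp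
    have h5 : (A : ℚ) = 4 := by linarith
    exact_mod_cast h5
  obtain rfl : s = 3 := by omega
  exact stepsP_three hm

theorem sl3 (e : Fin 4 → ℕ) (he : ∀ j, e j ≠ 1) (hi : e (Fin.last 3) ≠ 0)
    (hne : ∃ j, e j ≠ 2) : SL 0 3 e (Fin.last 3) := by
  by_cases h : ∃ j : Fin 3, e j.castSucc ≠ 2
  · exact sl3_a e he hi h
  push Not at h
  have hm : 3 ≤ e (Fin.last 3) := by
    obtain ⟨j, hj⟩ := hne
    have h4 : e (Fin.last 3) ≠ 2 := by
      intro h5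
      refine hj ?_
      refine Fin.lastCases (motive := fun j => e j = 2) h5 (fun j => h j) j
    have := he (Fin.last 3)
    omega
  intro V hV hVf h1 G₀ hG hGf hR
  have hR' := (rel_le_iff e G₀ hG).1 hR
  obtain ⟨Γ, hΓn, hΓf, p1, p2, hΓ⟩ := step3_b (fun j => e j.castSucc) h (e (Fin.last 3)) hm V hV hVf
    (fun j => by
      rw [← per_castSucc]
      exact h1 _ (Fin.castSucc_lt_last j).ne) G₀ hG hGf (fun j => by
      rw [← per_castSucc]
      exact hR' _) (by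
      have := hR' (Fin.last 3)
      rwa [per_last] at this)
  refine ⟨Γ, hΓn, hΓf, (rel_le_iff e Γ hΓn).2 fun j => ?_, hΓ⟩
  refine Fin.lastCases ?_ (fun j => ?_) j
  · rwa [per_last]
  · rw [per_castSucc]
    exact p1 j

/-- Four points, not all of order two. -/
theorem steps3 (e : Fin 4 → ℕ) (he : ∀ j, 2 ≤ e j) (hne : ∃ j, 3 ≤ e j) (V : Subgroup (FG 0 3))
    (hV : V.Normal) (hVf : V.FiniteIndex) (G₀ : Subgroup (FG 0 3)) (hG : G₀.Normal)
    (hGf : G₀.FiniteIndex) (hR : Rel 0 e ≤ G₀) :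
    ∃ Γ : Subgroup (FG 0 3), Γ.Normal ∧ Γ.FiniteIndex ∧ Rel 0 e ≤ Γ ∧
      ∀ f ∈ CP 0 3, (∀ z, f z * z⁻¹ ∈ Γ) → ∃ v ∈ G₀, InnOn V ⊤ f v := by
  refine steps_gen e (fun S i hi => step_rot _ i (sl3 _ (fun j => ?_) ?_ ?_)) V hV hVf G₀ hG
    hGf hR
  · have := he (j + (i + 1))
    split_ifs <;> omega
  · have hlast : Fin.last 3 + (i + 1) = i := by
      rw [add_comm i 1, ← add_assoc, Fin.last_add_one, zero_add]
    simp only [hlast, Finset.mem_insert_self, if_true]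
    have := he i
    omega
  · obtain ⟨j, hj⟩ := hne
    refine ⟨j - (i + 1), ?_⟩
    rw [sub_add_cancel]
    split_ifs <;> omega

/-- The condition on the orders. -/
def Hyp (ν : ℕ) {N : ℕ} (e : Fin (N + 1) → ℕ) : Prop :=
  ∑ j, (1 / e j : ℚ) < 2 * ν + N - 1

theorem hyp_three {e : Fin 4 → ℕ} (he : ∀ j, 2 ≤ e j) (h : Hyp 0 e) : ∃ j, 3 ≤ e j := by
  by_contra hcon
  push Not at hcon
  have h2 : ∀ j, e j = 2 := fun j => by
    have := he j
    have := hcon j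
    omega
  unfold Hyp at h
  simp only [h2, Finset.sum_const, Finset.card_univ, Fintype.card_fin, nsmul_eq_mul] at h
  norm_num at h

variable {ν N : ℕ}

/-- (STEPS), all cases. -/
theorem steps_all (hN : 1 ≤ ν ∨ 3 ≤ N) (e : Fin (N + 1) → ℕ) (he : ∀ j, 2 ≤ e j) (hy : Hyp ν e)
    (V : Subgroup (FG ν N)) (hV : V.Normal) (hVf : V.FiniteIndex) (G₀ : Subgroup (FG ν N))
    (hG : G₀.Normal) (hGf : G₀.FiniteIndex) (hR : Rel ν e ≤ G₀) :
    ∃ Γ : Subgroup (FG ν N), Γ.Normal ∧ Γ.FiniteIndex ∧ Rel ν e ≤ Γ ∧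
      ∀ f ∈ CP ν N, (∀ z, f z * z⁻¹ ∈ Γ) → ∃ v ∈ G₀, InnOn V ⊤ f v := by
  by_cases h : 1 ≤ ν ∨ 4 ≤ N
  · exact steps h e he V hV hVf G₀ hG hGf hR
  push Not at h
  obtain ⟨h1, h2⟩ := h
  obtain rfl : ν = 0 := by omega
  obtain rfl : N = 3 := by omega
  exact steps3 e he (hyp_three he hy) V hV hVf G₀ hG hGf hR

end Pool.MP_59b15d_al.SymH
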