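import Mathlib
import Pool.Agent.H.MP_59b15d_al.symh.Defs

set_option autoImplicit false

/-!
Symmetric mapping classes of a closed surface with a finite group action.
-/

namespace Pool.MP_59b15d_al.SymH

variable {ν N : ℕ}

/-- The mapping class group of the surface with `n` marked points (orientation preserving, the points
may be permuted), acting on the free group: all automorphisms mapping, for some permutation `s` of
the points, every `x_j` to a conjugate of `x_{s j}`. -/
def MS (ν N : ℕ) : Subgroup (MulAut (FG ν N)) where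
  carrier := {f | ∃ s : Equiv.Perm (Fin (N + 1)), ∀ j, ∃ w : FG ν N,
    f (per j) = w * per (s j) * w⁻¹}
  mul_mem' := by
    rintro f g ⟨s, hf⟩ ⟨t, hg⟩
    refine ⟨s * t, fun j => ?_⟩
    obtain ⟨w, hw⟩ := hg j
    obtain ⟨v, hv⟩ := hf (t j)
    refine ⟨f w * v, ?_⟩
    rw [MulAut.mul_apply, hw, map_mul, map_mul, map_inv, hv, Equiv.Perm.mul_apply]
    group
  one_mem' := ⟨1, fun j => ⟨1, by simp⟩⟩
  inv_mem' := by
    rintro f ⟨s, hf⟩
    refine ⟨s⁻¹, fun j => ?_⟩
    obtain ⟨v, hv⟩ := hf (s⁻¹ j)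
    refine ⟨(f⁻¹ v)⁻¹, ?_⟩
    have h1 : f⁻¹ (f (per (s⁻¹ j))) = per (s⁻¹ j) := MulAut.inv_apply_self _ _ _
    rw [hv, show s (s⁻¹ j) = j from s.apply_symm_apply j, map_mul, map_mul, map_inv] at h1
    rw [← h1]
    group

/-- The mapping classes of the marked surface lifting to the covering given by `K`. -/
def PFK (K : Subgroup (FG ν N)) : Subgroup (MulAut (FG ν N)) where
  carrier := {f | f ∈ MS ν N ∧ ∀ z, f z ∈ K ↔ z ∈ K}
  mul_mem' := by
    rintro f g ⟨hf, hf'⟩ ⟨hg, hg'⟩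
    exact ⟨(MS ν N).mul_mem hf hg, fun z => (hf' (g z)).trans (hg' z)⟩
  one_mem' := ⟨(MS ν N).one_mem, fun z => Iff.rfl⟩
  inv_mem' := by
    rintro f ⟨hf, hf'⟩
    refine ⟨(MS ν N).inv_mem hf, fun z => ?_⟩
    have h1 := hf' (f⁻¹ z)
    rw [MulAut.apply_inv_self] at h1
    exact h1.symm

/-- `K` is a normal subgroup of finite index, `e j ≥ 2` is the order of `x_j` modulo `K`, and `q`
identifies `G` with `K / R_e`: the group `G` is the fundamental group of the closed surface with an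
action of `F / K`, whose quotient has genus `ν` and `N + 1` branch points of orders `e j`; the
surface is hyperbolic (`hyp`). -/
structure IsCov {G : Type*} [Group G] (K : Subgroup (FG ν N)) (e : Fin (N + 1) → ℕ)
    (q : ↥K →* G) : Prop where
  nor : K.Normal
  fin : K.FiniteIndex
  two : ∀ j, 2 ≤ e j
  ord : ∀ (j : Fin (N + 1)) (k : ℕ), (per j : FG ν N) ^ k ∈ K ↔ e j ∣ k
  sur : Function.Surjective q
  ker : ∀ z : ↥K, q z = 1 ↔ (z : FG ν N) ∈ Rel ν e
  hyp : ∑ j, (1 / e j : ℚ) < 2 * ν + N - 1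

section

variable {K : Subgroup (FG ν N)} {G : Type*} [Group G]

/-- `f` induces `φ` on `G = K / R_e`. -/
def Ind (K : Subgroup (FG ν N)) (q : ↥K →* G) (f : MulAut (FG ν N)) (φ : MulAut G) : Prop :=
  ∀ z z' : ↥K, (z' : FG ν N) = f z → φ (q z) = q z'

/-- The group of symmetric mapping classes (with the inner automorphisms): the automorphisms of `G`
induced by the mapping classes of the marked surface lifting to the covering. -/
def SS (K : Subgroup (FG ν N)) (q : ↥K →* G) : Subgroup (MulAut G) where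
  carrier := {φ | ∃ f ∈ PFK K, Ind K q f φ}
  mul_mem' := by
    rintro φ ψ ⟨f, hf, hφ⟩ ⟨g, hg, hψ⟩
    refine ⟨f * g, (PFK K).mul_mem hf hg, fun z z' hz => ?_⟩
    have h1 : g (z : FG ν N) ∈ K := (hg.2 _).2 z.2
    rw [MulAut.mul_apply, hψ z ⟨g z, h1⟩ rfl]
    exact hφ ⟨g z, h1⟩ z' hz
  one_mem' := ⟨1, (PFK K).one_mem, fun z z' hz => by
    have : z' = z := Subtype.ext hz
    rw [this]
    rfl⟩
  inv_mem' := by
    rintro φ ⟨f, hf, hφ⟩
    refine ⟨f⁻¹, (PFK K).inv_mem hf, fun z z' hz => ?_⟩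
    have h1 := hφ z' z (by rw [hz, MulAut.apply_inv_self])
    rw [← h1, MulAut.inv_apply_self]

end

/-- The congruence subgroup property of the punctured surface. -/
def HasG0 (ν N : ℕ) : Prop :=
  ∀ H : Subgroup (MulAut (FG ν N)), H.relIndex (CP ν N) ≠ 0 →
    ∃ U : Subgroup (FG ν N), U.Normal ∧ U.FiniteIndex ∧
      ∀ f ∈ CP ν N, (∀ z, f z * z⁻¹ ∈ U) → f ∈ H

end Pool.MP_59b15d_al.SymH
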