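import Mathlib
import Pool.Agent.H.MP_59b15d_al.symh.Four
import Pool.Agent.H.MP_59b15d_al.symh.Sy
import Pool.Agent.H.MP_59b15d_al.h76m.Hb
import Pool.Agent.H.MP_59b15d_al.h76m.Hd
import Pool.Agent.H.MP_59b15d_al.h76r.Sd

set_option autoImplicit false

namespace Pool.MP_59b15d_al.SymH

open Pool.MP_59b15d_al

variable {ν N : ℕ}

theorem CP_le_MS : CP ν N ≤ MS ν N := fun _ hf => ⟨1, hf⟩

section

variable {K : Subgroup (FG ν N)} {e : Fin (N + 1) → ℕ} {G : Type*} [Group G] {q : ↥K →* G}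

/-- Automorphisms which are inner modulo a deep subgroup of `G` are inner modulo a given level. -/
theorem end1 (hy : Hyp ν e) (hKn : K.Normal) (hkf : K.FiniteIndex) (he2 : ∀ j, 2 ≤ e j)
    (heK : ∀ j (k : ℕ), (per j : FG ν N) ^ k ∈ K ↔ e j ∣ k) (hq : Function.Surjective q)
    (hk : ∀ z : ↥K, q z = 1 ↔ (z : FG ν N) ∈ Rel ν e)
    (V : Subgroup (FG ν N)) (hV : V.Normal) (hVf : V.FiniteIndex)
    (hR : ∀ j, per j ^ e j ∈ V) :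
    ∃ Γ : Subgroup G, Γ.Characteristic ∧ Γ.FiniteIndex ∧
      ∀ f : MulAut (FG ν N), (∀ z, f z ∈ K ↔ z ∈ K) → ∀ φ : MulAut G,
        (∀ z z' : ↥K, (z' : FG ν N) = f z → φ (q z) = q z') →
        H76.InnMod Γ φ →
        ∃ g ∈ K, ∀ z, (MulAut.conj g⁻¹ * f) z * z⁻¹ ∈ V := by
  have hek : ∀ j, per j ^ e j ∈ K := fun j => (heK j _).2 dvd_rfl
  have heo : ∀ j (k : ℕ), per j ^ k ∈ K → e j ∣ k := fun j k h => (heK j k).1 h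
  obtain ⟨Uf, hUn, hUf, hUV, p1, hU⟩ := faith0g e he2 hy (K ⊓ V) inferInstance inferInstance
    (fun j => ⟨hek j, hR j⟩) (fun j k h => heo j k h.1)
  have hUR : Rel ν e ≤ Uf := (rel_le_iff e _ hUn).2 p1
  have hUk : Uf ≤ K := hUV.trans inf_le_left
  set Γ' : Subgroup G := (Uf.subgroupOf K).map q with hΓ'
  have hΓ'f : Γ'.FiniteIndex := H76.map_fi q hq inferInstance
  have hΓ'm : ∀ z : ↥K, q z ∈ Γ' → (z : FG ν N) ∈ Uf := by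
    rintro z ⟨u, hu, hz⟩
    have h2 : q (z * u⁻¹) = 1 := by rw [map_mul, map_inv, hz, mul_inv_cancel]
    have h3 := Uf.mul_mem (hUR ((hk _).1 h2)) hu
    simpa using h3
  have hfg : Group.FG ↥K := inferInstance
  have hGfg : Group.FG G := Group.fg_of_surjective hq
  obtain ⟨Γ, hΓc, hΓf, hΓle⟩ := H76.exists_char_le Γ' hΓ'f
  refine ⟨Γ, hΓc, hΓf, fun f hf φ hφ hin => ?_⟩
  obtain ⟨h, hh⟩ := hin
  obtain ⟨g, rfl⟩ := hq h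
  have hΓn : Γ.Normal := inferInstance
  have hf1k : ∀ z ∈ K, (MulAut.conj (g : FG ν N)⁻¹ * f) z * z⁻¹ ∈ Uf := by
    intro z hz
    have hfz : f z ∈ K := (hf z).2 hz
    have h2 := hφ ⟨z, hz⟩ ⟨f z, hfz⟩ rfl
    have h3 := hΓn.conj_mem _ (hh (q ⟨z, hz⟩)) (q g)⁻¹
    rw [h2] at h3
    have h4 : (q g)⁻¹ * (q ⟨f z, hfz⟩ * (q g * q ⟨z, hz⟩ * (q g)⁻¹)⁻¹) * (q g)⁻¹⁻¹ =
        q (g⁻¹ * ⟨f z, hfz⟩ * g⁻¹⁻¹ * (⟨z, hz⟩ : ↥K)⁻¹) := by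
      simp only [map_mul, map_inv]
      group
    rw [h4] at h3
    have h5 := hΓ'm _ (hΓle h3)
    exact h5
  exact ⟨g, g.2, fun z => (faith_use (V := K ⊓ V) (U := Uf) inferInstance hUn hU _
    (fun v hv => hf1k v hv.1) z).2⟩

/-- Mapping classes which are inner modulo a deep subgroup of `G` fix the marked points. -/
theorem pure_of_deep (hN : 1 ≤ ν ∨ 3 ≤ N) (hy : Hyp ν e) (hKn : K.Normal) (hkf : K.FiniteIndex)
    (he2 : ∀ j, 2 ≤ e j) (heK : ∀ j (k : ℕ), (per j : FG ν N) ^ k ∈ K ↔ e j ∣ k)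
    (hq : Function.Surjective q) (hk : ∀ z : ↥K, q z = 1 ↔ (z : FG ν N) ∈ Rel ν e) :
    ∃ Γ : Subgroup G, Γ.Characteristic ∧ Γ.FiniteIndex ∧ ∀ f ∈ PFK K, ∀ φ : MulAut G,
        (∀ z z' : ↥K, (z' : FG ν N) = f z → φ (q z) = q z') →
        H76.InnMod Γ φ → f ∈ CP ν N := by
  have hb := big_pt hN e he2
  choose U hU1 hU2 hU3 hU4 hU5 using hb
  obtain ⟨Γ, hc, hf, hΓ⟩ := end1 hy hKn hkf he2 heK hq hk (⨅ i, U i)
    (Subgroup.normal_iInf_normal hU1) (Subgroup.finiteIndex_iInf hU2)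
    (fun j => Subgroup.mem_iInf.mpr fun i => hU3 i j)
  refine ⟨Γ, hc, hf, fun f hf φ hφ hin => ?_⟩
  obtain ⟨g, hg, hgf⟩ := hΓ f hf.2 φ hφ hin
  obtain ⟨s, hs⟩ := hf.1
  have h2 : ∀ j, s j = j := by
    intro j
    by_contra h3
    obtain ⟨w, hw⟩ := hs j
    have h4 := Subgroup.mem_iInf.mp (hgf (per j)) (s j)
    have h5 : (MulAut.conj g⁻¹ * f) (per j) ∈ U (s j) := by
      change g⁻¹ * f (per j) * g⁻¹⁻¹ ∈ U (s j)
      rw [hw]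
      exact (hU1 _).conj_mem _ ((hU1 _).conj_mem _ (hU4 (s j)) w) _
    have h6 := (U (s j)).mul_mem ((U (s j)).inv_mem h4) h5
    have h7 : ((MulAut.conj g⁻¹ * f) (per j) * (per j)⁻¹)⁻¹ * (MulAut.conj g⁻¹ * f) (per j) =
        per j := by group
    rw [h7] at h6
    exact hU5 (s j) j (Ne.symm h3) h6
  intro j
  obtain ⟨w, hw⟩ := hs j
  rw [h2] at hw
  exact ⟨w, hw⟩

/-- (FILL).  The congruence topology given by the closed surface is finer than the one given by the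
punctured surface. -/
theorem fill (hN : 1 ≤ ν ∨ 3 ≤ N) (hy : Hyp ν e) (hKn : K.Normal) (hkf : K.FiniteIndex) (he2 : ∀ j, 2 ≤ e j)
    (heK : ∀ j (k : ℕ), (per j : FG ν N) ^ k ∈ K ↔ e j ∣ k) (hq : Function.Surjective q)
    (hk : ∀ z : ↥K, q z = 1 ↔ (z : FG ν N) ∈ Rel ν e) (V : Subgroup (FG ν N)) (hV : V.Normal)
    (hVf : V.FiniteIndex) :
    ∃ Γ : Subgroup G, Γ.Characteristic ∧ Γ.FiniteIndex ∧
      ∀ f ∈ PFK K, ∀ φ : MulAut G, (∀ z z' : ↥K, (z' : FG ν N) = f z → φ (q z) = q z') →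
        H76.InnMod Γ φ → ∃ v ∈ K, InnOn V ⊤ f v := by
  have hek : ∀ j, per j ^ e j ∈ K := fun j => (heK j _).2 dvd_rfl
  have hRk : Rel ν e ≤ K := (rel_le_iff e _ hKn).2 hek
  obtain ⟨Γ₁, hΓ₁n, hΓ₁f, hΓ₁R, hΓ₁⟩ := steps_all hN e he2 hy V hV hVf K hKn hkf hRk
  obtain ⟨Γ₂, hc₂, hf₂, h₂⟩ := end1 hy hKn hkf he2 heK hq hk Γ₁ hΓ₁n hΓ₁f
    ((rel_le_iff e _ hΓ₁n).1 hΓ₁R)
  obtain ⟨Γ₃, hc₃, hf₃, h₃⟩ := pure_of_deep hN hy hKn hkf he2 heK hq hk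
  refine ⟨Γ₂ ⊓ Γ₃, H76.inf_char hc₂ hc₃, inferInstance, fun f hf φ hφ hin => ?_⟩
  obtain ⟨g, hg⟩ := hin
  have hfp : f ∈ CP ν N := h₃ f hf φ hφ ⟨g, fun x => (hg x).2⟩
  obtain ⟨g', hg'K, hg'⟩ := h₂ f hf.2 φ hφ ⟨g, fun x => (hg x).1⟩
  obtain ⟨v, hv, hfv⟩ := hΓ₁ (MulAut.conj g'⁻¹ * f) ((CP ν N).mul_mem (conj_mem_CP _) hfp) hg'
  refine ⟨g' * v, K.mul_mem hg'K hv, fun z hz => ?_⟩
  have h4 := hV.conj_mem _ (hfv z hz) g'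
  have h5 : g' * ((MulAut.conj g'⁻¹ * f) z * (v * z * v⁻¹)⁻¹) * g'⁻¹ =
      f z * (g' * v * z * (g' * v)⁻¹)⁻¹ := by
    change g' * (g'⁻¹ * f z * g'⁻¹⁻¹ * (v * z * v⁻¹)⁻¹) * g'⁻¹ = _
    group
  rwa [h5] at h4

end

end Pool.MP_59b15d_al.SymH
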