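import Mathlib
import Pool.Agent.H.MP_59b15d_al.symh.Defs

set_option autoImplicit false

namespace Pool.MP_59b15d_al.SymH

open Pool.MP_59b15d_al
open Pool.MP_59b15d_al.Sym (Gg cW)

variable {N : ℕ}

/-- The two models of the free group of the punctured sphere. -/
def iota0 (N : ℕ) : Sym.FF N ≃* FG 0 N := FreeGroup.freeGroupCongr
  { toFun := fun j => Sum.inr j
    invFun := fun x => Sum.elim (fun y => Sum.elim (fun z => z.elim0) (fun z => z.elim0) y) id x
    left_inv := fun j => rfl
    right_inv := fun x => by
      rcases x with (x | x) | x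
      · exact x.elim0
      · exact x.elim0
      · rfl }

theorem iota0_of (j : Fin N) : iota0 N (FreeGroup.of j) = xg j := by
  rw [iota0]
  exact FreeGroup.map.of

theorem iota0_xn : iota0 N (Sym.xn N) = xn 0 N := by
  rw [Sym.xn, xn, cW, map_inv]
  congr 1
  rw [List.ofFn_zero, List.prod_nil, one_mul]
  change (iota0 N).toMonoidHom _ = _
  rw [map_list_prod, List.map_ofFn]
  congr 2

theorem iota0_per (j : Fin (N + 1)) : iota0 N (Sym.per j) = per j := by
  refine Fin.lastCases ?_ (fun j => ?_) j
  · rw [Sym.per_last, per_last, iota0_xn]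
  · rw [Sym.per_castSucc, per_castSucc, iota0_of]

theorem iota0_symm_per (j : Fin (N + 1)) : (iota0 N).symm (per j) = Sym.per j := by
  rw [← iota0_per, MulEquiv.symm_apply_apply]


end Pool.MP_59b15d_al.SymH
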