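import Mathlib
import Pool.Agent.H.MP_59b15d_al.symh.Fill
import Pool.Agent.H.MP_59b15d_al.symh.Iota
import Pool.Agent.H.MP_59b15d_al.sym.Artin
import Pool.Agent.H.MP_59b15d_al.h76r.Sd

set_option autoImplicit false

/-!
Three branch points on the sphere.
-/

namespace Pool.MP_59b15d_al.SymH

open Pool.MP_59b15d_al
open Pool.MP_59b15d_al.Sym (Gg cW FF)

theorem xn_two : Sym.xn 2 = (FreeGroup.of 0 * FreeGroup.of 1 : FF 2)⁻¹ := by
  rw [Sym.xn]
  simp [List.ofFn_succ]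

theorem sig_unique {f g : MulAut (FF 2)} (hf : Sym.IsSig 0 1 f) (hg : Sym.IsSig 0 1 g) : f = g := by
  apply MulEquiv.toMonoidHom_injective
  ext j
  obtain ⟨f1, f2, -⟩ := hf
  obtain ⟨g1, g2, -⟩ := hg
  fin_cases j
  · exact f1.trans g1.symm
  · exact f2.trans g2.symm

theorem br_two {f : MulAut (FF 2)} (hf : f ∈ Sym.Br 2) {σ : MulAut (FF 2)}
    (hσ : Sym.IsSig 0 1 σ) : f ∈ Subgroup.zpowers σ := by
  have h : Sym.Br 2 ≤ Subgroup.zpowers σ := by
    unfold Sym.Br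
    rw [Subgroup.closure_le]
    rintro g ⟨i, j, hij, hg⟩
    have hi : i = 0 := by
      have := j.isLt
      have := i.isLt
      ext
      simp only [Fin.val_zero]
      omega
    have hj : j = 1 := by
      have := j.isLt
      ext
      rw [hij, hi]
      rfl
    subst hi
    subst hj
    rw [sig_unique hg hσ]
    exact Subgroup.mem_zpowers σ
  exact h hf

theorem sym_cp_two (f : MulAut (FF 2)) (hf : f ∈ Sym.CP 2) (hx : f (Sym.xn 2) = Sym.xn 2) :
    ∃ v, f = MulAut.conj v := by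
  have hf' : ∀ j : Fin 2, ∃ (k : Fin 2) (w : FF 2),
      f (FreeGroup.of j) = w * FreeGroup.of k * w⁻¹ := by
    intro j
    obtain ⟨w, hw⟩ := hf j.castSucc
    rw [Sym.per_castSucc] at hw
    exact ⟨j, w, hw⟩
  have h01 : (1 : Fin 2) ≠ 0 := by decide
  set σ := Sym.sig (0 : Fin 2) 1 h01 with hσd
  have hσ : Sym.IsSig 0 1 σ := Sym.isSig_sig _ _ _
  obtain ⟨k, hk⟩ := br_two (Sym.artin f hf' hx) hσ
  obtain ⟨s1, s2, -⟩ := hσ
  have hsq : σ * σ = MulAut.conj (FreeGroup.of 0 * FreeGroup.of 1 : FF 2) := by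
    apply MulEquiv.toMonoidHom_injective
    ext j
    fin_cases j
    · change σ (σ (FreeGroup.of 0)) = FreeGroup.of 0 * FreeGroup.of 1 * FreeGroup.of 0 *
        (FreeGroup.of 0 * FreeGroup.of 1)⁻¹
      rw [s1, map_mul, map_mul, map_inv, s1, s2]
      group
    · change σ (σ (FreeGroup.of 1)) = FreeGroup.of 0 * FreeGroup.of 1 * FreeGroup.of 1 *
        (FreeGroup.of 0 * FreeGroup.of 1)⁻¹
      rw [s2, s1]
      group
  rcases Int.even_or_odd' k with ⟨l, hl | hl⟩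
  · refine ⟨(FreeGroup.of 0 * FreeGroup.of 1) ^ l, ?_⟩
    rw [map_zpow, ← hsq, ← hk]
    change σ ^ k = _
    rw [hl, zpow_mul, zpow_two]
  · exfalso
    let χ : FF 2 →* Multiplicative ℤ := FreeGroup.lift fun j =>
      Multiplicative.ofAdd (if j = 0 then 1 else 0)
    have hχ0 : χ (FreeGroup.of 0) = Multiplicative.ofAdd 1 := by simp [χ]
    have hχ1 : χ (FreeGroup.of 1) = Multiplicative.ofAdd 0 := by simp [χ]
    have h2 : f = σ * MulAut.conj ((FreeGroup.of 0 * FreeGroup.of 1) ^ l : FF 2) := by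
      rw [map_zpow, ← hsq, ← hk]
      change σ ^ k = _
      rw [hl, add_comm, zpow_add, zpow_mul, zpow_two, zpow_one]
    obtain ⟨w, hw⟩ := hf (Fin.castSucc 1)
    rw [Sym.per_castSucc, h2, MulAut.mul_apply, MulAut.conj_apply, map_mul, map_mul, map_inv,
      s2] at hw
    have h3 := congrArg χ hw
    simp only [map_mul, map_inv, hχ0, hχ1] at h3
    rw [mul_comm (χ _), mul_inv_cancel_right, mul_comm (χ w), mul_inv_cancel_right] at h3
    have h4 : (1 : ℤ) = 0 := Multiplicative.ofAdd.injective h3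
    exact one_ne_zero h4

/-- The pure mapping class group of the sphere with three punctures is trivial. -/
theorem cp_two (f : MulAut (FG 0 2)) (hf : f ∈ CP 0 2) : ∃ v, f = MulAut.conj v := by
  set g : MulAut (FF 2) := (iota0 2).trans (f.trans (iota0 2).symm) with hg
  have hga : ∀ z, g z = (iota0 2).symm (f (iota0 2 z)) := fun z => rfl
  have hgC : g ∈ Sym.CP 2 := by
    intro j
    obtain ⟨w, hw⟩ := hf j
    refine ⟨(iota0 2).symm w, ?_⟩
    rw [hga, iota0_per, hw, map_mul, map_mul, map_inv, iota0_symm_per]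
  obtain ⟨w, hw⟩ := hgC (Fin.last 2)
  rw [Sym.per_last] at hw
  obtain ⟨v, hv⟩ := sym_cp_two (MulAut.conj w⁻¹ * g)
    ((Sym.CP 2).mul_mem (fun _ => ⟨w⁻¹, rfl⟩) hgC) (by
      change w⁻¹ * g (Sym.xn 2) * w⁻¹⁻¹ = _
      rw [hw]
      group)
  have hgv : g = MulAut.conj (w * v) := by
    rw [map_mul, ← hv, ← mul_assoc, ← map_mul, mul_inv_cancel, map_one, one_mul]
  refine ⟨iota0 2 (w * v), ?_⟩
  ext1 z
  have h1 : f z = iota0 2 (g ((iota0 2).symm z)) := by
    rw [hga, MulEquiv.apply_symm_apply, MulEquiv.apply_symm_apply]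
  rw [h1, hgv, MulAut.conj_apply, map_mul, map_mul, map_inv, MulEquiv.apply_symm_apply,
    MulAut.conj_apply]

/-- The characters of the free group of rank two. -/
def chi (m : ℕ) (i j : Fin 3) : FG 0 2 →* Multiplicative (ZMod m) :=
  FreeGroup.lift (Sum.elim (fun _ => 1) fun k : Fin 2 => Multiplicative.ofAdd
    (((if k.castSucc = i then 1 else 0) - (if k.castSucc = j then 1 else 0) : ℤ) : ZMod m))

theorem chi_per (m : ℕ) (i j k : Fin 3) : chi m i j (per k) = Multiplicative.ofAdd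
    (((if k = i then 1 else 0) - (if k = j then 1 else 0) : ℤ) : ZMod m) := by
  have h1 : ∀ k : Fin 2, chi m i j (xg k) = Multiplicative.ofAdd
      (((if k.castSucc = i then 1 else 0) - (if k.castSucc = j then 1 else 0) : ℤ) : ZMod m) := by
    intro k
    simp [chi]
  refine Fin.lastCases ?_ (fun k => ?_) k
  · rw [per_last]
    have h2 : xn 0 2 = (xg 0 * xg 1)⁻¹ := by
      rw [xn, cW]
      simp [List.ofFn_succ]
    rw [h2, map_inv, map_mul, h1, h1]
    rw [← ofAdd_add, ← ofAdd_neg, ← Int.cast_add, ← Int.cast_neg]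
    congr 2
    clear h1 h2
    revert i j
    decide
  · rw [per_castSucc, h1]

theorem chi_fi (m : ℕ) (hm : m ≠ 0) (i j : Fin 3) : (chi m i j).ker.FiniteIndex := by
  have : NeZero m := ⟨hm⟩
  have : Finite (Multiplicative (ZMod m)) := inferInstanceAs (Finite (ZMod m))
  infer_instance

/-- An automorphism permuting the points, trivial modulo the kernel of a character, fixes them. -/
theorem chi_use {m : ℕ} {i j : Fin 3} (hij : i ≠ j) {f : MulAut (FG 0 2)} {w : FG 0 2}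
    (hf : f (per i) = w * per j * w⁻¹) (hz : f (per i) * (per i)⁻¹ ∈ (chi m i j).ker) : m ∣ 2 := by
  rw [MonoidHom.mem_ker, hf, map_mul, map_mul, map_mul, map_inv, map_inv, chi_per, chi_per,
    mul_comm (chi m i j w), mul_inv_cancel_right, if_neg hij.symm, if_pos rfl, if_pos rfl,
    if_neg hij] at hz
  have h1 : (((0 - 1 : ℤ) : ZMod m) - ((1 - 0 : ℤ) : ZMod m)) = 0 := by
    rw [sub_eq_add_neg]
    exact hz
  have h2 : ((2 : ℕ) : ZMod m) = 0 := by
    push_cast at h1 ⊢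
    linear_combination -h1
  exact (ZMod.natCast_eq_zero_iff _ _).1 h2

section

variable {ν N : ℕ} {K : Subgroup (FG ν N)} {e : Fin (N + 1) → ℕ}

/-- Lifting automorphisms preserve the orders. -/
theorem order_PFK (hKn : K.Normal) (heK : ∀ j (k : ℕ), (per j : FG ν N) ^ k ∈ K ↔ e j ∣ k)
    {f : MulAut (FG ν N)} (hf : ∀ z, f z ∈ K ↔ z ∈ K)
    {s : Equiv.Perm (Fin (N + 1))} (hs : ∀ j, ∃ w : FG ν N, f (per j) = w * per (s j) * w⁻¹)
    (j : Fin (N + 1)) : e (s j) = e j := by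
  have key : ∀ n, e (s j) ∣ n ↔ e j ∣ n := by
    intro n
    obtain ⟨w, hw⟩ := hs j
    have h1 : f (per j ^ n) = w * per (s j) ^ n * w⁻¹ := by rw [map_pow, hw, conj_pow]
    rw [← heK, ← heK, ← hf (per j ^ n), h1]
    constructor
    · intro h
      exact hKn.conj_mem _ h w
    · intro h
      have h2 := hKn.conj_mem _ h w⁻¹
      have h3 : w⁻¹ * (w * per (s j) ^ n * w⁻¹) * w⁻¹⁻¹ = per (s j) ^ n := by group
      rwa [h3] at h2
  exact Nat.dvd_antisymm ((key _).2 dvd_rfl) ((key _).1 dvd_rfl)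

end

section

variable {K : Subgroup (FG 0 2)} {e : Fin 3 → ℕ} {G : Type*} [Group G] {q : ↥K →* G}

theorem not_both_two (he2 : ∀ j, 2 ≤ e j) (hy : Hyp 0 e) {i j : Fin 3} (hij : i ≠ j)
    (h1 : e i = 2) (h2 : e j = 2) : False := by
  unfold Hyp at hy
  rw [← Finset.add_sum_erase _ _ (Finset.mem_univ i), ← Finset.add_sum_erase _ _
    (Finset.mem_erase.2 ⟨hij.symm, Finset.mem_univ j⟩), h1, h2] at hy
  have h3 : (0 : ℚ) ≤ ∑ x ∈ (Finset.univ.erase i).erase j, (1 / e x : ℚ) :=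
    Finset.sum_nonneg fun x _ => by positivity
  push_cast at hy
  linarith

theorem fill_two (hy : Hyp 0 e) (hKn : K.Normal) (hkf : K.FiniteIndex) (he2 : ∀ j, 2 ≤ e j)
    (heK : ∀ j (k : ℕ), (per j : FG 0 2) ^ k ∈ K ↔ e j ∣ k) (hq : Function.Surjective q)
    (hk : ∀ z : ↥K, q z = 1 ↔ (z : FG 0 2) ∈ Rel 0 e) (V : Subgroup (FG 0 2)) :
    ∃ Γ : Subgroup G, Γ.Characteristic ∧ Γ.FiniteIndex ∧
      ∀ f ∈ PFK K, ∀ φ : MulAut G, (∀ z z' : ↥K, (z' : FG 0 2) = f z → φ (q z) = q z') →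
        H76.InnMod Γ φ → ∃ v ∈ K, InnOn V ⊤ f v := by
  classical
  have hek : ∀ j, per j ^ e j ∈ K := fun j => (heK j _).2 dvd_rfl
  obtain ⟨U, hUn, hUf, hUV, p1, hU⟩ := faith0g e he2 hy K hKn hkf hek
    (fun j k h => (heK j k).1 h)
  set L : Fin 3 × Fin 3 → Subgroup (FG 0 2) := fun x =>
    if e x.1 = e x.2 then (chi (e x.1) x.1 x.2).ker else ⊤ with hL
  have hLn : ∀ x, (L x).Normal := by
    intro x
    simp only [hL]
    split_ifs
    · infer_instance
    · infer_instance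
  have hLf : ∀ x, (L x).FiniteIndex := by
    intro x
    simp only [hL]
    split_ifs
    · exact chi_fi _ (by have := he2 x.1; omega) _ _
    · infer_instance
  have hLe : ∀ x j, per j ^ e j ∈ L x := by
    intro x j
    simp only [hL]
    split_ifs with h
    · rw [MonoidHom.mem_ker, map_pow, chi_per]
      change Multiplicative.ofAdd (e j • _) = 1
      rw [ofAdd_eq_one, nsmul_eq_mul]
      by_cases h1 : j = x.1
      · rw [h1, ZMod.natCast_self, zero_mul]
      · by_cases h2 : j = x.2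
        · rw [h2, ← h, ZMod.natCast_self, zero_mul]
        · rw [if_neg h1, if_neg h2]
          simp
    · exact Subgroup.mem_top _
  obtain ⟨Γ, hc, hf, hΓ⟩ := end1 hy hKn hkf he2 heK hq hk (U ⊓ ⨅ x, L x)
    (by
      have := Subgroup.normal_iInf_normal hLn
      infer_instance)
    (by
      have := Subgroup.finiteIndex_iInf hLf
      infer_instance)
    (fun j => ⟨p1 j, Subgroup.mem_iInf.2 fun x => hLe x j⟩)
  refine ⟨Γ, hc, hf, fun f hf φ hφ hin => ?_⟩
  obtain ⟨g, hgK, hg⟩ := hΓ f hf.2 φ hφ hin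
  obtain ⟨s, hs⟩ := hf.1
  have h2 : ∀ j, s j = j := by
    intro j
    by_contra h3
    obtain ⟨w, hw⟩ := hs j
    have he := order_PFK hKn heK hf.2 hs j
    have h4 := Subgroup.mem_iInf.1 (hg (per j)).2 (j, s j)
    simp only [hL, he, if_true] at h4
    have h5 := chi_use (f := MulAut.conj g⁻¹ * f) (w := g⁻¹ * w) (Ne.symm h3) (by
      change g⁻¹ * f (per j) * g⁻¹⁻¹ = _
      rw [hw]
      group) h4
    have h6 : e j = 2 := by
      have h7 := he2 j
      have h8 := Nat.le_of_dvd (by norm_num) h5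
      omega
    exact not_both_two he2 hy (Ne.symm h3) h6 (he.trans h6)
  have hfC : f ∈ CP 0 2 := by
    intro j
    obtain ⟨w, hw⟩ := hs j
    rw [h2] at hw
    exact ⟨w, hw⟩
  obtain ⟨v, rfl⟩ := cp_two f hfC
  have hvK : g⁻¹ * v ∈ K := by
    refine hU _ fun y _ => ?_
    have h3 := (hg y).1
    have h4 : (MulAut.conj g⁻¹ * MulAut.conj v) y * y⁻¹ = g⁻¹ * v * y * (g⁻¹ * v)⁻¹ * y⁻¹ := by
      change g⁻¹ * (v * y * v⁻¹) * g⁻¹⁻¹ * y⁻¹ = _
      group
    rwa [h4] at h3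
  refine ⟨v, ?_, fun y _ => ?_⟩
  · have h3 := K.mul_mem hgK hvK
    rwa [mul_inv_cancel_left] at h3
  · rw [MulAut.conj_apply, mul_inv_cancel]
    exact V.one_mem

end

section

variable {ν N : ℕ} {K : Subgroup (FG ν N)} {e : Fin (N + 1) → ℕ} {G : Type*} [Group G]
  {q : ↥K →* G}

theorem hyp_cases (he2 : ∀ j, 2 ≤ e j) (hy : Hyp ν e) : (1 ≤ ν ∨ 3 ≤ N) ∨ (ν = 0 ∧ N = 2) := by
  by_contra hcon
  push Not at hcon
  obtain ⟨⟨h1, h2⟩, h3⟩ := hcon
  have h4 := h3 (by omega)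
  have h0 : (0 : ℚ) ≤ ∑ j, (1 / e j : ℚ) := Finset.sum_nonneg fun x _ => by positivity
  unfold Hyp at hy
  obtain rfl : ν = 0 := by omega
  have h5 : (N : ℚ) ≤ 1 := by
    have : N ≤ 1 := by omega
    exact_mod_cast this
  push_cast at hy
  linarith

/-- (FILL), all cases. -/
theorem fill_all (hy : Hyp ν e) (hKn : K.Normal) (hkf : K.FiniteIndex) (he2 : ∀ j, 2 ≤ e j)
    (heK : ∀ j (k : ℕ), (per j : FG ν N) ^ k ∈ K ↔ e j ∣ k) (hq : Function.Surjective q)
    (hk : ∀ z : ↥K, q z = 1 ↔ (z : FG ν N) ∈ Rel ν e) (V : Subgroup (FG ν N)) (hV : V.Normal)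
    (hVf : V.FiniteIndex) :
    ∃ Γ : Subgroup G, Γ.Characteristic ∧ Γ.FiniteIndex ∧
      ∀ f ∈ PFK K, ∀ φ : MulAut G, (∀ z z' : ↥K, (z' : FG ν N) = f z → φ (q z) = q z') →
        H76.InnMod Γ φ → ∃ v ∈ K, InnOn V ⊤ f v := by
  rcases hyp_cases he2 hy with h | ⟨rfl, rfl⟩
  · exact fill h hy hKn hkf he2 heK hq hk V hV hVf
  · exact fill_two hy hKn hkf he2 heK hq hk V

end

end Pool.MP_59b15d_al.SymH
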