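import Mathlib
import Pool.Agent.H.MP_59b15d_al.symh.Two
import Pool.Agent.H.MP_59b15d_al.h76r.Sd

set_option autoImplicit false

namespace Pool.MP_59b15d_al.SymH

open Pool.MP_59b15d_al
open Pool.MP_59b15d_al.H76 (StdGen InnMod)

variable {ν N : ℕ}

section sym

variable {K : Subgroup (FG ν N)} {e : Fin (N + 1) → ℕ} {G : Type*} [Group G]

theorem Ind.unique {q : ↥K →* G} (hq : Function.Surjective q) {f : MulAut (FG ν N)}
    (hf : f ∈ PFK K) {φ ψ : MulAut G} (h1 : Ind K q f φ) (h2 : Ind K q f ψ) : φ = ψ := by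
  ext x
  obtain ⟨z, rfl⟩ := hq x
  have h3 : f (z : FG ν N) ∈ K := (hf.2 _).2 z.2
  rw [h1 z ⟨f z, h3⟩ rfl, h2 z ⟨f z, h3⟩ rfl]

theorem Rel_map_MS {e : Fin (N + 1) → ℕ} {f : MulAut (FG ν N)} {s : Equiv.Perm (Fin (N + 1))}
    (hs : ∀ j, ∃ w : FG ν N, f (per j) = w * per (s j) * w⁻¹) (he : ∀ j, e (s j) = e j)
    {z : FG ν N} (hz : z ∈ Rel ν e) : f z ∈ Rel ν e := by
  have hn : (Rel ν e).Normal := Subgroup.normalClosure_normal
  have hn' : ((Rel ν e).comap f.toMonoidHom).Normal := hn.comap _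
  have h1 : Rel ν e ≤ (Rel ν e).comap f.toMonoidHom := by
    apply Subgroup.normalClosure_le_normal
    rintro _ ⟨j, rfl⟩
    change f (per j ^ e j) ∈ Rel ν e
    obtain ⟨w, hw⟩ := hs j
    rw [map_pow, hw, conj_pow, ← he j]
    exact hn.conj_mem _ (Subgroup.subset_normalClosure ⟨s j, rfl⟩) w
  exact h1 hz

/-- Every lifting automorphism induces an automorphism of `G`. -/
theorem exists_Ind {q : ↥K →* G} (hKn : K.Normal)
    (heK : ∀ j (k : ℕ), (per j : FG ν N) ^ k ∈ K ↔ e j ∣ k)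
    (hq : Function.Surjective q) (hk : ∀ z : ↥K, q z = 1 ↔ (z : FG ν N) ∈ Rel ν e)
    {f : MulAut (FG ν N)} (hf : f ∈ PFK K) : ∃ φ : MulAut G, Ind K q f φ := by
  -- the induced endomorphism
  have key : ∀ g ∈ PFK K, ∃ φ : G →* G, ∀ z z' : ↥K, (z' : FG ν N) = g z → φ (q z) = q z' := by
    intro g hg
    let r : ↥K →* ↥K :=
      { toFun := fun z => ⟨g z, (hg.2 _).2 z.2⟩
        map_one' := Subtype.ext (map_one g)
        map_mul' := fun a b => Subtype.ext (map_mul g _ _) }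
    have hr : ∀ z : ↥K, ((r z : ↥K) : FG ν N) = g z := fun z => rfl
    have h1 : q.ker ≤ (q.comp r).ker := by
      intro z hz
      rw [MonoidHom.mem_ker] at hz ⊢
      rw [MonoidHom.comp_apply, hk, hr]
      obtain ⟨s, hs⟩ := hg.1
      exact Rel_map_MS hs (fun j => order_PFK hKn heK hg.2 hs j) ((hk z).1 hz)
    let φ : G →* G := (QuotientGroup.lift q.ker (q.comp r) h1).comp
      (QuotientGroup.quotientKerEquivOfSurjective q hq).symm.toMonoidHom
    refine ⟨φ, fun z z' hz => ?_⟩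
    have h2 : (QuotientGroup.quotientKerEquivOfSurjective q hq).symm (q z) =
        (QuotientGroup.mk z : ↥K ⧸ q.ker) := by
      rw [MulEquiv.symm_apply_eq]
      rfl
    change QuotientGroup.lift q.ker (q.comp r) h1
      ((QuotientGroup.quotientKerEquivOfSurjective q hq).symm (q z)) = q z'
    rw [h2]
    change q (r z) = q z'
    congr 1
    exact Subtype.ext hz.symm
  obtain ⟨φ, hφ⟩ := key f hf
  obtain ⟨ψ, hψ⟩ := key f⁻¹ ((PFK K).inv_mem hf)
  have h1 : ∀ x, ψ (φ x) = x := by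
    intro x
    obtain ⟨z, rfl⟩ := hq x
    have h3 : f (z : FG ν N) ∈ K := (hf.2 _).2 z.2
    rw [hφ z ⟨f z, h3⟩ rfl]
    exact hψ ⟨f z, h3⟩ z (MulAut.inv_apply_self _ _ _).symm
  have h2 : ∀ x, φ (ψ x) = x := by
    intro x
    obtain ⟨z, rfl⟩ := hq x
    have h3 : f⁻¹ (z : FG ν N) ∈ K := (((PFK K).inv_mem hf).2 _).2 z.2
    rw [hψ z ⟨f⁻¹ z, h3⟩ rfl]
    exact hφ ⟨f⁻¹ z, h3⟩ z (MulAut.apply_inv_self _ _ _).symm
  exact ⟨{ toFun := φ, invFun := ψ, left_inv := h1, right_inv := h2, map_mul' := map_mul φ }, hφ⟩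

theorem conj_PFK (hKn : K.Normal) (v : FG ν N) : MulAut.conj v ∈ PFK K := by
  refine ⟨⟨1, fun j => ⟨v, rfl⟩⟩, fun y => ?_⟩
  change v * y * v⁻¹ ∈ K ↔ _
  constructor
  · intro h
    have h3 := hKn.conj_mem _ h v⁻¹
    have h4 : v⁻¹ * (v * y * v⁻¹) * v⁻¹⁻¹ = y := by group
    rwa [h4] at h3
  · intro h
    exact hKn.conj_mem _ h v

theorem Ind_conj {q : ↥K →* G} (v : ↥K) : Ind K q (MulAut.conj (v : FG ν N))
    (MulAut.conj (q v)) := by
  intro y y' hy
  rw [MulAut.conj_apply, ← map_inv, ← map_mul, ← map_mul]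
  congr 1
  exact Subtype.ext hy.symm

theorem Ind.mul {q : ↥K →* G} {f g : MulAut (FG ν N)} (hg : g ∈ PFK K) {φ ψ : MulAut G}
    (h1 : Ind K q f φ) (h2 : Ind K q g ψ) : Ind K q (f * g) (φ * ψ) := by
  intro z z' hz
  have h3 : g (z : FG ν N) ∈ K := (hg.2 _).2 z.2
  rw [MulAut.mul_apply, h2 z ⟨g z, h3⟩ rfl]
  exact h1 ⟨g z, h3⟩ z' hz

/-- The closed and the punctured surface give the same congruence topology: `H` contains the
symmetric automorphisms of `G` that are inner modulo some characteristic subgroup of finite index of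
`G` if and only if it contains those induced by the automorphisms of the free group that are trivial
modulo some subgroup of finite index of the free group. -/
theorem topologies {q : ↥K →* G} (hc : IsCov K e q)
    (H : Subgroup (MulAut G)) (hi : ∀ x : G, MulAut.conj x ∈ H) :
    (∃ Γ : Subgroup G, Γ.Characteristic ∧ Γ.FiniteIndex ∧ ∀ φ ∈ SS K q, InnMod Γ φ → φ ∈ H) ↔
    ∃ V : Subgroup (FG ν N), V.Normal ∧ V.FiniteIndex ∧
      ∀ f ∈ PFK K, (∀ z, f z * z⁻¹ ∈ V) → ∀ φ : MulAut G, Ind K q f φ → φ ∈ H := by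
  have hKf := hc.fin
  constructor
  · rintro ⟨Γ, hΓc, hΓf, hΓ⟩
    set W : Subgroup (FG ν N) := (Γ.comap q).map K.subtype with hW
    have hWf : W.FiniteIndex := by
      have h1 : (Γ.comap q).FiniteIndex := H76.comap_fi q hΓf
      rw [Subgroup.finiteIndex_iff, hW, Subgroup.index_map_subtype]
      exact mul_ne_zero h1.index_ne_zero hKf.index_ne_zero
    refine ⟨W.normalCore, inferInstance, inferInstance, fun f hf hfz φ hφ => ?_⟩
    refine hΓ φ ⟨f, hf, hφ⟩ ⟨1, fun x => ?_⟩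
    obtain ⟨z, rfl⟩ := hc.sur x
    have h3 : f (z : FG ν N) ∈ K := (hf.2 _).2 z.2
    rw [hφ z ⟨f z, h3⟩ rfl, one_mul, inv_one, mul_one, ← map_inv, ← map_mul]
    obtain ⟨y, hy, hyz⟩ := W.normalCore_le (hfz z)
    have h4 : y = ⟨f z, h3⟩ * z⁻¹ := Subtype.ext hyz
    rw [← h4]
    exact hy
  · rintro ⟨V, hVn, hVf, hV⟩
    obtain ⟨Γ, hΓc, hΓf, hΓ⟩ := fill_all hc.hyp hc.nor hc.fin hc.two hc.ord hc.sur hc.ker V hVn hVf
    refine ⟨Γ, hΓc, hΓf, ?_⟩
    rintro φ ⟨f, hf, hφ⟩ hin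
    obtain ⟨v, hv, hfv⟩ := hΓ f hf φ hφ hin
    have h1 : Ind K q (MulAut.conj v⁻¹ * f) (MulAut.conj (q ⟨v, hv⟩)⁻¹ * φ) := by
      refine Ind.mul hf ?_ hφ
      have h2 := Ind_conj (q := q) (⟨v, hv⟩ : ↥K)⁻¹
      rw [map_inv q] at h2
      exact h2
    have h2 := hV (MulAut.conj v⁻¹ * f) ((PFK K).mul_mem (conj_PFK hc.nor _) hf) (fun z => by
      have h3 := hVn.conj_mem _ (hfv z (Subgroup.mem_top _)) v⁻¹
      have h4 : v⁻¹ * (f z * (v * z * v⁻¹)⁻¹) * v⁻¹⁻¹ = v⁻¹ * f z * v⁻¹⁻¹ * z⁻¹ := by group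
      rw [h4] at h3
      exact h3) _ h1
    have h3 := H.mul_mem (hi (q ⟨v, hv⟩)) h2
    rwa [← mul_assoc, ← map_mul, mul_inv_cancel, map_one, one_mul] at h3

end sym

/-- Automorphisms trivial modulo a deep level fix the marked points. -/
theorem pure_level (hN : 1 ≤ ν ∨ 3 ≤ N) : ∃ V : Subgroup (FG ν N), V.Normal ∧ V.FiniteIndex ∧
    ∀ f ∈ MS ν N, (∀ z, f z * z⁻¹ ∈ V) → f ∈ CP ν N := by
  have hb := big_pt (ν := ν) hN (fun _ => 2) (fun _ => le_rfl)
  choose U hU1 hU2 hU3 hU4 hU5 using hb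
  refine ⟨⨅ i, U i, Subgroup.normal_iInf_normal hU1, Subgroup.finiteIndex_iInf hU2,
    fun f hf hfz => ?_⟩
  obtain ⟨s, hs⟩ := hf
  have h2 : ∀ j, s j = j := by
    intro j
    by_contra h3
    obtain ⟨w, hw⟩ := hs j
    have h4 := Subgroup.mem_iInf.mp (hfz (per j)) (s j)
    have h5 : f (per j) ∈ U (s j) := by
      rw [hw]
      exact (hU1 _).conj_mem _ (hU4 (s j)) w
    have h6 := (U (s j)).mul_mem ((U (s j)).inv_mem h4) h5
    have h7 : (f (per j) * (per j)⁻¹)⁻¹ * f (per j) = per j := by group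
    rw [h7] at h6
    exact hU5 (s j) j (Ne.symm h3) h6
  intro j
  obtain ⟨w, hw⟩ := hs j
  rw [h2] at hw
  exact ⟨w, hw⟩

theorem pure_level_all {e : Fin (N + 1) → ℕ} (he2 : ∀ j, 2 ≤ e j) (hy : Hyp ν e) :
    ∃ V : Subgroup (FG ν N), V.Normal ∧ V.FiniteIndex ∧
      ∀ f ∈ MS ν N, (∀ z, f z * z⁻¹ ∈ V) → f ∈ CP ν N := by
  rcases hyp_cases he2 hy with h | ⟨rfl, rfl⟩
  · exact pure_level h
  refine ⟨⨅ x : Fin 3 × Fin 3, (chi 3 x.1 x.2).ker, Subgroup.normal_iInf_normal fun _ =>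
    inferInstance, Subgroup.finiteIndex_iInf fun x => chi_fi 3 (by norm_num) _ _,
    fun f hf hfz => ?_⟩
  obtain ⟨s, hs⟩ := hf
  have h2 : ∀ j, s j = j := by
    intro j
    by_contra h3
    obtain ⟨w, hw⟩ := hs j
    have h5 := chi_use (Ne.symm h3) hw (Subgroup.mem_iInf.1 (hfz (per j)) (j, s j))
    omega
  intro j
  obtain ⟨w, hw⟩ := hs j
  rw [h2] at hw
  exact ⟨w, hw⟩

theorem PK_fi (K : Subgroup (FG ν N)) (hf : K.FiniteIndex) (P : Subgroup (MulAut (FG ν N)))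
    (hP : P ≤ CP ν N) (hK : ∀ f ∈ CP ν N, (∀ z, f z ∈ K ↔ z ∈ K) → f ∈ P) :
    P.relIndex (CP ν N) ≠ 0 := by
  obtain ⟨W, hW, hWf, hWle⟩ := H76.exists_char_le K hf
  have h1 : H76.trivMod W ⊓ CP ν N ≤ P := by
    rintro f ⟨hf1, hf2⟩
    refine hK f hf2 fun z => ?_
    have h2 := hWle (hf1 z)
    constructor
    · intro h3
      have h4 := K.mul_mem (K.inv_mem h2) h3
      simpa using h4
    · intro h3
      have h4 := K.mul_mem h2 h3
      simpa using h4
  have h2 : (H76.trivMod W).FiniteIndex := H76.trivMod_finiteIndex hW hWf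
  have h3 : (H76.trivMod W ⊓ CP ν N).relIndex (CP ν N) ≠ 0 := by
    rw [Subgroup.inf_relIndex_right]
    have := Subgroup.isFiniteRelIndex_of_finiteIndex (H := H76.trivMod W) (K := CP ν N)
    exact Subgroup.relIndex_ne_zero
  exact fun h4 => h3 (Subgroup.relIndex_eq_zero_of_le_left h1 h4)

/-- The congruence subgroup property of the symmetric mapping class group, from that of the punctured
quotient. -/
theorem csp_of_g0 (hG0 : HasG0 ν N) {K : Subgroup (FG ν N)}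
    {e : Fin (N + 1) → ℕ} {G : Type*} [Group G] {q : ↥K →* G} (hc : IsCov K e q)
    (H : Subgroup (MulAut G)) (hH : H.relIndex (SS K q) ≠ 0) (hi : ∀ x : G, MulAut.conj x ∈ H) :
    ∃ Γ : Subgroup G, Γ.Characteristic ∧ Γ.FiniteIndex ∧ ∀ φ ∈ SS K q, InnMod Γ φ → φ ∈ H := by
  rw [topologies hc H hi]
  choose φ hφ using fun f : PFK K => exists_Ind (q := q) hc.nor hc.ord hc.sur hc.ker f.2
  have hmem : ∀ f : PFK K, φ f ∈ SS K q := fun f => ⟨f, f.2, hφ f⟩
  let Φ : PFK K →* SS K q :=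
    { toFun := fun f => ⟨φ f, hmem f⟩
      map_one' := Subtype.ext (Ind.unique hc.sur (PFK K).one_mem (hφ 1) (fun z z' hz => by
        have : z' = z := Subtype.ext hz
        rw [this]
        rfl))
      map_mul' := fun f g => Subtype.ext (Ind.unique hc.sur ((PFK K).mul_mem f.2 g.2) (hφ (f * g))
        (Ind.mul g.2 (hφ f) (hφ g))) }
  let L : Subgroup (MulAut (FG ν N)) := ((H.subgroupOf (SS K q)).comap Φ).map (PFK K).subtype
  have hLf : L.relIndex (PFK K) ≠ 0 := by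
    have h2 : (H.subgroupOf (SS K q)).FiniteIndex := ⟨hH⟩
    have h3 : ((H.subgroupOf (SS K q)).comap Φ).FiniteIndex := H76.comap_fi Φ h2
    have h4 : L.subgroupOf (PFK K) = (H.subgroupOf (SS K q)).comap Φ := by
      ext f
      rw [Subgroup.mem_subgroupOf]
      constructor
      · rintro ⟨g, hg, hgf⟩
        have : g = f := Subtype.ext hgf
        rwa [← this]
      · intro h
        exact ⟨f, h, rfl⟩
    rw [Subgroup.relIndex, h4]
    exact h3.index_ne_zero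
  obtain ⟨U, hU1, hU2, hU⟩ := hG0 (L ⊓ (PFK K ⊓ CP ν N)) (by
    have h1 : (L ⊓ (PFK K ⊓ CP ν N)).relIndex (PFK K ⊓ CP ν N) ≠ 0 := by
      rw [Subgroup.inf_relIndex_right]
      exact fun h => hLf (Subgroup.relIndex_eq_zero_of_le_right inf_le_left h)
    refine Subgroup.relIndex_ne_zero_trans h1 ?_
    exact PK_fi K hc.fin _ inf_le_right fun f hf1 hf2 => ⟨⟨CP_le_MS hf1, hf2⟩, hf1⟩)
  obtain ⟨V, hV1, hV2, hV⟩ := pure_level_all (ν := ν) hc.two hc.hyp
  refine ⟨U ⊓ V, inferInstance, inferInstance, fun f hf hfz ψ hψ => ?_⟩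
  have h1 := hV f hf.1 fun z => (hfz z).2
  obtain ⟨g, hg, hgf⟩ := (hU f h1 fun z => (hfz z).1).1
  have h2 : φ g = ψ := by
    have h3 : Ind K q f (φ g) := by
      have := hφ g
      have h4 : (g : MulAut (FG ν N)) = f := hgf
      rwa [h4] at this
    exact Ind.unique hc.sur hf h3 hψ
  rw [← h2]
  exact hg

end Pool.MP_59b15d_al.SymH
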