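import Mathlib
import Pool.Agent.H.MP_59b15d_al.symh.Equi
import Pool.Agent.H.MP_59b15d_al.h76r.Sd

set_option autoImplicit false

/-!
The Birman exact sequence for the surface of genus `h` with one boundary component and `n + 1`
punctures: definitions.
-/

namespace Pool.MP_59b15d_al.SymH

open Pool.MP_59b15d_al.Sym (Gg cW)

variable {h n N : ℕ}

/-- The mapping class group of the surface of genus `h` with `N` punctures and one boundary
component. -/
def CPf (h N : ℕ) : Subgroup (MulAut (FG h N)) where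
  carrier := {f | f ∈ CP h N ∧ f (xn h N) = xn h N}
  mul_mem' := by
    rintro f g ⟨hf, hf'⟩ ⟨hg, hg'⟩
    refine ⟨mul_mem hf hg, ?_⟩
    rw [MulAut.mul_apply, hg', hf']
  one_mem' := ⟨one_mem _, rfl⟩
  inv_mem' := by
    rintro f ⟨hf, hf'⟩
    refine ⟨inv_mem hf, ?_⟩
    have h : f⁻¹ (f (xn h N)) = xn h N := by
      rw [← MulAut.mul_apply, inv_mul_cancel, MulAut.one_apply]
    rwa [hf'] at h

/-- Killing the last generator. -/
def kp (h n : ℕ) : FG h (n + 1) →* FG h n :=
  FreeGroup.lift (Sum.elim (fun c => FreeGroup.of (Sum.inl c)) (Fin.lastCases 1 fun j => xg j))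

/-- The inclusion. -/
def io (h n : ℕ) : FG h n →* FG h (n + 1) :=
  FreeGroup.lift (Sum.elim (fun c => FreeGroup.of (Sum.inl c)) fun j => xg j.castSucc)

theorem kp_inl (c : Fin h ⊕ Fin h) :
    kp h n (FreeGroup.of (Sum.inl c)) = FreeGroup.of (Sum.inl c) := by
  simp [kp]

theorem kp_cast (j : Fin n) : kp h n (xg j.castSucc) = xg j := by
  simp [kp]

theorem kp_last : kp h n (xg (Fin.last n)) = 1 := by
  simp [kp]

theorem io_inl (c : Fin h ⊕ Fin h) :
    io h n (FreeGroup.of (Sum.inl c)) = FreeGroup.of (Sum.inl c) := by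
  simp [io]

theorem io_xg (j : Fin n) : io h n (xg j) = xg j.castSucc := by
  simp [io]

theorem kp_io (z : FG h n) : kp h n (io h n z) = z := by
  have h1 : (kp h n).comp (io h n) = MonoidHom.id _ := by
    ext x
    rcases x with c | j
    · rw [MonoidHom.comp_apply, io_inl, kp_inl, MonoidHom.id_apply]
    · change kp h n (io h n (xg j)) = _
      rw [io_xg, kp_cast, MonoidHom.id_apply]
  exact DFunLike.congr_fun h1 z

theorem io_cW : io h n (cW h n) * xg (Fin.last n) = cW h (n + 1) := by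
  rw [cW, cW, map_mul, map_list_prod, map_list_prod, List.map_ofFn, List.map_ofFn]
  rw [List.ofFn_succ' (f := fun i : Fin (n + 1) => (FreeGroup.of (Sum.inr i) : FG h (n + 1)))]
  rw [List.concat_eq_append, List.prod_append, List.prod_singleton, ← mul_assoc]
  have e1 : (⇑(io h n) ∘ fun i : Fin h => (FreeGroup.of (Sum.inl (Sum.inl i)) : FG h n) *
      FreeGroup.of (Sum.inl (Sum.inr i)) * (FreeGroup.of (Sum.inl (Sum.inl i)))⁻¹ *
      (FreeGroup.of (Sum.inl (Sum.inr i)))⁻¹) = fun i : Fin h =>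
      (FreeGroup.of (Sum.inl (Sum.inl i)) : FG h (n + 1)) * FreeGroup.of (Sum.inl (Sum.inr i)) *
      (FreeGroup.of (Sum.inl (Sum.inl i)))⁻¹ * (FreeGroup.of (Sum.inl (Sum.inr i)))⁻¹ := by
    funext i
    simp only [Function.comp_apply, map_mul, map_inv, io_inl]
  have e2 : (⇑(io h n) ∘ fun i : Fin n => (FreeGroup.of (Sum.inr i) : FG h n)) =
      fun i : Fin n => (FreeGroup.of (Sum.inr i.castSucc) : FG h (n + 1)) := by
    funext j
    exact io_xg j
  rw [e1, e2]

theorem kp_xn : kp h n (xn h (n + 1)) = xn h n := by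
  rw [xn, ← io_cW, map_inv, map_mul, kp_io, kp_last, mul_one, xn]

/-- The congruence subgroup property of the surface with boundary. -/
def G0f (h N : ℕ) : Prop :=
  ∀ H : Subgroup (MulAut (FG h N)), H.relIndex (CPf h N) ≠ 0 →
    ∃ U : Subgroup (FG h N), U.Normal ∧ U.FiniteIndex ∧
      ∀ f ∈ CPf h N, (∀ z, f z * z⁻¹ ∈ U) → f ∈ H

end Pool.MP_59b15d_al.SymH
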