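import Mathlib
import Pool.Agent.H.MP_59b15d_al.h94b.Torus
import Pool.Agent.H.MP_59b15d_al.symh.G1
import Pool.Agent.H.MP_59b15d_al.h76r.Sd

set_option autoImplicit false

namespace Pool.MP_59b15d_al.SymH

open Pool.MP_59b15d_al
open Pool.MP_59b15d_al.Sym (Gg cW)
open Pool.MP_59b15d_al.H76 (F2 gc Fx)

/-- The two models of the free group of the torus with one puncture. -/
def iota1 : F2 ≃* FG 1 0 := FreeGroup.freeGroupCongr
  { toFun := fun j => if j = 0 then Sum.inl (Sum.inl 0) else Sum.inl (Sum.inr 0)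
    invFun := fun x => Sum.elim (fun y => Sum.elim (fun _ => 0) (fun _ => 1) y) Fin.elim0 x
    left_inv := fun j => by fin_cases j <;> rfl
    right_inv := fun x => by
      rcases x with (x | x) | x
      · have hx : x = 0 := Subsingleton.elim _ _
        subst hx
        rfl
      · have hx : x = 0 := Subsingleton.elim _ _
        subst hx
        rfl
      · exact x.elim0 }

theorem iota1_a : iota1 (FreeGroup.of 0) = FreeGroup.of (Sum.inl (Sum.inl 0)) := by
  rw [iota1]
  exact FreeGroup.map.of

theorem iota1_b : iota1 (FreeGroup.of 1) = FreeGroup.of (Sum.inl (Sum.inr 0)) := by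
  rw [iota1]
  exact FreeGroup.map.of

theorem iota1_gc : iota1 gc⁻¹ = xn 1 0 := by
  rw [xn, cW, map_inv, H76.gc, map_mul, map_mul, map_mul, map_inv, map_inv, iota1_a, iota1_b]
  simp

theorem iota1_symm_xn : iota1.symm (xn 1 0) = gc⁻¹ := by
  rw [← iota1_gc, MulEquiv.symm_apply_apply]

/-- (BASE) The congruence subgroup property of the torus with one boundary component. -/
theorem g0f_one_zero : G0f 1 0 := by
  intro H hH
  set C : MulAut F2 ≃* MulAut (FG 1 0) := MulAut.congr iota1 with hC
  have hCa : ∀ (f : MulAut F2) (z : FG 1 0), C f z = iota1 (f (iota1.symm z)) :=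
    fun f z => rfl
  have hmap : Fx.map C.toMonoidHom = CPf 1 0 := by
    ext f
    constructor
    · rintro ⟨g, hg, rfl⟩
      have hg' : g gc = gc := hg
      have h1 : C g (xn 1 0) = xn 1 0 := by
        rw [hCa, iota1_symm_xn, map_inv g, hg', iota1_gc]
      refine ⟨fun j => ⟨1, ?_⟩, h1⟩
      have hj : per j = xn 1 0 := by
        refine Fin.lastCases per_last (fun j => j.elim0) j
      rw [hj]
      change C g (xn 1 0) = _
      rw [h1]
      group
    · intro hf
      refine ⟨C.symm f, ?_, C.apply_symm_apply f⟩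
      change (C.symm f) gc = gc
      have h1 : (C.symm f) gc⁻¹ = iota1.symm (f (iota1 gc⁻¹)) := rfl
      rw [iota1_gc, hf.2, iota1_symm_xn, map_inv] at h1
      exact inv_injective h1
  obtain ⟨U, hU1, hU2, hU⟩ := torus (H.comap C.toMonoidHom) (by
    rw [Subgroup.relIndex_comap, hmap]
    exact hH)
  refine ⟨U.comap iota1.symm.toMonoidHom, hU1.comap _, H76.comap_fi _ hU2, fun f hf hfz => ?_⟩
  have h1 : C.symm f ∈ Fx := by
    rw [← hmap] at hf
    obtain ⟨g, hg, rfl⟩ := hf
    change C.symm (C g) ∈ _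
    rwa [MulEquiv.symm_apply_apply]
  have h2 := hU (C.symm f) h1 (fun z => by
    have h3 := hfz (iota1 z)
    change iota1.symm (f (iota1 z) * (iota1 z)⁻¹) ∈ U at h3
    rw [map_mul, map_inv, MulEquiv.symm_apply_apply] at h3
    exact h3)
  change C (C.symm f) ∈ H at h2
  rwa [MulEquiv.apply_symm_apply] at h2

end Pool.MP_59b15d_al.SymH
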