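import Mathlib
import Pool.Agent.H.MP_59b15d_al.symh.G1
import Pool.Agent.H.MP_59b15d_al.symh.Cent
import Pool.Agent.H.MP_59b15d_al.h76m.Ha
import Pool.Agent.H.MP_59b15d_al.h76m.Hd
import Pool.Agent.H.MP_59b15d_al.h76r.Sd

set_option autoImplicit false

/-!
The section of the Birman sequence, and the passage from the surface with boundary to the punctured
surface.
-/

namespace Pool.MP_59b15d_al.SymH

open Pool.MP_59b15d_al
open Pool.MP_59b15d_al.Sym (Gg cW)
open Pool.MP_59b15d_al.H76 (trivMod mem_trivMod trivMod_finiteIndex exists_char_le free_cs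
  comap_fi)

variable {h n N : ℕ}

theorem ext_io {G : Type*} [Group G] {f g : FG h (n + 1) →* G}
    (h1 : ∀ z, f (io h n z) = g (io h n z))
    (h2 : f (xg (Fin.last n)) = g (xg (Fin.last n))) : f = g := by
  ext x
  rcases x with c | j
  · rw [← io_inl, h1]
  · refine Fin.lastCases (motive := fun j => f (FreeGroup.of (Sum.inr j)) =
      g (FreeGroup.of (Sum.inr j))) ?_ (fun j => ?_) j
    · exact h2
    · change f (xg j.castSucc) = g (xg j.castSucc)
      rw [← io_xg, h1]

/-- Extension by the identity of the last generator. -/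
def sHom (f : FG h n →* FG h n) : FG h (n + 1) →* FG h (n + 1) :=
  FreeGroup.lift (Sum.elim (fun c => io h n (f (FreeGroup.of (Sum.inl c))))
    (Fin.lastCases (xg (Fin.last n)) fun j => io h n (f (xg j))))

theorem sHom_last (f : FG h n →* FG h n) : sHom f (xg (Fin.last n)) = xg (Fin.last n) := by
  simp [sHom]

theorem sHom_io (f : FG h n →* FG h n) (z : FG h n) : sHom f (io h n z) = io h n (f z) := by
  have h1 : (sHom f).comp (io h n) = (io h n).comp f := by
    ext x
    rcases x with c | j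
    · rw [MonoidHom.comp_apply, io_inl, MonoidHom.comp_apply]
      simp [sHom]
    · change sHom f (io h n (xg j)) = io h n (f (xg j))
      rw [io_xg]
      simp [sHom]
  exact DFunLike.congr_fun h1 z

theorem sHom_comp (f g : FG h n →* FG h n) : (sHom f).comp (sHom g) = sHom (f.comp g) := by
  apply ext_io
  · intro z
    rw [MonoidHom.comp_apply, sHom_io, sHom_io, sHom_io, MonoidHom.comp_apply]
  · rw [MonoidHom.comp_apply, sHom_last, sHom_last, sHom_last]

theorem sHom_id : sHom (MonoidHom.id (FG h n)) = MonoidHom.id (FG h (n + 1)) := by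
  apply ext_io
  · intro z
    rw [sHom_io, MonoidHom.id_apply, MonoidHom.id_apply]
  · rw [sHom_last, MonoidHom.id_apply]

def sAut (f : MulAut (FG h n)) : MulAut (FG h (n + 1)) :=
  MonoidHom.toMulEquiv (sHom f.toMonoidHom) (sHom (f⁻¹ : MulAut (FG h n)).toMonoidHom)
    (by
      rw [sHom_comp]
      have : (f⁻¹ : MulAut (FG h n)).toMonoidHom.comp f.toMonoidHom = MonoidHom.id _ := by
        ext j
        change (f⁻¹ * f) (FreeGroup.of j) = FreeGroup.of j
        rw [inv_mul_cancel]
        rfl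
      rw [this, sHom_id])
    (by
      rw [sHom_comp]
      have : f.toMonoidHom.comp (f⁻¹ : MulAut (FG h n)).toMonoidHom = MonoidHom.id _ := by
        ext j
        change (f * f⁻¹) (FreeGroup.of j) = FreeGroup.of j
        rw [mul_inv_cancel]
        rfl
      rw [this, sHom_id])

theorem sAut_io (f : MulAut (FG h n)) (z : FG h n) : sAut f (io h n z) = io h n (f z) :=
  sHom_io f.toMonoidHom z

theorem sAut_last (f : MulAut (FG h n)) : sAut f (xg (Fin.last n)) = xg (Fin.last n) :=
  sHom_last f.toMonoidHom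

theorem aut_ext_io {f g : MulAut (FG h (n + 1))} (h1 : ∀ z, f (io h n z) = g (io h n z))
    (h2 : f (xg (Fin.last n)) = g (xg (Fin.last n))) : f = g := by
  apply MulEquiv.toMonoidHom_injective
  exact ext_io h1 h2

/-- The section. -/
def ss (h n : ℕ) : MulAut (FG h n) →* MulAut (FG h (n + 1)) where
  toFun := sAut
  map_one' := by
    apply aut_ext_io
    · intro z
      rw [sAut_io]
      rfl
    · rw [sAut_last]
      rfl
  map_mul' := by
    intro f g
    apply aut_ext_io
    · intro z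
      rw [sAut_io, MulAut.mul_apply, MulAut.mul_apply, sAut_io, sAut_io]
    · rw [sAut_last, MulAut.mul_apply, sAut_last, sAut_last]

theorem ss_io (f : MulAut (FG h n)) (z : FG h n) : ss h n f (io h n z) = io h n (f z) :=
  sAut_io f z

theorem ss_last (f : MulAut (FG h n)) : ss h n f (xg (Fin.last n)) = xg (Fin.last n) :=
  sAut_last f

theorem kp_ss (f : MulAut (FG h n)) (z : FG h (n + 1)) : kp h n (ss h n f z) = f (kp h n z) := by
  have h1 : (kp h n).comp (ss h n f).toMonoidHom = f.toMonoidHom.comp (kp h n) := by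
    apply ext_io
    · intro z
      change kp h n (ss h n f (io h n z)) = f (kp h n (io h n z))
      rw [ss_io, kp_io, kp_io]
    · change kp h n (ss h n f (xg (Fin.last n))) = f (kp h n (xg (Fin.last n)))
      rw [ss_last, kp_last, map_one]
  exact DFunLike.congr_fun h1 z

theorem ss_CPf {b : MulAut (FG h n)} (hb : b ∈ CPf h n) : ss h n b ∈ CPf h (n + 1) := by
  have hx : ss h n b (xn h (n + 1)) = xn h (n + 1) := by
    have h1 := hb.2
    rw [xn, map_inv] at h1
    rw [xn, ← io_cW, map_inv, map_mul, ss_io, ss_last, inv_injective h1]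
  refine ⟨fun j => ?_, hx⟩
  refine Fin.lastCases ?_ (fun j => ?_) j
  · exact ⟨1, by rw [per_last, hx]; group⟩
  · rw [per_castSucc]
    refine Fin.lastCases ?_ (fun j => ?_) j
    · exact ⟨1, by rw [ss_last]; group⟩
    · obtain ⟨w, hw⟩ := hb.1 j.castSucc
      rw [per_castSucc] at hw
      exact ⟨io h n w, by rw [← io_xg, ss_io, hw, map_mul, map_mul, map_inv]⟩

/-- The kernel of `kp` is preserved. -/
theorem kp_ker {f : MulAut (FG h (n + 1))} (hf : f ∈ CP h (n + 1)) (z : FG h (n + 1))
    (hz : kp h n z = 1) : kp h n (f z) = 1 := by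
  obtain ⟨w, hw⟩ := hf (Fin.last n).castSucc
  rw [per_castSucc] at hw
  -- `z` is in the normal closure of `T`
  have key : ∀ z : FG h (n + 1), kp h n (f (io h n (kp h n z))) = kp h n (f z) := by
    intro z
    have h1 : ((kp h n).comp (f.toMonoidHom.comp (io h n))).comp (kp h n) =
        (kp h n).comp f.toMonoidHom := by
      apply ext_io
      · intro z
        change kp h n (f (io h n (kp h n (io h n z)))) = kp h n (f (io h n z))
        rw [kp_io]
      · change kp h n (f (io h n (kp h n (xg (Fin.last n))))) = kp h n (f (xg (Fin.last n)))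
        rw [kp_last, map_one, map_one, map_one, hw, map_mul, map_mul, map_inv, kp_last]
        group
    exact DFunLike.congr_fun h1 z
  rw [← key, hz, map_one, map_one, map_one]

/-- The induced automorphism. -/
theorem exists_bar {f : MulAut (FG h (n + 1))} (hf : f ∈ CPf h (n + 1)) :
    ∃ b ∈ CPf h n, ∀ z, kp h n (f z) = b (kp h n z) := by
  obtain ⟨b, hb⟩ := descend (kp h n) (fun y => ⟨io h n y, kp_io y⟩) f (fun z => by
    refine ⟨kp_ker hf.1 z, fun hz => ?_⟩
    have h1 := kp_ker ((CP h (n + 1)).inv_mem hf.1) _ hz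
    rwa [← MulAut.mul_apply, inv_mul_cancel, MulAut.one_apply] at h1)
  have hx : b (xn h n) = xn h n := by
    rw [← kp_xn, hb, hf.2]
  refine ⟨b, ⟨fun j => ?_, hx⟩, fun z => (hb z).symm⟩
  refine Fin.lastCases ?_ (fun j => ?_) j
  · exact ⟨1, by rw [per_last, hx]; group⟩
  · rw [per_castSucc]
    obtain ⟨w, hw⟩ := hf.1 j.castSucc.castSucc
    rw [per_castSucc] at hw
    exact ⟨kp h n w, by rw [← kp_cast, hb, hw, map_mul, map_mul, map_inv]⟩

theorem fi_comap {G G' : Type*} [Group G] [Group G'] (f : G →* G') {H K : Subgroup G'}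
    (h1 : H.relIndex K ≠ 0) {L : Subgroup G} (hf : ∀ x ∈ L, f x ∈ K) :
    (H.comap f).relIndex L ≠ 0 := by
  rw [Subgroup.relIndex_comap]
  intro h0
  apply h1
  refine Subgroup.relIndex_eq_zero_of_le_right ?_ h0
  rintro _ ⟨x, hx, rfl⟩
  exact hf x hx

/-- The centraliser of the last peripheral loop modulo levels. -/
theorem cs_xn (hN : 1 ≤ h ∨ 4 ≤ N) (U : Subgroup (FG h N)) (hU : U.Normal) (hUf : U.FiniteIndex) :
    ∃ Γ : Subgroup (FG h N), Γ.Normal ∧ Γ.FiniteIndex ∧ Γ ≤ U ∧
      ∀ w, w * xn h N * w⁻¹ * (xn h N)⁻¹ ∈ Γ → ∃ a : ℤ, (xn h N ^ a)⁻¹ * w ∈ U := by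
  have hUi : U.index ≠ 0 := hUf.index_ne_zero
  have hL : Lev (fun _ : Fin N => 2 * U.index) 2 ⊤ ∅ U := by
    refine ⟨le_top, fun d _ u hu => hU.conj_mem u hu d, hUf, fun j g => ?_, fun g hg => hg.elim⟩
    refine hU.conj_mem _ ?_ g
    rw [mul_comm, pow_mul]
    exact U.pow_mem (U.pow_index_mem _) 2
  obtain ⟨Γ, hΓ, hΓle, hΓ'⟩ := cent hN (fun _ : Fin N => 2 * U.index) (fun j => by omega) 2 le_rfl ⊤
    inferInstance inferInstance (Subgroup.mem_top _) ∅ U hL 1
  refine ⟨Γ, ⟨fun u hu d => hΓ.nor d (Subgroup.mem_top _) u hu⟩, hΓ.fin, hΓle, fun w hw => ?_⟩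
  have e1 : (1 * xn h N * 1⁻¹ : FG h N) = xn h N := by group
  obtain ⟨a, ha⟩ := hΓ' w (Subgroup.mem_top _) (by rwa [e1])
  rw [e1] at ha
  exact ⟨a, ha⟩

/-- From the surface with boundary to the surface with `N + 1` punctures. -/
theorem hasG0_of_g0f (hN : 1 ≤ h ∨ 4 ≤ N) (hG : G0f h N) : HasG0 h N := by
  intro H hH
  have hle : CPf h N ≤ CP h N := fun f hf => hf.1
  obtain ⟨U0, hU0n, hU0f, hU0⟩ := hG H (fun h0 => hH (Subgroup.relIndex_eq_zero_of_le_right
    hle h0))
  have hKf : (H.comap (MulAut.conj : FG h N →* MulAut (FG h N))).FiniteIndex := by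
    constructor
    rw [← Subgroup.relIndex_top_right]
    exact fi_comap _ hH fun y _ => conj_mem_CP y
  have hKcf : (H.comap (MulAut.conj : FG h N →* MulAut (FG h N))).normalCore.FiniteIndex :=
    Subgroup.finiteIndex_normalCore _
  obtain ⟨M, hMn, hMf, hMle, hM⟩ := cs_xn hN
    (U0 ⊓ (H.comap (MulAut.conj : FG h N →* MulAut (FG h N))).normalCore) inferInstance
    inferInstance
  refine ⟨M, hMn, hMf, fun f hf hfM => ?_⟩
  obtain ⟨g, hg⟩ := hf (Fin.last N)
  rw [per_last] at hg
  have h1 := hfM (xn h N)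
  rw [hg] at h1
  obtain ⟨a, ha⟩ := hM g h1
  -- `g = x^a u`
  set x := xn h N with hx
  set u := g * x ^ (-a) with hu
  have huU : u ∈ U0 ⊓ (H.comap (MulAut.conj : FG h N →* MulAut (FG h N))).normalCore := by
    have h2 : (U0 ⊓ (H.comap (MulAut.conj : FG h N →* MulAut (FG h N))).normalCore).Normal :=
      inferInstance
    have h3 := h2.conj_mem _ ha (x ^ a)
    have h4 : x ^ a * ((x ^ a)⁻¹ * g) * (x ^ a)⁻¹ = u := by
      rw [hu]
      group
    rwa [h4] at h3
  have huH : MulAut.conj u ∈ H := by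
    have h2 : u ∈ H.comap (MulAut.conj : FG h N →* MulAut (FG h N)) :=
      Subgroup.normalCore_le _ huU.2
    exact h2
  have hgu : f x = u * x * u⁻¹ := by
    rw [hg, hu]
    group
  have hf1 : (MulAut.conj u)⁻¹ * f ∈ H := by
    apply hU0
    · refine ⟨mul_mem (inv_mem (conj_mem_CP u)) hf, ?_⟩
      rw [← hx, MulAut.mul_apply, hgu, ← map_inv, MulAut.conj_apply]
      group
    · intro z
      rw [MulAut.mul_apply, ← map_inv, MulAut.conj_apply]
      have e : u⁻¹ * f z * u⁻¹⁻¹ * z⁻¹ = u⁻¹ * (f z * z⁻¹) * (z * u * z⁻¹) := by group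
      rw [e]
      exact U0.mul_mem (U0.mul_mem (U0.inv_mem huU.1) (hMle (hfM z)).1)
        (hU0n.conj_mem u huU.1 z)
  have h2 := mul_mem huH hf1
  rwa [mul_inv_cancel_left] at h2

end Pool.MP_59b15d_al.SymH
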