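import Mathlib
import Pool.Agent.H.MP_59b15d_al.symh.Equi
import Pool.Agent.H.MP_59b15d_al.symh.Mf
import Pool.Agent.H.MP_59b15d_al.h77s.Gu
import Pool.Agent.H.MP_59b15d_al.h76r.Sd

set_option autoImplicit false

namespace Pool.MP_59b15d_al.SymH

open Pool.MP_59b15d_al
open Pool.MP_59b15d_al.H76 (StdGen InnMod)

/-- `G` is a closed surface group, and the genus formula. -/
theorem cov_genus {ν N : ℕ} {G : Type*} [Group G] {K : Subgroup (FG ν N)}
    {e : Fin (N + 1) → ℕ} {q : ↥K →* G} (h : IsCov K e q) :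
    ∃ (p : ℕ) (a b : Fin p → G), StdGen a b ∧ (2 * p - 2 : ℚ) =
      K.index * (2 * ν + N - 1 - ∑ j : Fin (N + 1), (1 / e j : ℚ)) := by
  have he : e = (Fin.lastCases (e (Fin.last N)) (fun j : Fin N => e j.castSucc) :
      Fin (N + 1) → ℕ) := by
    funext j
    refine Fin.lastCases ?_ (fun j => ?_) j
    · simp
    · simp
  have hpt : 0 < ν + N := by
    rcases hyp_cases h.two h.hyp with h1 | ⟨_, h1⟩
    · omega
    · omega
  obtain ⟨p, a, b, h', hp⟩ := H95H.mfClosed (h := ν) hpt (fun j => e j.castSucc)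
    (fun j => le_trans (by norm_num) (h.two _))
    K h.nor h.fin (fun j => by
      rw [← per_castSucc]
      exact (h.ord _ _).2 dvd_rfl)
    (fun j k hk => by
      rw [← per_castSucc] at hk
      exact (h.ord _ _).1 hk) (e (Fin.last N)) (le_trans (by norm_num) (h.two _)) (by
      rw [← per_last]
      exact (h.ord _ _).2 dvd_rfl)
    (fun k hk => by
      rw [← per_last] at hk
      exact (h.ord _ _).1 hk) q h.sur (fun z => by
      rw [h.ker, he]
      simp only [Fin.lastCases_last, Fin.lastCases_castSucc])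
  refine ⟨p, a, b, h', ?_⟩
  rw [hp, Fin.sum_univ_castSucc]
  ring

theorem sum_le_half {N : ℕ} (e : Fin (N + 1) → ℕ) (he : ∀ j, 2 ≤ e j) :
    (∑ j : Fin (N + 1), (1 / (e j : ℕ) : ℚ)) ≤ (N + 1) * (1 / 2) := by
  calc (∑ j : Fin (N + 1), (1 / (e j : ℕ) : ℚ)) ≤ ∑ j : Fin (N + 1), (1 / 2 : ℚ) := by
        refine Finset.sum_le_sum fun j _ => ?_
        have : (2 : ℚ) ≤ (e j : ℕ) := by exact_mod_cast he _
        exact one_div_le_one_div_of_le (by norm_num) this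
    _ = (N + 1) * (1 / 2) := by simp

theorem tri1 {a b c : ℕ} (ha : 2 ≤ a) (hb : 2 ≤ b) (hc : 7 ≤ c)
    (h : (1 / a + 1 / b + 1 / c : ℚ) < 1) : (1 / a + 1 / b + 1 / c : ℚ) ≤ 41 / 42 := by
  have h1 : ∀ {x y : ℕ}, 0 < x → x ≤ y → (1 / y : ℚ) ≤ 1 / x := fun {x y} hx hxy =>
    one_div_le_one_div_of_le (by exact_mod_cast hx) (by exact_mod_cast hxy)
  have h7 := h1 (by norm_num) hc
  have ha2 := h1 (by norm_num) ha
  have hb2 := h1 (by norm_num) hb
  have h0 : (0 : ℚ) ≤ 1 / c := by positivity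
  have h0' : (0 : ℚ) < 1 / c := by positivity
  by_cases h3 : 3 ≤ a
  · have := h1 (by norm_num) h3
    push_cast at *
    linarith
  by_cases h4 : 3 ≤ b
  · have := h1 (by norm_num) h4
    push_cast at *
    linarith
  obtain rfl : a = 2 := by omega
  obtain rfl : b = 2 := by omega
  push_cast at h
  linarith

theorem tri2 {a b c : ℕ} (ha : 2 ≤ a) (hb : 2 ≤ b) (hc : 2 ≤ c) (ha' : a < 7) (hb' : b < 7)
    (hc' : c < 7) (h : (1 / a + 1 / b + 1 / c : ℚ) < 1) :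
    (1 / a + 1 / b + 1 / c : ℚ) ≤ 41 / 42 := by
  interval_cases a <;> interval_cases b <;> interval_cases c <;> first | (norm_num at h; done) | (norm_num; done)

theorem tri {a b c : ℕ} (ha : 2 ≤ a) (hb : 2 ≤ b) (hc : 2 ≤ c)
    (h : (1 / a + 1 / b + 1 / c : ℚ) < 1) : (1 / a + 1 / b + 1 / c : ℚ) ≤ 41 / 42 := by
  by_cases hc' : c < 7
  · by_cases hb' : b < 7
    · by_cases ha' : a < 7
      · exact tri2 ha hb hc ha' hb' hc' h
      · have := tri1 (a := c) (b := b) (c := a) hc hb (by omega) (by linarith)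
        linarith
    · have := tri1 (a := a) (b := c) (c := b) ha hc (by omega) (by linarith)
      linarith
  · exact tri1 ha hb (by omega) h

theorem IsCov.sixth {ν N : ℕ} {G : Type*} [Group G] {K : Subgroup (FG ν N)}
    {e : Fin (N + 1) → ℕ} {q : ↥K →* G} (h : IsCov K e q) :
    (1 / 42 : ℚ) ≤ 2 * ν + N - 1 - ∑ j : Fin (N + 1), (1 / e j : ℚ) ∧
      2 * ν + (N - 3) / 2 ≤ (2 * ν + N - 1 - ∑ j : Fin (N + 1), (1 / e j : ℚ)) := by
  have h3 := sum_le_half e h.two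
  have h0 : (0 : ℚ) ≤ ν := Nat.cast_nonneg _
  have h0' : (0 : ℚ) ≤ N := Nat.cast_nonneg _
  refine ⟨?_, by linarith⟩
  rcases hyp_cases h.two h.hyp with hpt | ⟨rfl, rfl⟩
  · by_cases hN : 1 ≤ ν ∨ 4 ≤ N
    · rcases hN with hN | hN
      · have : (1 : ℚ) ≤ ν := by exact_mod_cast hN
        linarith
      · have : (4 : ℚ) ≤ N := by exact_mod_cast hN
        linarith
    push Not at hN
    obtain ⟨h1, h2⟩ := hN
    obtain rfl : ν = 0 := by omega
    obtain rfl : N = 3 := by omega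
    obtain ⟨i, hi⟩ := hyp_three h.two h.hyp
    rw [← Finset.add_sum_erase _ _ (Finset.mem_univ i)]
    have h4 : (1 / e i : ℚ) ≤ 1 / 3 := by
      have h5 : (3 : ℚ) ≤ e i := by exact_mod_cast hi
      exact one_div_le_one_div_of_le (by norm_num) h5
    have h6 : ∑ j ∈ Finset.univ.erase i, (1 / e j : ℚ) ≤
        ∑ j ∈ Finset.univ.erase i, (1 / 2 : ℚ) := by
      refine Finset.sum_le_sum fun j _ => ?_
      have h4 : (2 : ℚ) ≤ e j := by exact_mod_cast h.two j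
      exact one_div_le_one_div_of_le (by norm_num) h4
    rw [Finset.sum_const, Finset.card_erase_of_mem (Finset.mem_univ i), Finset.card_univ,
      Fintype.card_fin, nsmul_eq_mul] at h6
    push_cast at h6 ⊢
    linarith
  · have h4 := h.hyp
    have h5 := tri (h.two 0) (h.two 1) (h.two 2) (by
      rw [Fin.sum_univ_three] at h4
      push_cast at h4
      linarith)
    rw [Fin.sum_univ_three]
    push_cast at h5 ⊢
    linarith

/-- The bound from the genus formula. -/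
theorem bound {ν N : ℕ} {G : Type*} [Group G] {K : Subgroup (FG ν N)}
    {e : Fin (N + 1) → ℕ} {q : ↥K →* G} (h : IsCov K e q) {p : ℕ} {a b : Fin p → G}
    (hp : StdGen a b) : 2 ≤ p ∧ ν ≤ 84 * p ∧ N ≤ 84 * p ∧ K.index ≤ 84 * p := by
  obtain ⟨p', a', b', h', hp'⟩ := cov_genus h
  have hpp := Sym.genus_unique hp h'
  subst hpp
  obtain ⟨h1, h2⟩ := h.sixth
  set S := 2 * (ν : ℚ) + N - 1 - ∑ j : Fin (N + 1), (1 / e j : ℚ) with hS
  have h5 : (1 : ℚ) ≤ K.index := by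
    have := h.fin.index_ne_zero
    exact_mod_cast Nat.one_le_iff_ne_zero.2 this
  have h0 : (0 : ℚ) ≤ ν := Nat.cast_nonneg _
  have h0' : (0 : ℚ) ≤ N := Nat.cast_nonneg _
  have h8 : S ≤ 2 * p - 2 := by nlinarith
  have h10 : (K.index : ℚ) * (1 / 42) ≤ 2 * p - 2 := by nlinarith
  have h11 : 2 ≤ p := by
    have h12 : (1 : ℚ) < p := by linarith
    have h13 : 1 < p := by exact_mod_cast h12
    omega
  refine ⟨h11, ?_, ?_, ?_⟩
  · have h9 : (ν : ℚ) ≤ 84 * p := by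
      have : (2 : ℚ) ≤ p := by exact_mod_cast h11
      linarith
    exact_mod_cast h9
  · have h9 : (N : ℚ) ≤ 84 * p := by
      have : (2 : ℚ) ≤ p := by exact_mod_cast h11
      linarith
    exact_mod_cast h9
  · have h9 : (K.index : ℚ) ≤ 84 * p := by linarith
    exact_mod_cast h9

/-- Finitely many `(ν, N, K)`. -/
theorem finite_NK (B : ℕ) : Finite {x : Σ ν : ℕ, Σ N : ℕ, Subgroup (FG ν N) // x.2.2.Normal ∧
    x.2.2.FiniteIndex ∧ x.1 ≤ B ∧ x.2.1 ≤ B ∧ x.2.2.index ≤ B} := by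
  have hfin : ∀ (ν N k : ℕ), Finite (FG ν N →* Equiv.Perm (Fin k)) := fun ν N k => H76.finite_hom
  set T := Σ ν : Fin (B + 1), Σ N : Fin (B + 1), Σ k : Fin (B + 1),
    (FG (ν : ℕ) (N : ℕ) →* Equiv.Perm (Fin (k : ℕ))) with hT
  have : Finite T := inferInstance
  set Φ : T → Σ ν : ℕ, Σ N : ℕ, Subgroup (FG ν N) :=
    fun t => ⟨(t.1 : ℕ), (t.2.1 : ℕ), t.2.2.2.ker⟩ with hΦ
  have hr : (Set.range Φ).Finite := Set.finite_range Φ
  refine Set.Finite.subset hr ?_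
  rintro ⟨ν, N, K⟩ ⟨h1, h2, h3, h3', h4⟩
  have hfq : Finite (FG ν N ⧸ K) := Subgroup.finite_quotient_of_finiteIndex
  have hc : Nat.card (FG ν N ⧸ K) = K.index := rfl
  obtain ⟨E⟩ : Nonempty ((FG ν N ⧸ K) ≃ Fin K.index) := by
    have := Finite.equivFin (FG ν N ⧸ K)
    rw [hc] at this
    exact ⟨this⟩
  have h3'' : ν < B + 1 := by
    change ν ≤ B at h3
    omega
  have h3''' : N < B + 1 := by
    change N ≤ B at h3'
    omega
  have h4' : K.index < B + 1 := by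
    change K.index ≤ B at h4
    omega
  refine ⟨⟨⟨ν, h3''⟩, ⟨N, h3'''⟩, ⟨K.index, h4'⟩, (E.permCongrHom.toMonoidHom.comp
    (MulAction.toPermHom (FG ν N) (FG ν N ⧸ K)))⟩, ?_⟩
  simp only [hΦ]
  congr 2
  ext z
  rw [MonoidHom.mem_ker, MonoidHom.comp_apply]
  change E.permCongrHom (MulAction.toPermHom (FG ν N) (FG ν N ⧸ K) z) = 1 ↔ _
  rw [map_eq_one_iff _ E.permCongrHom.injective]
  rw [← MonoidHom.mem_ker, ← Subgroup.normalCore_eq_ker, Subgroup.normalCore_eq_self]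

theorem same_ker {K G : Type*} [Group K] [Group G] (q q' : K →* G) (hq : Function.Surjective q)
    (hq' : Function.Surjective q') (h : ∀ z, q z = 1 ↔ q' z = 1) :
    ∃ φ : MulAut G, ∀ z, φ (q z) = q' z := by
  have h1 : q.ker ≤ q'.ker := fun z hz => (h z).1 hz
  have h2 : q'.ker ≤ q.ker := fun z hz => (h z).2 hz
  have h3 : ∀ z, q.liftOfSurjective hq ⟨q', h1⟩ (q z) = q' z := fun z =>
    MonoidHom.liftOfRightInverse_comp_apply q (Function.surjInv hq) _ ⟨q', h1⟩ z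
  have h4 : ∀ z, q'.liftOfSurjective hq' ⟨q, h2⟩ (q' z) = q z := fun z =>
    MonoidHom.liftOfRightInverse_comp_apply q' (Function.surjInv hq') _ ⟨q, h2⟩ z
  refine ⟨MonoidHom.toMulEquiv (q.liftOfSurjective hq ⟨q', h1⟩)
    (q'.liftOfSurjective hq' ⟨q, h2⟩) ?_ ?_, h3⟩
  · ext y
    obtain ⟨z, rfl⟩ := hq y
    rw [MonoidHom.comp_apply, h3, h4, MonoidHom.id_apply]
  · ext y
    obtain ⟨z, rfl⟩ := hq' y
    rw [MonoidHom.comp_apply, h4, h3, MonoidHom.id_apply]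

theorem IsCov.e_eq {ν N : ℕ} {G G' : Type*} [Group G] [Group G'] {K : Subgroup (FG ν N)}
    {e e' : Fin (N + 1) → ℕ} {q : ↥K →* G} {q' : ↥K →* G'} (h : IsCov K e q)
    (h' : IsCov K e' q') : e = e' := by
  funext j
  exact Nat.dvd_antisymm ((h.ord j _).1 ((h'.ord j _).2 dvd_rfl))
    ((h'.ord j _).1 ((h.ord j _).2 dvd_rfl))

theorem transfer {ν N : ℕ} {G : Type*} [Group G] {K : Subgroup (FG ν N)}
    {e e₀ : Fin (N + 1) → ℕ} {q q₀ : ↥K →* G} (h : IsCov K e q) (h₀ : IsCov K e₀ q₀) :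
    ∃ α : MulAut G, ∀ φ ∈ SS K q, α⁻¹ * φ * α ∈ SS K q₀ := by
  have he := h.e_eq h₀
  subst he
  obtain ⟨α, hα⟩ := same_ker q₀ q h₀.sur h.sur (fun z => by rw [h₀.ker, h.ker])
  refine ⟨α, ?_⟩
  rintro φ ⟨f, hf, hφ⟩
  refine ⟨f, hf, fun z z' hz => ?_⟩
  change α⁻¹ (φ (α (q₀ z))) = q₀ z'
  rw [hα, hφ z z' hz, ← hα]
  exact MulAut.inv_apply_self _ _ _

/-- The uniform version. -/
theorem uniform {p : ℕ} {G : Type*} [Group G] {a b : Fin p → G} (h : StdGen a b)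
    (H : Subgroup (MulAut G)) (hH : H.FiniteIndex) (hi : ∀ x : G, MulAut.conj x ∈ H) :
    ∃ Γ : Subgroup G, Γ.Characteristic ∧ Γ.FiniteIndex ∧
      ∀ (ν N : ℕ) (K : Subgroup (FG ν N)) (e : Fin (N + 1) → ℕ) (q : ↥K →* G),
        HasG0 ν N → IsCov K e q → ∀ φ ∈ SS K q, InnMod Γ φ → φ ∈ H := by
  classical
  set H' := H.normalCore with hH'
  have hH'f : H'.FiniteIndex := inferInstance
  have hH'i : ∀ x : G, MulAut.conj x ∈ H' := by
    intro x ψ
    have h1 : ψ * MulAut.conj x * ψ⁻¹ = MulAut.conj (ψ x) := by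
      ext y
      change ψ (x * ψ⁻¹ y * x⁻¹) = ψ x * y * (ψ x)⁻¹
      rw [map_mul, map_mul, map_inv, MulAut.apply_inv_self]
    rw [h1]
    exact hi _
  set T := {x : Σ ν : ℕ, Σ N : ℕ, Subgroup (FG ν N) // x.2.2.Normal ∧
    x.2.2.FiniteIndex ∧ x.1 ≤ 84 * p ∧ x.2.1 ≤ 84 * p ∧ x.2.2.index ≤ 84 * p} with hT
  have hTf : Finite T := finite_NK (84 * p)
  have key : ∀ x : T, ∃ Γ : Subgroup G, Γ.Characteristic ∧ Γ.FiniteIndex ∧
      ∀ (e : Fin (x.1.2.1 + 1) → ℕ) (q : ↥x.1.2.2 →* G),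
        HasG0 x.1.1 x.1.2.1 → IsCov x.1.2.2 e q →
          ∀ φ ∈ SS x.1.2.2 q, InnMod Γ φ → φ ∈ H' := by
    rintro ⟨⟨ν, N, K⟩, hK⟩
    by_cases hex : ∃ (e : Fin (N + 1) → ℕ) (q : ↥K →* G), HasG0 ν N ∧
        IsCov K e q
    · obtain ⟨e₀, q₀, hG0, hc₀⟩ := hex
      obtain ⟨Γ, hc, hf, hΓ⟩ := csp_of_g0 hG0 hc₀ H' (by
        have := Subgroup.isFiniteRelIndex_of_finiteIndex (H := H') (K := SS K q₀)
        exact Subgroup.relIndex_ne_zero) hH'i
      refine ⟨Γ, hc, hf, fun e q _ hcov φ hφ hin => ?_⟩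
      obtain ⟨α, hα⟩ := transfer hcov hc₀
      have h1 := hΓ _ (hα φ hφ) (by
        obtain ⟨g, hg⟩ := hin
        refine ⟨α⁻¹ g, fun x => ?_⟩
        have h2 := H76.apply_mem_of_char hc α⁻¹ (hg (α x))
        rw [map_mul, map_inv, map_mul, map_mul, map_inv, MulAut.inv_apply_self] at h2
        exact h2)
      have h2 : H'.Normal := inferInstance
      have h3 := h2.conj_mem _ h1 α
      have h4 : α * (α⁻¹ * φ * α) * α⁻¹ = φ := by group
      rwa [h4] at h3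
    · refine ⟨⊤, inferInstance, inferInstance, fun e q hG0 hcov => ?_⟩
      exact absurd ⟨e, q, hG0, hcov⟩ hex
  choose Γ hΓc hΓf hΓ using key
  refine ⟨⨅ x, Γ x, ?_, Subgroup.finiteIndex_iInf hΓf,
    fun ν N K e q hG0 hcov φ hφ hin => ?_⟩
  · rw [Subgroup.characteristic_iff_le_comap]
    intro ψ x hx
    rw [Subgroup.mem_comap, Subgroup.mem_iInf]
    intro t
    exact H76.apply_mem_of_char (hΓc t) ψ (Subgroup.mem_iInf.1 hx t)
  · have hb := (bound hcov h).2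
    have h1 := hΓ ⟨⟨ν, N, K⟩, hcov.nor, hcov.fin, hb.1, hb.2.1, hb.2.2⟩ e q hG0 hcov φ hφ
      (H76.innMod_mono (iInf_le Γ _) hin)
    exact H.normalCore_le h1

end Pool.MP_59b15d_al.SymH
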