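import Mathlib
import Pool.Agent.H.MP_59b15d_al.sym.G0
import Pool.Agent.H.MP_59b15d_al.symh.Equi
import Pool.Agent.H.MP_59b15d_al.symh.Iota
import Pool.Agent.H.MP_59b15d_al.h76r.Sd

set_option autoImplicit false

namespace Pool.MP_59b15d_al.SymH

open Pool.MP_59b15d_al
open Pool.MP_59b15d_al.Sym (Gg cW)

variable {N : ℕ}

theorem hasG0_zero : HasG0 0 N := by
  intro H hH
  set C : MulAut (Sym.FF N) ≃* MulAut (FG 0 N) := MulAut.congr (iota0 N) with hC
  have hCa : ∀ (f : MulAut (Sym.FF N)) (z : FG 0 N), C f z = iota0 N (f ((iota0 N).symm z)) :=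
    fun f z => rfl
  have hmap : (Sym.CP N).map C.toMonoidHom = CP 0 N := by
    ext f
    constructor
    · rintro ⟨g, hg, rfl⟩ j
      obtain ⟨w, hw⟩ := hg j
      refine ⟨iota0 N w, ?_⟩
      change C g (per j) = _
      rw [hCa, iota0_symm_per, hw, map_mul, map_mul, map_inv, iota0_per]
    · intro hf
      refine ⟨C.symm f, fun j => ?_, C.apply_symm_apply f⟩
      obtain ⟨w, hw⟩ := hf j
      refine ⟨(iota0 N).symm w, ?_⟩
      have h1 : (C.symm f) (Sym.per j) = (iota0 N).symm (f (iota0 N (Sym.per j))) := rfl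
      rw [h1, iota0_per, hw, map_mul, map_mul, map_inv, iota0_symm_per]
  obtain ⟨U, hU1, hU2, hU⟩ := Sym.g0 (H.comap C.toMonoidHom) (by
    rw [Subgroup.relIndex_comap, hmap]
    exact hH)
  refine ⟨U.comap (iota0 N).symm.toMonoidHom, hU1.comap _, ?_, fun f hf hfz => ?_⟩
  · exact H76.comap_fi _ hU2
  · have h1 : C.symm f ∈ Sym.CP N := by
      rw [← hmap] at hf
      obtain ⟨g, hg, rfl⟩ := hf
      change C.symm (C g) ∈ _
      rwa [MulEquiv.symm_apply_apply]
    have h2 := hU (C.symm f) h1 (fun z => by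
      have h3 := hfz (iota0 N z)
      change (iota0 N).symm (f (iota0 N z) * (iota0 N z)⁻¹) ∈ U at h3
      rw [map_mul, map_inv, MulEquiv.symm_apply_apply] at h3
      exact h3)
    change C (C.symm f) ∈ H at h2
    rwa [MulEquiv.apply_symm_apply] at h2

end Pool.MP_59b15d_al.SymH
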