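import Mathlib
import Pool.Agent.H.MP_59b15d_al.symh.Uni
import Pool.Agent.H.MP_59b15d_al.symh.Zero
import Pool.Agent.H.MP_59b15d_al.h73h.One
import Pool.Agent.H.MP_59b15d_al.h76r.Sd

set_option autoImplicit false

namespace Pool.MP_59b15d_al.SymH

open Pool.MP_59b15d_al.H76 (StdGen InnMod)

/-- The congruence subgroup property of the punctured surfaces of genus at most one, and, for higher
genus, from the surface with one puncture. -/
theorem hasG0_all {ν : ℕ} (h : ν ≤ 1 ∨ HasG0 ν 0) (N : ℕ) : HasG0 ν N := by
  rcases Nat.lt_or_ge ν 1 with h1 | h1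
  · obtain rfl : ν = 0 := by omega
    exact hasG0_zero
  · rcases h with h | h
    · obtain rfl : ν = 1 := by omega
      exact H73H.hasG0_one N
    · exact H73H.g0_all h1 h N

end Pool.MP_59b15d_al.SymH
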