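import Mathlib
import Pool.Agent.H.MP_59b15d_al.symh.G1
import Pool.Agent.H.MP_59b15d_al.h95h.Bi3
import Pool.Agent.H.MP_59b15d_al.h76r.Sd

set_option autoImplicit false

namespace Pool.MP_59b15d_al.SymH

open Pool.MP_59b15d_al.Sym (Gg cW)

variable {h n : ℕ}

/-- (BIRMAN, injectivity) -- helper95. -/
theorem birman_inj (hh : 1 ≤ h) (p : MulAut (FG h (n + 1))) (hp : p ∈ CPf h (n + 1))
    (hk : ∀ z, kp h n (p z) = kp h n z) (w : FG h (n + 1))
    (hw : p (xg (Fin.last n)) = w * xg (Fin.last n) * w⁻¹) (hw1 : kp h n w = 1) : p = 1 := by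
  rcases Nat.lt_or_ge (h + (n + 1)) 3 with h3 | h3
  · obtain rfl : n = 0 := by omega
    obtain rfl : h = 1 := by omega
    exact Pool.MP_59b15d_al.H95H.birman_one p hp hk w hw hw1
  · exact Pool.MP_59b15d_al.H95H.birman_big hh h3 p hp hk w hw hw1

end Pool.MP_59b15d_al.SymH
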