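import Mathlib
import Pool.Agent.H.MP_59b15d_al.symh.G1
import Pool.Agent.H.MP_59b15d_al.h73h.Pu2
import Pool.Agent.H.MP_59b15d_al.h76r.Sd

set_option autoImplicit false

/-!
Pushing the last puncture around the generators, relative to the boundary.
-/

namespace Pool.MP_59b15d_al.SymH

open Pool.MP_59b15d_al.Sym (Gg cW)
open Pool.MP_59b15d_al.H73H (ga gb cm map_ofFn_prod prod_ofFn_last hom_ext CP_of Ot mv mv_self
  mv_ne mv_Ot of_Ot split cm_Ot)
open FreeGroup (of)

variable {h n : ℕ}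

/-- the elements around which the last puncture can be pushed, relative to the boundary -/
def YP (h n : ℕ) : Subgroup (FG h n) where
  carrier := {y | ∃ p ∈ CPf h (n + 1), (∀ z, kp h n (p z) = kp h n z) ∧
    ∃ w, p (xg (Fin.last n)) = w * xg (Fin.last n) * w⁻¹ ∧ kp h n w = y}
  mul_mem' := by
    rintro y y' ⟨p, hp, hp', w, hw, rfl⟩ ⟨q, hq, hq', v, hv, rfl⟩
    refine ⟨q * p, mul_mem hq hp, fun z => ?_, q w * v, ?_, ?_⟩
    · rw [MulAut.mul_apply, hq', hp']
    · rw [MulAut.mul_apply, hw, map_mul, map_mul, map_inv, hv]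
      group
    · rw [map_mul, hq']
  one_mem' := ⟨1, one_mem _, fun z => by rw [MulAut.one_apply], 1, by
    rw [MulAut.one_apply]; group, map_one _⟩
  inv_mem' := by
    rintro y ⟨p, hp, hp', w, hw, rfl⟩
    have h1 : ∀ z, kp h n (p⁻¹ z) = kp h n z := by
      intro z
      have h1 := hp' (p⁻¹ z)
      rw [MulAut.apply_inv_self] at h1
      exact h1.symm
    refine ⟨p⁻¹, inv_mem hp, h1, p⁻¹ w⁻¹, ?_, ?_⟩
    · have h2 : p⁻¹ (p (xg (Fin.last n))) = xg (Fin.last n) := MulAut.inv_apply_self _ _ _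
      rw [hw, map_mul, map_mul, map_inv] at h2
      rw [map_inv]
      conv_rhs => rw [← h2]
      group
    · rw [h1, map_inv]

theorem mem_YP {y : FG h n} : y ∈ YP h n ↔ ∃ p ∈ CPf h (n + 1), (∀ z, kp h n (p z) = kp h n z) ∧
    ∃ w, p (xg (Fin.last n)) = w * xg (Fin.last n) * w⁻¹ ∧ kp h n w = y := Iff.rfl

theorem YP_of (p : MulAut (FG h (n + 1)))
    (hx : ∀ j : Fin n, ∃ w, p (xg j.castSucc) = w * xg j.castSucc * w⁻¹)
    (w : FG h (n + 1)) (hT : p (xg (Fin.last n)) = w * xg (Fin.last n) * w⁻¹)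
    (hc : p (cW h (n + 1)) = cW h (n + 1))
    (hk1 : ∀ s, kp h n (p (of (Sum.inl s))) = of (Sum.inl s))
    (hk2 : ∀ j : Fin n, kp h n (p (xg j.castSucc)) = xg j) : kp h n w ∈ YP h n := by
  refine ⟨p, ⟨CP_of (fun j => ?_) ⟨1, by rw [hc]; group⟩, by rw [xn, map_inv, hc]⟩, fun z => ?_,
    w, hT, rfl⟩
  · refine Fin.lastCases ?_ (fun j => ?_) j
    · exact ⟨w, hT⟩
    · exact hx j
  · have : (kp h n).comp p.toMonoidHom = kp h n := by
      apply hom_ext
      · intro s
        rw [kp_inl]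
        exact hk1 s
      · intro j
        refine Fin.lastCases ?_ (fun j => ?_) j
        · change kp h n (p (xg (Fin.last n))) = _
          rw [hT, map_mul, map_mul, map_inv, kp_last]
          group
        · rw [kp_cast]
          exact hk2 j
    exact DFunLike.congr_fun this z

theorem kp_cm (i : Fin h) : kp h n (cm i) = cm i := by
  simp only [cm, map_mul, map_inv, kp_inl]

theorem cm_OtT (i : Fin h) (j : Fin (n + 1)) : (cm i : FG h (n + 1)) ∈ Ot (Sum.inr j) :=
  mul_mem (mul_mem (mul_mem (of_Ot (by simp)) (of_Ot (by simp)))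
      (inv_mem (of_Ot (by simp)))) (inv_mem (of_Ot (by simp)))

/-- Pushing around the handles. -/
theorem pushP_handle (i : Fin h) : ∃ R : FG h n,
    R ∈ Subgroup.closure {z | (∃ j, i < j ∧ z = cm j) ∨ ∃ j, z = xg j} ∧
    R⁻¹ * (gb i * (ga i)⁻¹ * (gb i)⁻¹) * R ∈ YP h n ∧
    R⁻¹ * (gb i * ga i * gb i * (ga i)⁻¹ * (gb i)⁻¹) * R ∈ YP h n := by
  obtain ⟨L, R, hLR, hL, hR⟩ := split (fun i : Fin h => (cm i : FG h (n + 1))) i
  set X := (List.ofFn fun j : Fin n => (xg j.castSucc : FG h (n + 1))).prod with hX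
  have hc : (cW h (n + 1) : FG h (n + 1)) = L * cm i * (R * X) * xg (Fin.last n) := by
    rw [H73H.cW_eq, hLR, prod_ofFn_last (fun j => xg j), ← hX]
    group
  have hXm : ∀ s : Fin h ⊕ Fin h, X ∈ Ot (Sum.inl s) := by
    intro s
    apply Subgroup.list_prod_mem
    intro x hx
    rw [List.mem_ofFn] at hx
    obtain ⟨j, rfl⟩ := hx
    exact of_Ot (by simp)
  have hXT : X ∈ Ot (Sum.inr (Fin.last n)) := by
    apply Subgroup.list_prod_mem
    intro x hx
    rw [List.mem_ofFn] at hx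
    obtain ⟨j, rfl⟩ := hx
    exact of_Ot (by simpa using (Fin.castSucc_lt_last j).ne)
  -- the words `L` and `R` do not contain the letters `a_i`, `b_i`, `T`
  have hLa : L ∈ Ot (Sum.inl (Sum.inl i)) := by
    refine (Subgroup.closure_le _).2 ?_ hL
    rintro _ ⟨j, hj, rfl⟩
    exact (cm_Ot hj.ne).1
  have hLb : L ∈ Ot (Sum.inl (Sum.inr i)) := by
    refine (Subgroup.closure_le _).2 ?_ hL
    rintro _ ⟨j, hj, rfl⟩
    exact (cm_Ot hj.ne).2
  have hLT : L ∈ Ot (Sum.inr (Fin.last n)) := by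
    refine (Subgroup.closure_le _).2 ?_ hL
    rintro _ ⟨j, hj, rfl⟩
    exact cm_OtT _ _
  have hRa : R * X ∈ Ot (Sum.inl (Sum.inl i)) := by
    refine mul_mem ((Subgroup.closure_le _).2 ?_ hR) (hXm _)
    rintro _ ⟨j, hj, rfl⟩
    exact (cm_Ot hj.ne').1
  have hRb : R * X ∈ Ot (Sum.inl (Sum.inr i)) := by
    refine mul_mem ((Subgroup.closure_le _).2 ?_ hR) (hXm _)
    rintro _ ⟨j, hj, rfl⟩
    exact (cm_Ot hj.ne').2
  have hRT : R * X ∈ Ot (Sum.inr (Fin.last n)) := by
    refine mul_mem ((Subgroup.closure_le _).2 ?_ hR) hXT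
    rintro _ ⟨j, hj, rfl⟩
    exact cm_OtT _ _
  have hkR : kp h n (R * X) ∈
      Subgroup.closure {z : FG h n | (∃ j, i < j ∧ z = cm j) ∨ ∃ j, z = xg j} := by
    rw [map_mul]
    refine mul_mem ?_ ?_
    · have h1 : Subgroup.closure {z | ∃ j, i < j ∧ z = (cm j : FG h (n + 1))} ≤
          (Subgroup.closure {z | (∃ j, i < j ∧ z = (cm j : FG h n)) ∨ ∃ j, z = xg j}).comap
            (kp h n) := by
        rw [Subgroup.closure_le]
        rintro _ ⟨j, hj, rfl⟩
        rw [SetLike.mem_coe, Subgroup.mem_comap, kp_cm]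
        exact Subgroup.subset_closure (Or.inl ⟨j, hj, rfl⟩)
      exact h1 hR
    · rw [hX, map_ofFn_prod]
      apply Subgroup.list_prod_mem
      intro x hx
      rw [List.mem_ofFn] at hx
      obtain ⟨j, rfl⟩ := hx
      rw [kp_cast]
      exact Subgroup.subset_closure (Or.inr ⟨j, rfl⟩)
  generalize R * X = R' at hc hRa hRb hRT hkR
  have haO : (ga i : FG h (n + 1)) ∈ Ot (Sum.inl (Sum.inr i)) := of_Ot (by simp)
  have hbO : (gb i : FG h (n + 1)) ∈ Ot (Sum.inl (Sum.inl i)) := of_Ot (by simp)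
  have haT : (ga i : FG h (n + 1)) ∈ Ot (Sum.inr (Fin.last n)) := of_Ot (by simp)
  have hbT : (gb i : FG h (n + 1)) ∈ Ot (Sum.inr (Fin.last n)) := of_Ot (by simp)
  have hTa : (xg (Fin.last n) : FG h (n + 1)) ∈ Ot (Sum.inl (Sum.inl i)) := of_Ot (by simp)
  have hTb : (xg (Fin.last n) : FG h (n + 1)) ∈ Ot (Sum.inl (Sum.inr i)) := of_Ot (by simp)
  refine ⟨kp h n R', hkR, ?_, ?_⟩
  · -- `b ↦ t b`, then `t ↦ Z t Z⁻¹`
    have hZ : (gb i * (ga i)⁻¹ * (gb i)⁻¹ : FG h (n + 1)) ∈ Ot (Sum.inr (Fin.last n)) :=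
      mul_mem (mul_mem hbT (inv_mem haT)) (inv_mem hbT)
    have hW : R'⁻¹ * (gb i * (ga i)⁻¹ * (gb i)⁻¹) * R' ∈ Ot (Sum.inr (Fin.last n)) :=
      mul_mem (mul_mem (inv_mem hRT) hZ) hRT
    have ht : R' * xg (Fin.last n) * R'⁻¹ ∈ Ot (Sum.inl (Sum.inr i)) :=
      mul_mem (mul_mem hRb hTb) (inv_mem hRb)
    have h1 := YP_of (mv hW (inv_mem hW) * mv ht (one_mem _))
      (fun j => ⟨1, by
        rw [MulAut.mul_apply, mv_ne _ _ (by simp), mv_ne _ _ (by simpa using
          (Fin.castSucc_lt_last j).ne)]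
        group⟩) (R'⁻¹ * (gb i * (ga i)⁻¹ * (gb i)⁻¹) * R')
      (by rw [MulAut.mul_apply, mv_ne _ _ (by simp), mv_self])
      (by
        rw [hc, MulAut.mul_apply, cm]
        simp only [map_mul, map_inv, mv_Ot ht (one_mem _) hLb, mv_Ot ht (one_mem _) hRb,
          mv_Ot ht (one_mem _) haO, mv_Ot ht (one_mem _) hTb, mv_self]
        simp only [map_mul, map_inv, mv_Ot hW (inv_mem hW) hLT, mv_Ot hW (inv_mem hW) hRT,
          mv_Ot hW (inv_mem hW) haT, mv_Ot hW (inv_mem hW) hbT, mv_self, map_one]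
        group)
      (by
        intro s
        by_cases hs : s = Sum.inr i
        · subst hs
          rw [MulAut.mul_apply, mv_self]
          simp only [map_mul, map_inv, mv_Ot hW (inv_mem hW) hRT, mv_Ot hW (inv_mem hW) hbT,
            mv_self, map_one, kp_inl, kp_last]
          group
        · rw [MulAut.mul_apply, mv_ne _ _ (by simpa using hs), mv_ne _ _ (by simp), kp_inl])
      (fun j => by
        rw [MulAut.mul_apply, mv_ne _ _ (by simp), mv_ne _ _ (by simpa using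
          (Fin.castSucc_lt_last j).ne), kp_cast])
    simpa only [map_mul, map_inv, kp_inl] using h1
  · -- `a ↦ b⁻¹ t b a`, then `t ↦ Z t Z⁻¹`
    have hZ : (gb i * ga i * gb i * (ga i)⁻¹ * (gb i)⁻¹ : FG h (n + 1)) ∈
        Ot (Sum.inr (Fin.last n)) :=
      mul_mem (mul_mem (mul_mem (mul_mem hbT haT) hbT) (inv_mem haT)) (inv_mem hbT)
    have hW : R'⁻¹ * (gb i * ga i * gb i * (ga i)⁻¹ * (gb i)⁻¹) * R' ∈ Ot (Sum.inr (Fin.last n)) :=
      mul_mem (mul_mem (inv_mem hRT) hZ) hRT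
    have ht : (gb i)⁻¹ * (R' * xg (Fin.last n) * R'⁻¹) * gb i ∈ Ot (Sum.inl (Sum.inl i)) :=
      mul_mem (mul_mem (inv_mem hbO) (mul_mem (mul_mem hRa hTa) (inv_mem hRa))) hbO
    have h1 := YP_of (mv hW (inv_mem hW) * mv ht (one_mem _))
      (fun j => ⟨1, by
        rw [MulAut.mul_apply, mv_ne _ _ (by simp), mv_ne _ _ (by simpa using
          (Fin.castSucc_lt_last j).ne)]
        group⟩) (R'⁻¹ * (gb i * ga i * gb i * (ga i)⁻¹ * (gb i)⁻¹) * R')
      (by rw [MulAut.mul_apply, mv_ne _ _ (by simp), mv_self])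
      (by
        rw [hc, MulAut.mul_apply, cm]
        simp only [map_mul, map_inv, mv_Ot ht (one_mem _) hLa, mv_Ot ht (one_mem _) hRa,
          mv_Ot ht (one_mem _) hbO, mv_Ot ht (one_mem _) hTa, mv_self]
        simp only [map_mul, map_inv, mv_Ot hW (inv_mem hW) hLT, mv_Ot hW (inv_mem hW) hRT,
          mv_Ot hW (inv_mem hW) haT, mv_Ot hW (inv_mem hW) hbT, mv_self, map_one]
        group)
      (by
        intro s
        by_cases hs : s = Sum.inl i
        · subst hs
          rw [MulAut.mul_apply, mv_self]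
          simp only [map_mul, map_inv, mv_Ot hW (inv_mem hW) hRT, mv_Ot hW (inv_mem hW) hbT,
            mv_Ot hW (inv_mem hW) haT, mv_self, map_one, kp_inl, kp_last]
          group
        · rw [MulAut.mul_apply, mv_ne _ _ (by simpa using hs), mv_ne _ _ (by simp), kp_inl])
      (fun j => by
        rw [MulAut.mul_apply, mv_ne _ _ (by simp), mv_ne _ _ (by simpa using
          (Fin.castSucc_lt_last j).ne), kp_cast])
    simpa only [map_mul, map_inv, kp_inl] using h1

/-- Pushing around the punctures. -/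
theorem pushP_point (j : Fin n) : ∃ R : FG h n,
    R ∈ Subgroup.closure {z | ∃ i, j < i ∧ z = xg i} ∧ R⁻¹ * xg j * R ∈ YP h n := by
  obtain ⟨L, R, hLR, hL, hR⟩ := split (fun i : Fin n => (xg i.castSucc : FG h (n + 1))) j
  set C := (List.ofFn fun i : Fin h => (cm i : FG h (n + 1))).prod with hC
  have hc : (cW h (n + 1) : FG h (n + 1)) = C * L * xg j.castSucc * R * xg (Fin.last n) := by
    rw [H73H.cW_eq, prod_ofFn_last (fun j => xg j), hLR, ← hC]
    group
  have hjT : (Sum.inr j.castSucc : (Fin h ⊕ Fin h) ⊕ Fin (n + 1)) ≠ Sum.inr (Fin.last n) := by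
    simpa using (Fin.castSucc_lt_last j).ne
  have hLx : C * L ∈ Ot (Sum.inr j.castSucc) := by
    refine mul_mem (H73H.cms_Ot _) ((Subgroup.closure_le _).2 ?_ hL)
    rintro _ ⟨i, hi, rfl⟩
    exact of_Ot (by simpa using hi.ne)
  have hLT : C * L ∈ Ot (Sum.inr (Fin.last n)) := by
    refine mul_mem (H73H.cms_Ot _) ((Subgroup.closure_le _).2 ?_ hL)
    rintro _ ⟨i, hi, rfl⟩
    exact of_Ot (by simpa using (Fin.castSucc_lt_last i).ne)
  have hRx : R ∈ Ot (Sum.inr j.castSucc) := by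
    refine (Subgroup.closure_le _).2 ?_ hR
    rintro _ ⟨i, hi, rfl⟩
    exact of_Ot (by simpa using hi.ne')
  have hRT : R ∈ Ot (Sum.inr (Fin.last n)) := by
    refine (Subgroup.closure_le _).2 ?_ hR
    rintro _ ⟨i, hi, rfl⟩
    exact of_Ot (by simpa using (Fin.castSucc_lt_last i).ne)
  have hkR : kp h n R ∈ Subgroup.closure {z : FG h n | ∃ i, j < i ∧ z = xg i} := by
    have h1 : Subgroup.closure {z | ∃ i : Fin n, j < i ∧ z = (xg i.castSucc : FG h (n + 1))} ≤
        (Subgroup.closure {z | ∃ i, j < i ∧ z = xg i}).comap (kp h n) := by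
      rw [Subgroup.closure_le]
      rintro _ ⟨i, hi, rfl⟩
      rw [SetLike.mem_coe, Subgroup.mem_comap, kp_cast]
      exact Subgroup.subset_closure ⟨i, hi, rfl⟩
    exact h1 hR
  generalize C * L = L' at hc hLx hLT
  have hxT : (xg j.castSucc : FG h (n + 1)) ∈ Ot (Sum.inr (Fin.last n)) := of_Ot hjT
  have hTx : (xg (Fin.last n) : FG h (n + 1)) ∈ Ot (Sum.inr j.castSucc) := of_Ot hjT.symm
  have hW : R⁻¹ * xg j.castSucc * R ∈ Ot (Sum.inr (Fin.last n)) :=
    mul_mem (mul_mem (inv_mem hRT) hxT) hRT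
  have ht : R * xg (Fin.last n) * R⁻¹ ∈ Ot (Sum.inr j.castSucc) :=
    mul_mem (mul_mem hRx hTx) (inv_mem hRx)
  refine ⟨kp h n R, hkR, ?_⟩
  have h1 := YP_of (mv hW (inv_mem hW) * mv ht (inv_mem ht))
      (by
        intro i
        by_cases hi : i = j
        · subst hi
          refine ⟨mv hW (inv_mem hW) (R * xg (Fin.last n) * R⁻¹), ?_⟩
          rw [MulAut.mul_apply, mv_self, map_mul, map_mul, map_inv,
            mv_Ot hW (inv_mem hW) hxT]
        · refine ⟨1, ?_⟩
          rw [MulAut.mul_apply, mv_ne _ _ (by simpa using hi), mv_ne _ _ (by simpa using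
            (Fin.castSucc_lt_last i).ne)]
          group) (R⁻¹ * xg j.castSucc * R)
      (by rw [MulAut.mul_apply, mv_ne _ _ hjT.symm, mv_self])
      (by
        rw [hc, MulAut.mul_apply]
        simp only [map_mul, map_inv, mv_Ot ht (inv_mem ht) hLx, mv_Ot ht (inv_mem ht) hRx,
          mv_Ot ht (inv_mem ht) hTx, mv_self]
        simp only [map_mul, map_inv, mv_Ot hW (inv_mem hW) hLT, mv_Ot hW (inv_mem hW) hRT,
          mv_Ot hW (inv_mem hW) hxT, mv_self]
        group)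
      (fun s => by rw [MulAut.mul_apply, mv_ne _ _ (by simp), mv_ne _ _ (by simp), kp_inl])
      (by
        intro i
        by_cases hi : i = j
        · subst hi
          rw [MulAut.mul_apply, mv_self]
          simp only [map_mul, map_inv, mv_Ot hW (inv_mem hW) hRT, mv_Ot hW (inv_mem hW) hxT,
            mv_self, kp_cast, kp_last]
          group
        · rw [MulAut.mul_apply, mv_ne _ _ (by simpa using hi), mv_ne _ _ (by simpa using
            (Fin.castSucc_lt_last i).ne), kp_cast])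
  simpa only [map_mul, map_inv, kp_cast] using h1

theorem YP_point (j : Fin n) : (xg j : FG h n) ∈ YP h n := by
  induction j using WellFoundedGT.induction with
  | ind j ih =>
    obtain ⟨R, hR, h1⟩ := pushP_point (h := h) j
    have hR' : R ∈ YP h n := by
      refine (Subgroup.closure_le _).2 ?_ hR
      rintro _ ⟨i, hi, rfl⟩
      exact ih i hi
    have h5 := mul_mem (mul_mem hR' h1) (inv_mem hR')
    have h6 : R * (R⁻¹ * xg j * R) * R⁻¹ = (xg j : FG h n) := by group
    rwa [h6] at h5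

theorem YP_handle (i : Fin h) : (ga i : FG h n) ∈ YP h n ∧ (gb i : FG h n) ∈ YP h n := by
  induction i using WellFoundedGT.induction with
  | ind i ih =>
    obtain ⟨R, hR, h1, h2⟩ := pushP_handle (n := n) i
    have hR' : R ∈ YP h n := by
      refine (Subgroup.closure_le _).2 ?_ hR
      rintro _ (⟨j, hj, rfl⟩ | ⟨j, rfl⟩)
      · obtain ⟨h3, h4⟩ := ih j hj
        exact mul_mem (mul_mem (mul_mem h3 h4) (inv_mem h3)) (inv_mem h4)
      · exact YP_point j
    have h3 : (gb i * ga i * (gb i)⁻¹ : FG h n) ∈ YP h n := by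
      have h5 := inv_mem (mul_mem (mul_mem hR' h1) (inv_mem hR'))
      have h6 : (R * (R⁻¹ * (gb i * (ga i)⁻¹ * (gb i)⁻¹) * R) * R⁻¹)⁻¹ =
        (gb i * ga i * (gb i)⁻¹ : FG h n) := by group
      rwa [h6] at h5
    have h4 : (gb i : FG h n) ∈ YP h n := by
      have h5 := mul_mem (mul_mem (inv_mem h3) (mul_mem (mul_mem hR' h2) (inv_mem hR'))) h3
      have h6 : (gb i * ga i * (gb i)⁻¹)⁻¹ *
        (R * (R⁻¹ * (gb i * ga i * gb i * (ga i)⁻¹ * (gb i)⁻¹) * R) * R⁻¹) *
        (gb i * ga i * (gb i)⁻¹) = (gb i : FG h n) := by group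
      rwa [h6] at h5
    refine ⟨?_, h4⟩
    have h5 := mul_mem (mul_mem (inv_mem h4) h3) h4
    have h6 : (gb i)⁻¹ * (gb i * ga i * (gb i)⁻¹) * gb i = (ga i : FG h n) := by group
    rwa [h6] at h5

/-- (PUSH, surjectivity) -/
theorem push (hh : 1 ≤ h) (y : FG h n) : ∃ p ∈ CPf h (n + 1), (∀ z, kp h n (p z) = kp h n z) ∧
    ∃ w, p (xg (Fin.last n)) = w * xg (Fin.last n) * w⁻¹ ∧ kp h n w = y := by
  clear hh
  change y ∈ YP h n
  induction y using FreeGroup.induction_on with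
  | C1 => exact one_mem _
  | of s =>
    rcases s with (i | i) | j
    · exact (YP_handle i).1
    · exact (YP_handle i).2
    · exact YP_point j
  | inv_of s ih => exact inv_mem ih
  | mul u v hu hv => exact mul_mem hu hv

end Pool.MP_59b15d_al.SymH
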