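import Mathlib
import Pool.Agent.H.MP_59b15d_al.symh.G1a
import Pool.Agent.H.MP_59b15d_al.symh.Bi
import Pool.Agent.H.MP_59b15d_al.symh.Pu
import Pool.Agent.H.MP_59b15d_al.symh.B10
import Pool.Agent.H.MP_59b15d_al.h76r.Sd

set_option autoImplicit false

/-!
The congruence subgroup property of the punctured surfaces: the induction on the number of
punctures.
-/

namespace Pool.MP_59b15d_al.SymH

open Pool.MP_59b15d_al
open Pool.MP_59b15d_al.Sym (Gg cW)
open Pool.MP_59b15d_al.H76 (trivMod mem_trivMod trivMod_finiteIndex exists_char_le free_cs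
  comap_fi)

variable {h n N : ℕ}

/-- The push homomorphism. -/
theorem push_hom (hh : 1 ≤ h) : ∃ Ψ : FG h n →* MulAut (FG h (n + 1)),
    (∀ y, Ψ y ∈ CPf h (n + 1)) ∧
    ∀ p ∈ CPf h (n + 1), (∀ z, kp h n (p z) = kp h n z) →
      ∀ w, p (xg (Fin.last n)) = w * xg (Fin.last n) * w⁻¹ → p = Ψ (kp h n w)⁻¹ := by
  choose P hP1 hP2 W hP3 hP4 using fun y : FG h n => push hh y
  have huniq : ∀ (p q : MulAut (FG h (n + 1))), p ∈ CPf h (n + 1) → q ∈ CPf h (n + 1) →
      (∀ z, kp h n (p z) = kp h n z) → (∀ z, kp h n (q z) = kp h n z) →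
      ∀ w v, p (xg (Fin.last n)) = w * xg (Fin.last n) * w⁻¹ →
        q (xg (Fin.last n)) = v * xg (Fin.last n) * v⁻¹ → kp h n w = kp h n v → p = q := by
    intro p q hp hq hpk hqk w v hw hv hwv
    have hpk' : ∀ z, kp h n (p⁻¹ z) = kp h n z := by
      intro z
      rw [← hpk (p⁻¹ z), ← MulAut.mul_apply, mul_inv_cancel, MulAut.one_apply]
    have h1 : p⁻¹ (xg (Fin.last n)) = (p⁻¹ w)⁻¹ * xg (Fin.last n) * (p⁻¹ w) := by
      have h2 : p⁻¹ (p (xg (Fin.last n))) = xg (Fin.last n) := by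
        rw [← MulAut.mul_apply, inv_mul_cancel, MulAut.one_apply]
      rw [hw, map_mul, map_mul, map_inv] at h2
      have h4 : p⁻¹ (xg (Fin.last n)) = (p⁻¹ w)⁻¹ *
          (p⁻¹ w * p⁻¹ (xg (Fin.last n)) * (p⁻¹ w)⁻¹) * (p⁻¹ w) := by group
      rw [h4, h2]
    have h3 : p⁻¹ * q = 1 := by
      refine birman_inj hh (p⁻¹ * q) (mul_mem (inv_mem hp) hq) (fun z => ?_)
        (p⁻¹ v * (p⁻¹ w)⁻¹) ?_ ?_
      · rw [MulAut.mul_apply, hpk', hqk]
      · rw [MulAut.mul_apply, hv, map_mul, map_mul, map_inv, h1]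
        group
      · rw [map_mul, map_inv, hpk', hpk', hwv, mul_inv_cancel]
    rw [inv_mul_eq_one] at h3
    exact h3
  let Ψ : FG h n →* MulAut (FG h (n + 1)) :=
    { toFun := fun y => P y⁻¹
      map_one' := by
        refine huniq _ _ (hP1 _) (one_mem _) (hP2 _) (fun z => rfl) (W 1⁻¹) 1 (hP3 _) ?_ ?_
        · rw [MulAut.one_apply]
          group
        · rw [hP4, inv_one, map_one]
      map_mul' := fun y y' => by
        refine huniq _ _ (hP1 _) (mul_mem (hP1 _) (hP1 _)) (hP2 _) (fun z => ?_)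
          (W (y * y')⁻¹) (P y⁻¹ (W y'⁻¹) * W y⁻¹) (hP3 _) ?_ ?_
        · rw [MulAut.mul_apply, hP2, hP2]
        · rw [MulAut.mul_apply, hP3, map_mul, map_mul, map_inv, hP3]
          group
        · rw [hP4, map_mul, hP2, hP4, hP4]
          group }
  refine ⟨Ψ, fun y => hP1 _, fun p hp hpk w hw => ?_⟩
  change p = P (kp h n w)⁻¹⁻¹
  rw [inv_inv]
  exact huniq _ _ hp (hP1 _) hpk (hP2 _) w (W (kp h n w)) hw (hP3 _) (hP4 _).symm

/-- The induction on the number of punctures. -/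
theorem g0f_succ (hh : 1 ≤ h) (ih : G0f h n) : G0f h (n + 1) := by
  intro H hH
  obtain ⟨Ψ, hΨ1, hΨ2⟩ := push_hom (n := n) hh
  have hL : (H.comap Ψ).FiniteIndex := by
    constructor
    rw [← Subgroup.relIndex_top_right]
    exact fi_comap Ψ hH fun y _ => hΨ1 y
  have hLc : (H.comap Ψ).normalCore.FiniteIndex := Subgroup.finiteIndex_normalCore _
  have hLcn : (H.comap Ψ).normalCore.Normal := Subgroup.normalCore_normal _
  let U1 : Subgroup (FG h (n + 1)) := (H.comap Ψ).normalCore.comap (kp h n)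
  have hU1n : U1.Normal := inferInstance
  have hU1f : U1.FiniteIndex := comap_fi _ hLc
  obtain ⟨M, hMn, hMf, -, hM⟩ := free_cs (Sum.inr (Fin.last n) : (Fin h ⊕ Fin h) ⊕ Fin (n + 1)) U1
  obtain ⟨Γ, hΓ, hΓf, hΓM⟩ := exists_char_le M hMf
  have hΓn : Γ.Normal := inferInstance
  have htf := trivMod_finiteIndex hΓ hΓf
  have hH' : ((H ⊓ trivMod Γ).comap (ss h n)).relIndex (CPf h n) ≠ 0 := by
    refine fi_comap (ss h n) (K := CPf h (n + 1)) ?_ fun b hb => ss_CPf hb
    refine Subgroup.relIndex_inf_ne_zero hH ?_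
    intro h0
    exact htf.index_ne_zero (Subgroup.index_eq_zero_of_relIndex_eq_zero h0)
  obtain ⟨U', hU'n, hU'f, hU'⟩ := ih _ hH'
  have hU'c : (U'.comap (kp h n)).FiniteIndex := comap_fi _ hU'f
  refine ⟨Γ ⊓ U'.comap (kp h n), inferInstance, inferInstance, ?_⟩
  intro f hf hfU
  obtain ⟨b, hb, hkf⟩ := exists_bar hf
  have hbU : ∀ z, b z * z⁻¹ ∈ U' := by
    intro z
    have h1 : kp h n (f (io h n z) * (io h n z)⁻¹) ∈ U' := (hfU (io h n z)).2
    rw [map_mul, map_inv, hkf, kp_io] at h1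
    exact h1
  have hbH := hU' b hb hbU
  rw [Subgroup.mem_comap, Subgroup.mem_inf] at hbH
  have hp : f * (ss h n b)⁻¹ ∈ CPf h (n + 1) := mul_mem hf (inv_mem (ss_CPf hb))
  have hsi : ∀ z, kp h n ((ss h n b)⁻¹ z) = b⁻¹ (kp h n z) := fun z => by
    rw [← map_inv, kp_ss]
  have hpk : ∀ z, kp h n ((f * (ss h n b)⁻¹) z) = kp h n z := by
    intro z
    rw [MulAut.mul_apply, hkf, hsi, ← MulAut.mul_apply, mul_inv_cancel, MulAut.one_apply]
  have hpT : f * (ss h n b)⁻¹ ∈ trivMod Γ := by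
    have h1 : f ∈ trivMod Γ := fun z => (hfU z).1
    exact mul_mem h1 (inv_mem hbH.2)
  obtain ⟨w, hw⟩ := hp.1 (Fin.last n).castSucc
  rw [per_castSucc] at hw
  have h3 := hΓM (hpT (xg (Fin.last n)))
  rw [hw] at h3
  obtain ⟨k, hk⟩ := hM w h3
  have h5 : kp h n (w * xg (Fin.last n) ^ k) ∈ (H.comap Ψ).normalCore := hk
  rw [map_mul, map_zpow, kp_last, one_zpow, mul_one] at h5
  have h6 := Subgroup.normalCore_le _ (inv_mem h5)
  have h7 := hΨ2 _ hp hpk w hw
  have h8 : f * (ss h n b)⁻¹ ∈ H := by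
    rw [h7]
    exact h6
  have h9 := mul_mem h8 hbH.1
  rwa [inv_mul_cancel_right] at h9

/-- The congruence subgroup property of the punctured tori. -/
theorem hasG0_one : HasG0 1 N := by
  refine hasG0_of_g0f (Or.inl le_rfl) ?_
  induction N with
  | zero => exact g0f_one_zero
  | succ n ih => exact g0f_succ le_rfl ih

end Pool.MP_59b15d_al.SymH
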