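import Mathlib
import Pool.Agent.H.MP_59b15d_al.symh.G1s
import Pool.Agent.H.MP_59b15d_al.h95h.Bz
import Pool.Agent.H.MP_59b15d_al.h76r.Sd

set_option autoImplicit false

namespace Pool.MP_59b15d_al.SymH

open Pool.MP_59b15d_al.H76 (trivMod trivMod_finiteIndex exists_char_le)
open Pool.MP_59b15d_al.H95H (cent_xn exists_order_char conj_normal relIndex_sup_ne)

variable {h N : ℕ}

/-- (ZERO) -- helper95.  From the punctured surface to the surface with boundary. -/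
theorem g0f_of_hasG0 (hh : 1 ≤ h) (hG : HasG0 h N) : G0f h N := by
  intro H hH
  set H₀ : Subgroup (MulAut (FG h N)) := H ⊓ CPf h N with hH₀
  have hH0 : H₀.relIndex (CPf h N) ≠ 0 := by
    rw [hH₀, Subgroup.inf_relIndex_right]
    exact hH
  -- the power of the boundary twist
  have hcx : MulAut.conj (xn h N) ∈ CPf h N := by
    refine ⟨conj_mem_CP _, ?_⟩
    rw [MulAut.conj_apply, mul_inv_cancel_right]
  obtain ⟨k, hk0, hk⟩ : ∃ k : ℕ, 0 < k ∧ MulAut.conj (xn h N) ^ k ∈ H₀ := by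
    have h1 : (H₀.subgroupOf (CPf h N)).index ≠ 0 := hH0
    obtain ⟨k, hk, -, hk'⟩ := Subgroup.exists_pow_mem_of_index_ne_zero h1
      (⟨MulAut.conj (xn h N), hcx⟩ : CPf h N)
    exact ⟨k, hk, hk'⟩
  obtain ⟨V, hVc, hVf, hV⟩ := exists_order_char (N := N) hh k hk0
  have hVn : V.Normal := inferInstance
  set K : Subgroup (MulAut (FG h N)) := V.map MulAut.conj with hK
  have hKn : K.Normal := conj_normal V hVc
  have h1 : (H₀ ⊔ K).relIndex (CPf h N ⊔ K) ≠ 0 := relIndex_sup_ne _ _ _ hKn hH0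
  -- `CPf ⊔ K` has finite index in `CP`
  obtain ⟨Γ, hΓn, hΓf, hΓle, hΓ⟩ := cs_xn (Or.inl hh) V hVn hVf
  obtain ⟨W, hWc, hWf, hWle⟩ := exists_char_le Γ hΓf
  have h2 : (trivMod W).FiniteIndex := trivMod_finiteIndex hWc hWf
  have h3 : trivMod W ⊓ CP h N ≤ CPf h N ⊔ K := by
    rintro f ⟨hf1, hf2⟩
    obtain ⟨g, hg⟩ := hf2 (Fin.last N)
    rw [per_last] at hg
    have h4 := hWle (hf1 (xn h N))
    rw [hg] at h4
    obtain ⟨a, ha⟩ := hΓ g h4
    set v := g * (xn h N ^ a)⁻¹ with hv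
    have hvV : v ∈ V := by
      have h5 := hVn.conj_mem _ ha (xn h N ^ a)
      have h6 : xn h N ^ a * ((xn h N ^ a)⁻¹ * g) * (xn h N ^ a)⁻¹ = v := by
        rw [hv]
        group
      rwa [h6] at h5
    have h7 : f = (f * (MulAut.conj (f⁻¹ v))⁻¹) * MulAut.conj (f⁻¹ v) := by group
    have h8 : f * (MulAut.conj (f⁻¹ v))⁻¹ = (MulAut.conj v)⁻¹ * f := by
      have h9 : f * MulAut.conj (f⁻¹ v) * f⁻¹ = MulAut.conj v := by
        ext z
        rw [MulAut.mul_apply, MulAut.mul_apply, MulAut.conj_apply, MulAut.conj_apply, map_mul,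
          map_mul, map_inv, MulAut.apply_inv_self, MulAut.apply_inv_self]
      rw [← h9]
      group
    rw [h7, h8]
    refine Subgroup.mul_mem_sup ⟨mul_mem (inv_mem (conj_mem_CP v)) hf2, ?_⟩
      ⟨f⁻¹ v, H76.apply_mem_of_char hVc f⁻¹ hvV, rfl⟩
    rw [MulAut.mul_apply, hg, ← map_inv, MulAut.conj_apply, hv]
    group
  have h4 : (CPf h N ⊔ K).relIndex (CP h N) ≠ 0 := by
    have h5 : (trivMod W ⊓ CP h N).relIndex (CP h N) ≠ 0 := by
      rw [Subgroup.inf_relIndex_right]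
      have := Subgroup.isFiniteRelIndex_of_finiteIndex (H := trivMod W) (K := CP h N)
      exact Subgroup.relIndex_ne_zero
    exact fun h6 => h5 (Subgroup.relIndex_eq_zero_of_le_left h3 h6)
  obtain ⟨U, hUn, hUf, hU⟩ := hG (H₀ ⊔ K) (Subgroup.relIndex_ne_zero_trans h1 h4)
  refine ⟨U, hUn, hUf, fun f hf hfU => ?_⟩
  have h5 := hU f hf.1 hfU
  rw [Subgroup.mem_sup_of_normal_right] at h5
  obtain ⟨f₀, hf₀, c, ⟨v, hv, rfl⟩, hfc⟩ := h5
  have h6 : MulAut.conj v (xn h N) = xn h N := by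
    have h7 : f₀ (MulAut.conj v (xn h N)) = f₀ (xn h N) := by
      rw [← MulAut.mul_apply]
      change (f₀ * (MulAut.conj : FG h N →* MulAut (FG h N)) v) (xn h N) = _
      rw [hfc, hf.2, hf₀.2.2]
    exact f₀.injective h7
  rw [MulAut.conj_apply] at h6
  obtain ⟨a, ha⟩ := cent_xn hh v (mul_inv_eq_iff_eq_mul.1 h6)
  rw [ha] at hv
  obtain ⟨b, hb⟩ := hV a hv
  have h8 : (MulAut.conj : FG h N →* MulAut (FG h N)) v ∈ H₀ := by
    rw [ha, hb, zpow_mul, map_zpow, zpow_natCast, map_pow]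
    exact zpow_mem hk b
  have h9 : f ∈ H₀ := by
    rw [← hfc]
    exact mul_mem hf₀ h8
  exact h9.1

theorem hasG0_of_zero (hh : 1 ≤ h) (hG : HasG0 h 0) : HasG0 h N := by
  refine hasG0_of_g0f (Or.inl hh) ?_
  induction N with
  | zero => exact g0f_of_hasG0 hh hG
  | succ n ih => exact g0f_succ hh ih

end Pool.MP_59b15d_al.SymH
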